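import Pool.Agent.R325.BH.Base

set_option linter.all false
universe u
namespace Pool.Agent.R325.BH

open Pool.Agent.Results.MP_5ecbac_al
open ThreeCherries ThreeCherries.Br Skeleton

attribute [local instance 100] LieRing.ofAssociativeRing

variable (K : Type u) [Field K]

namespace BAS

/-- span of the words with property `P` -/
noncomputable def Sp (P : Wd → Prop) : Submodule K (F K) :=
  Submodule.span K {z | ∃ w, P w ∧ z = wd K w}

variable {K}

theorem cf_wd (u w : Wd) : cf (wd K u) w = if u = w then 1 else 0 := by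
  classical
  unfold cf wd
  rw [MonoidAlgebra.coeff_single_apply]
  by_cases h : u = w
  · rw [if_pos h, if_pos (congrArg FreeMonoid.ofList h)]
  · rw [if_neg h, if_neg fun h' => h (FreeMonoid.ofList.injective h')]

theorem cf_zero (w : Wd) : cf (0 : F K) w = 0 := by
  simp [cf]

theorem cf_add (x y : F K) (w : Wd) : cf (x + y) w = cf x w + cf y w := by
  simp [cf]

theorem cf_sub (x y : F K) (w : Wd) : cf (x - y) w = cf x w - cf y w := by
  simp [cf]

theorem cf_smul (c : K) (x : F K) (w : Wd) : cf (c • x) w = c * cf x w := by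
  simp [cf]

theorem mem_Sp (P : Wd → Prop) (x : F K) : x ∈ Sp K P ↔ ∀ w, ¬ P w → cf x w = 0 := by
  constructor
  · intro hx
    unfold Sp at hx
    induction hx using Submodule.span_induction with
    | mem x hx =>
      obtain ⟨u, hu, rfl⟩ := hx
      intro w hw
      rw [cf_wd, if_neg]
      rintro rfl
      exact hw hu
    | zero => intro w _; exact cf_zero w
    | add a b _ _ iha ihb =>
      intro w hw
      rw [cf_add, iha w hw, ihb w hw, add_zero]
    | smul c a _ iha =>
      intro w hw
      rw [cf_smul, iha w hw, mul_zero]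
  · intro h
    rw [← MonoidAlgebra.sum_coeff_single x]
    unfold Finsupp.sum
    refine Submodule.sum_mem _ fun g hg => ?_
    have hg' : x.coeff g ≠ 0 := Finsupp.mem_support_iff.1 hg
    have hP : P g.toList := by
      by_contra hn
      exact hg' (h g.toList hn)
    have : MonoidAlgebra.single g (x.coeff g) = x.coeff g • wd K g.toList := by
      unfold wd
      rw [MonoidAlgebra.smul_single, smul_eq_mul, mul_one]
      rfl
    rw [this]
    exact Submodule.smul_mem _ _ (Submodule.subset_span ⟨g.toList, hP, rfl⟩)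

theorem exists_cf {x : F K} (hx : x ≠ 0) : ∃ w, cf x w ≠ 0 := by
  by_contra h
  push Not at h
  refine hx ?_
  have : x.coeff = 0 := by
    ext g
    exact h g.toList
  exact MonoidAlgebra.coeff_eq_zero.1 this

theorem Sp_mono {P Q : Wd → Prop} (h : ∀ w, P w → Q w) : Sp K P ≤ Sp K Q := by
  refine Submodule.span_mono ?_
  rintro z ⟨w, hw, rfl⟩
  exact ⟨w, h w hw, rfl⟩

theorem wd_mul (u v : Wd) : wd K u * wd K v = wd K (u ++ v) := by
  unfold wd
  rw [MonoidAlgebra.single_mul_single, one_mul]
  rfl

theorem mul_Sp {P Q : Wd → Prop} {x y : F K} (hx : x ∈ Sp K P) (hy : y ∈ Sp K Q) :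
    x * y ∈ Sp K (fun w => ∃ u v, P u ∧ Q v ∧ w = u ++ v) := by
  unfold Sp at hx
  induction hx using Submodule.span_induction with
  | mem x hx =>
    obtain ⟨u, hu, rfl⟩ := hx
    unfold Sp at hy
    induction hy using Submodule.span_induction with
    | mem y hy =>
      obtain ⟨v, hv, rfl⟩ := hy
      rw [wd_mul]
      exact Submodule.subset_span ⟨u ++ v, ⟨u, v, hu, hv, rfl⟩, rfl⟩
    | zero => rw [mul_zero]; exact Submodule.zero_mem _
    | add a b _ _ iha ihb => rw [mul_add]; exact Submodule.add_mem _ iha ihb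
    | smul c a _ iha => rw [mul_smul_comm]; exact Submodule.smul_mem _ _ iha
  | zero => rw [zero_mul]; exact Submodule.zero_mem _
  | add a b _ _ iha ihb => rw [add_mul]; exact Submodule.add_mem _ iha ihb
  | smul c a _ iha => rw [smul_mul_assoc]; exact Submodule.smul_mem _ _ iha

/-- relabelling of words -/
def rw' (r : ℕ → ℕ) (w : Wd) : Wd := w.map (fun a : ℕ × ℕ => (r a.1, a.2))

theorem rel_wd (r : ℕ → ℕ) (w : Wd) : rel K r (wd K w) = wd K (rw' r w) := by
  unfold rel wd
  show MonoidAlgebra.mapDomain _ _ = _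
  rw [MonoidAlgebra.mapDomain_single]
  rfl

theorem rel_Sp {P : Wd → Prop} (r : ℕ → ℕ) {x : F K} (hx : x ∈ Sp K P) :
    rel K r x ∈ Sp K (fun w => ∃ u, P u ∧ w = rw' r u) := by
  unfold Sp at hx
  induction hx using Submodule.span_induction with
  | mem x hx =>
    obtain ⟨u, hu, rfl⟩ := hx
    rw [rel_wd]
    exact Submodule.subset_span ⟨_, ⟨u, hu, rfl⟩, rfl⟩
  | zero => rw [map_zero]; exact Submodule.zero_mem _
  | add a b _ _ iha ihb => rw [map_add]; exact Submodule.add_mem _ iha ihb
  | smul c a _ iha => rw [map_smul]; exact Submodule.smul_mem _ _ iha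

theorem rel_ne {r : ℕ → ℕ} (hr : Function.Injective r) {x : F K} (hx : x ≠ 0) :
    rel K r x ≠ 0 := by
  intro h
  have hinj : Function.Injective (rel K r) := by
    have h1 : Function.Injective (FreeMonoid.map (fun a : ℕ × ℕ => (r a.1, a.2))) := by
      have h2 : Function.Injective (fun a : ℕ × ℕ => (r a.1, a.2)) := by
        rintro ⟨a, b⟩ ⟨c, d⟩ h
        simp only [Prod.mk.injEq] at h
        rw [Prod.mk.injEq]
        exact ⟨hr h.1, h.2⟩
      intro a b h
      exact List.map_injective_iff.2 h2 h
    exact MonoidAlgebra.mapDomain_injective h1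
  exact hx (hinj (by rw [h, map_zero]))

theorem dl_wd (w : Wd) : dl K (wd K w) = dW K w := by
  unfold dl wd
  show (Finsupp.linearCombination K (fun w : FreeMonoid (ℕ × ℕ) => dW K w.toList))
    (MonoidAlgebra.single (FreeMonoid.ofList w) (1 : K)).coeff = _
  rw [MonoidAlgebra.coeff_single, Finsupp.linearCombination_single, one_smul]
  rfl

theorem wt_up (w : Wd) : ∀ k < w.length, wt (upW k w) = wt w + 1 := by
  induction w with
  | nil => intro k hk; simp at hk
  | cons a w ih =>
    intro k hk
    cases k with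
    | zero =>
      simp [upW, wt]
      omega
    | succ k =>
      have h := ih k (by simpa using hk)
      simp [upW, wt] at h ⊢
      omega

theorem dl_Sp {p d : ℕ} {x : F K} (hx : x ∈ Sp K (fun w => w.length = p ∧ wt w = d)) :
    dl K x ∈ Sp K (fun w => w.length = p ∧ wt w = d + 1) := by
  unfold Sp at hx
  induction hx using Submodule.span_induction with
  | mem x hx =>
    obtain ⟨u, hu, rfl⟩ := hx
    rw [dl_wd]
    unfold dW
    refine Submodule.sum_mem _ fun k hk => Submodule.subset_span ⟨upW k u, ⟨?_, ?_⟩, rfl⟩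
    · unfold upW
      rw [List.length_modify]
      exact hu.1
    · rw [wt_up u k (Finset.mem_range.1 hk), hu.2]
  | zero => rw [map_zero]; exact Submodule.zero_mem _
  | add a b _ _ iha ihb => rw [map_add]; exact Submodule.add_mem _ iha ihb
  | smul c a _ iha => rw [map_smul]; exact Submodule.smul_mem _ _ iha

variable (K) in
/-- the conclusion for one tree -/
structure Good (s : Br) : Prop where
  sup : ∃ d, d + (sk s).deg = s.deg ∧
    ∀ x ∈ M K s, x ∈ Sp K (fun w => w.length = (sk s).deg ∧ wt w = d)
  nz : ∃ x ∈ M K s, x ≠ 0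
  rl : ∀ (r : ℕ → ℕ), ∀ x ∈ M K s, rel K r x ∈ M K s
  ch : s.cherries = 1 → M K s = W K (s.deg - 1)

theorem W_map (β : ℕ) : (W K β).map (dl K) = W K (β + 1) := by
  unfold W
  rw [Submodule.map_span]
  congr 1
  ext z
  constructor
  · rintro ⟨_, ⟨i, rfl⟩, rfl⟩
    refine ⟨i, ?_⟩
    rw [dl_wd]
    simp [dW, upW]
  · rintro ⟨i, rfl⟩
    refine ⟨_, ⟨i, rfl⟩, ?_⟩
    rw [dl_wd]
    simp [dW, upW]

theorem W_rel (β : ℕ) (r : ℕ → ℕ) : ∀ x ∈ W K β, rel K r x ∈ W K β := by
  intro x hx
  unfold W at hx
  induction hx using Submodule.span_induction with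
  | mem x hx =>
    obtain ⟨i, rfl⟩ := hx
    rw [rel_wd]
    exact Submodule.subset_span ⟨r i, rfl⟩
  | zero => rw [map_zero]; exact Submodule.zero_mem _
  | add a b _ _ iha ihb => rw [map_add]; exact Submodule.add_mem _ iha ihb
  | smul c a _ iha => rw [map_smul]; exact Submodule.smul_mem _ _ iha

theorem wd_ne (w : Wd) : wd K w ≠ 0 := by
  intro h
  have h1 := cf_wd (K := K) w w
  rw [h, cf_zero, if_pos rfl] at h1
  exact zero_ne_one h1

theorem cherries_pos' : ∀ s : Br, s ≠ leaf → 1 ≤ s.cherries := by
  intro s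
  induction s with
  | leaf => intro h; exact absurd rfl h
  | node l r ihl ihr =>
    intro _
    cases l with
    | leaf =>
      cases r with
      | leaf => exact le_refl _
      | node a b =>
        have := ihr (by simp)
        show 1 ≤ 0 + (node a b).cherries
        omega
    | node a b =>
      have := ihl (by simp)
      show 1 ≤ (node a b).cherries + r.cherries
      omega

theorem cherries_pos (a b : Br) : 1 ≤ (node a b).cherries := cherries_pos' _ (by simp)

/-- the step for the derivation -/
theorem good_dl (hD : S_DL K) (hL : S_LD K) (s t : Br) (hs : Good K s)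
    (hM : M K t = (M K s).map (dl K)) (hsk : (sk t).deg = (sk s).deg) (hd : t.deg = s.deg + 1)
    (hc : t.cherries = s.cherries) : Good K t := by
  obtain ⟨⟨d, hd1, hd2⟩, ⟨x, hx, hx0⟩, hrl, hch⟩ := hs
  refine ⟨⟨d + 1, by rw [hsk, hd]; omega, ?_⟩, ?_, ?_, ?_⟩
  · rw [hM, hsk]
    rintro _ ⟨y, hy, rfl⟩
    exact dl_Sp (hd2 y hy)
  · rw [hM]
    refine ⟨dl K x, ⟨x, hx, rfl⟩, fun h => hx0 ?_⟩
    refine hL.2 (sk s).deg x (Skeleton.deg_pos _) ?_ h
    intro w hw
    exact (mem_Sp _ x).1 (hd2 x hx) w (fun h' => hw h'.1)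
  · rw [hM]
    rintro r _ ⟨y, hy, rfl⟩
    exact ⟨rel K r y, hrl r y hy, hD.2.2.1 r y⟩
  · intro h1
    rw [hM, hch (by rw [← hc]; exact h1), W_map, hd]
    congr 1
    have := Skeleton.deg_pos s
    omega

theorem ofHn {n : ℕ} {x : F K} {d : ℕ} (h : x ∈ Sp K (fun w => w.length = n ∧ wt w = d)) :
    x ∈ Hn K n := fun w hw => (mem_Sp _ x).1 h w (fun h' => hw h'.1)

/-- the step for the commutators -/
theorem good_br (hM : S_MUL K) (A B : Br) (hA : Good K A) (hB : Good K B) (t : Br)
    (hMt : M K t = br K (M K A) (M K B)) (hsk : (sk t).deg = (sk A).deg + (sk B).deg)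
    (hd : t.deg = A.deg + B.deg) (hc : t.cherries ≠ 1) : Good K t := by
  obtain ⟨⟨d, hd1, hd2⟩, ⟨x, hx, hx0⟩, hrlA, _⟩ := hA
  obtain ⟨⟨e, he1, he2⟩, ⟨y, hy, hy0⟩, hrlB, _⟩ := hB
  refine ⟨⟨d + e, by rw [hsk, hd]; omega, ?_⟩, ?_, ?_, fun h => absurd h hc⟩
  · intro z hz
    rw [hMt] at hz
    unfold br at hz
    induction hz using Submodule.span_induction with
    | mem z hz =>
      obtain ⟨x, hx, y, hy, rfl⟩ := hz
      refine Submodule.sub_mem _ (Sp_mono ?_ (mul_Sp (hd2 x hx) (he2 y hy)))
        (Sp_mono ?_ (mul_Sp (he2 y hy) (hd2 x hx)))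
      · rintro w ⟨u, v, hu, hv, rfl⟩
        refine ⟨?_, ?_⟩
        · rw [List.length_append, hu.1, hv.1, hsk]
        · have h1 := hu.2
          have h2 := hv.2
          unfold wt at h1 h2 ⊢
          rw [List.map_append, List.sum_append, h1, h2]
      · rintro w ⟨u, v, hu, hv, rfl⟩
        refine ⟨?_, ?_⟩
        · rw [List.length_append, hu.1, hv.1, hsk, add_comm]
        · have h1 := hu.2
          have h2 := hv.2
          unfold wt at h1 h2 ⊢
          rw [List.map_append, List.sum_append, h1, h2, add_comm]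
    | zero => exact Submodule.zero_mem _
    | add a b _ _ iha ihb => exact Submodule.add_mem _ iha ihb
    | smul c a _ iha => exact Submodule.smul_mem _ _ iha
  · set x' := rel K (fun i => 2 * i) x with hx'
    set y' := rel K (fun i => 2 * i + 1) y with hy'
    have hx'm : x' ∈ M K A := hrlA _ x hx
    have hy'm : y' ∈ M K B := hrlB _ y hy
    have hx'0 : x' ≠ 0 := rel_ne (fun a b h => by simpa using h) hx0
    have hy'0 : y' ≠ 0 := rel_ne (fun a b h => by simpa using h) hy0
    have hx's := rel_Sp (fun i => 2 * i) (hd2 x hx)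
    have hy's := rel_Sp (fun i => 2 * i + 1) (he2 y hy)
    obtain ⟨w1, hw1⟩ := exists_cf hx'0
    obtain ⟨w2, hw2⟩ := exists_cf hy'0
    have hw1P : ∃ u, (u.length = (sk A).deg ∧ wt u = d) ∧ w1 = rw' (fun i => 2 * i) u := by
      by_contra h
      exact hw1 ((mem_Sp _ x').1 hx's w1 h)
    obtain ⟨u, ⟨hu1, hu2⟩, hu3⟩ := hw1P
    have hw1l : w1.length = (sk A).deg := by
      rw [hu3]
      unfold rw'
      rw [List.length_map, hu1]
    refine ⟨x' * y' - y' * x', ?_, ?_⟩
    · rw [hMt]
      exact Submodule.subset_span ⟨x', hx'm, y', hy'm, rfl⟩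
    · intro h0
      have h1 : cf (x' * y' - y' * x') (w1 ++ w2) = 0 := by rw [h0]; exact cf_zero _
      rw [cf_sub, hM (sk A).deg x' y' (ofHn (hd2 x' hx'm)) _ (by
        rw [List.length_append, hw1l]; omega), List.take_left' hw1l, List.drop_left' hw1l] at h1
      have hw2l : w2.length = (sk B).deg := by
        by_contra hn
        exact hw2 (ofHn (he2 y' hy'm) w2 hn)
      rw [hM (sk B).deg y' x' (ofHn (he2 y' hy'm)) _ (by
        rw [List.length_append, hw2l]; omega)] at h1
      have h2 : cf y' ((w1 ++ w2).take (sk B).deg) = 0 := by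
        refine (mem_Sp _ y').1 hy's _ ?_
        rintro ⟨v, _, hv⟩
        have hA1 := Skeleton.deg_pos (sk A)
        have hB1 := Skeleton.deg_pos (sk B)
        rcases u with _ | ⟨a, u⟩
        · simp at hu1
          omega
        · obtain ⟨q, hq⟩ : ∃ q, (sk B).deg = q + 1 := ⟨(sk B).deg - 1, by omega⟩
          rw [hu3, hq] at hv
          rcases v with _ | ⟨b, v⟩
          · simp [rw'] at hv
          · simp [rw'] at hv
            have := hv.1.1
            omega
      rw [h2, zero_mul, sub_zero] at h1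
      rcases mul_eq_zero.1 h1 with h | h
      · exact hw1 h
      · exact hw2 h
  · intro r z hz
    rw [hMt] at hz ⊢
    unfold br at hz
    induction hz using Submodule.span_induction with
    | mem z hz =>
      obtain ⟨x, hx, y, hy, rfl⟩ := hz
      rw [map_sub, map_mul, map_mul]
      exact Submodule.subset_span ⟨_, hrlA r x hx, _, hrlB r y hy, rfl⟩
    | zero => rw [map_zero]; exact Submodule.zero_mem _
    | add a b _ _ iha ihb => rw [map_add]; exact Submodule.add_mem _ iha ihb
    | smul c a _ iha => rw [map_smul]; exact Submodule.smul_mem _ _ iha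

theorem good' (hM : S_MUL K) (hD : S_DL K) (hL : S_LD K) : ∀ s : Br, s ≠ leaf → Good K s := by
  intro s
  induction s with
  | leaf => intro h; exact absurd rfl h
  | node l r ihl ihr =>
    intro _
    cases l with
    | leaf =>
      cases r with
      | leaf =>
        refine ⟨⟨1, rfl, ?_⟩, ⟨wd K [(0, 1)], ?_, wd_ne _⟩, ?_, fun _ => ?_⟩
        · intro x hx
          rw [M] at hx
          unfold W at hx
          refine Submodule.span_mono ?_ hx
          rintro z ⟨i, rfl⟩
          exact ⟨[(i, 1)], ⟨rfl, rfl⟩, rfl⟩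
        · rw [M]
          exact Submodule.subset_span ⟨0, rfl⟩
        · rw [M]
          exact W_rel 1
        · rw [M]
          rfl
      | node c d =>
        refine good_dl hD hL (node c d) _ (ihr (by simp)) (by rw [M]) rfl ?_ ?_
        · show 1 + (node c d).deg = _
          omega
        · show 0 + (node c d).cherries = _
          omega
    | node a b =>
      cases r with
      | leaf =>
        refine good_dl hD hL (node a b) _ (ihl (by simp)) (by rw [M]) rfl ?_ ?_
        · show (node a b).deg + 1 = _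
          rfl
        · show (node a b).cherries + 0 = _
          rfl
      | node c d =>
        refine good_br hM (node a b) (node c d) (ihl (by simp)) (ihr (by simp)) _
          (by rw [M]) rfl rfl ?_
        show (node a b).cherries + (node c d).cherries ≠ 1
        have h1 := cherries_pos a b
        have h2 := cherries_pos c d
        omega

theorem good (hM : S_MUL K) (hD : S_DL K) (hL : S_LD K) (a b : Br) : Good K (node a b) :=
  good' hM hD hL _ (by simp)

end BAS

open BAS

theorem BAS (K : Type u) [Field K] (hM : S_MUL K) (hD : S_DL K) (hL : S_LD K) : S_BAS K := by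
  intro s hs
  cases s with
  | leaf => exact absurd rfl hs
  | node a b =>
    obtain ⟨⟨d, hd1, hd2⟩, hnz, hrl, hch⟩ := good hM hD hL a b
    refine ⟨fun x hx => ofHn (hd2 x hx), hnz, hrl, ?_, hch⟩
    intro x hx w hw
    refine (mem_Sp _ x).1 (hd2 x hx) w fun h => hw ?_
    rw [h.2, hd1]

end Pool.Agent.R325.BH
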