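import Pool.Agent.R325.BH.Defs

set_option linter.all false
universe u
namespace Pool.Agent.R325.BH

open Pool.Agent.Results.MP_5ecbac_al
open ThreeCherries ThreeCherries.Br Skeleton

attribute [local instance 100] LieRing.ofAssociativeRing

variable (K : Type u) [Field K]

/-! Statements (exact). -/

/-- V: equivalent identities have equal verbal subspaces -/
def S_VEQ : Prop := ∀ (s t : Br), EquivId K s t → ∀ (A : Type u) [LieRing A] [LieAlgebra K A],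
  V K A s = V K A t

/-- product coefficients -/
def S_MUL : Prop := ∀ (p : ℕ) (x y : F K), x ∈ Hn K p → ∀ w : Wd, p ≤ w.length →
  cf (x * y) w = cf x (w.take p) * cf y (w.drop p)

/-- derivation: Leibniz, coefficients, commutes with relabelling -/
def S_DL : Prop := (∀ x y : F K, dl K (x * y) = dl K x * y + x * dl K y) ∧
  (∀ (x : F K) (w : Wd), cf (dl K x) w = ∑ k ∈ Finset.range w.length,
    if 1 ≤ (w.getD k (0, 0)).2 then cf x (dnW k w) else 0) ∧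
  (∀ (r : ℕ → ℕ) (x : F K), dl K (rel K r x) = rel K r (dl K x)) ∧
  (∀ (n : ℕ) (x : F K), x ∈ Hn K n → dl K x ∈ Hn K n)

/-- basic facts on the marked spaces -/
def S_BAS : Prop := ∀ s : Br, s ≠ leaf →
  M K s ≤ Hn K (sk s).deg ∧
  (∃ x ∈ M K s, x ≠ 0) ∧
  (∀ (r : ℕ → ℕ), ∀ x ∈ M K s, rel K r x ∈ M K s) ∧
  (∀ x ∈ M K s, ∀ w : Wd, wt w + (sk s).deg ≠ s.deg → cf x w = 0) ∧
  (s.cherries = 1 → M K s = W K (s.deg - 1))

/-- equivalent identities have equal marked spaces -/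
def S_MEQ : Prop := ∀ (s t : Br), s ≠ leaf → t ≠ leaf → EquivId K s t → M K s = M K t

/-- symmetry of the marked spaces -/
def S_SYM : Prop := ∀ A B : Br, M K (node A B) = M K (node B A)

/-- two different values of the weight of the first `p` letters -/
def S_LD : Prop := (∀ (p n : ℕ) (x : F K), 1 ≤ p → p < n → x ∈ Hn K n → x ≠ 0 →
    ∃ w1 w2 : Wd, cf (dl K x) w1 ≠ 0 ∧ cf (dl K x) w2 ≠ 0 ∧
      wt (w1.take p) ≠ wt (w2.take p)) ∧
  (∀ (n : ℕ) (x : F K), 1 ≤ n → x ∈ Hn K n → dl K x = 0 → x = 0)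

/-- the uniform lemma -/
def S_UNI : Prop := ∀ (β : ℕ) (s : Br), s ≠ leaf →
  ((∃ x ∈ M K s, x ≠ 0 ∧ x ∈ Eb K β) → Unif β s) ∧ (Unif β s → M K s ≤ Eb K β)

/-- the key step of the uniform lemma -/
def S_KEY : Prop := ∀ (β p q : ℕ) (P Q : Submodule K (F K)), 1 ≤ q → q ≤ p →
  P ≤ Hn K p → Q ≤ Hn K q → ∀ y ∈ br K P Q, y ≠ 0 → y ∈ Eb K β →
  (∃ x ∈ Q, x ≠ 0 ∧ x ∈ Eb K β) ∧ (Q ≤ Eb K β → ∃ x ∈ P, x ≠ 0 ∧ x ∈ Eb K β)

/-- cancellation of a one-cherry tree -/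
def S_CAN : Prop := ∀ (β p : ℕ) (P R : Submodule K (F K)), 1 ≤ p →
  P ≤ Hn K p → R ≤ Hn K p → (∀ (r : ℕ → ℕ), ∀ x ∈ P, rel K r x ∈ P) →
  (∀ x ∈ P, x ∈ Eb K β → x = 0) → br K R (W K β) ≤ br K P (W K β) → R ≤ P

/-- all first exponents equal -/
def S_FST : Prop := ∀ (γ : ℕ) (s : Br), s ≠ leaf →
  (∀ x ∈ M K s, ∀ (a : ℕ × ℕ) (w : Wd), a.2 ≠ γ → cf x (a :: w) = 0) → M K s ≤ Eb K γ

/-- words of `P` start with exponent `γ` -/
def S_RT : Prop := ∀ (β γ p : ℕ) (P R : Submodule K (F K)), 1 ≤ p → β ≠ γ →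
  P ≤ Hn K p → R ≤ Hn K p → br K P (W K β) ≤ br K R (W K γ) →
  ∀ x ∈ P, ∀ (a : ℕ × ℕ) (w : Wd), a.2 ≠ γ → cf x (a :: w) = 0

/-- commutator spaces are not in the image of the derivation -/
def S_IM : Prop := ∀ (p q : ℕ) (P Q : Submodule K (F K)) (dp : ℕ), 1 ≤ p → 1 ≤ q →
  P ≤ Hn K p → Q ≤ Hn K q → (∀ (r : ℕ → ℕ), ∀ x ∈ P, rel K r x ∈ P) →
  (∀ (r : ℕ → ℕ), ∀ x ∈ Q, rel K r x ∈ Q) → (∃ x ∈ P, x ≠ 0) → (∃ x ∈ Q, x ≠ 0) →
  (∀ x ∈ P, ∀ w : Wd, wt w ≠ dp → cf x w = 0) →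
  ∀ N : Submodule K (F K), N ≤ Hn K (p + q) → br K P Q ≠ N.map (dl K)

/-- the class of bracket structures that are handled at the marked level -/
inductive Cls : Br → Prop
  | dbl (κ : Br) : Cls (dbl κ)
  | pend {A : Br} : Cls A → A ≠ leaf → Cls (node A leaf)
  | cat {A B : Br} : Cls A → A ≠ leaf → B.cherries = 1 → Cls (node A B)
  | comm {A B : Br} : Cls (node A B) → Cls (node B A)

/-- assembly on the level of trees -/
def S_TREE : Prop := ∀ s : Br, Cls s → s ≠ leaf → ∀ t : Br, t ≠ leaf → s.deg = t.deg →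
  CEq (sk s) (sk t) → M K s = M K t → CEq s t

end Pool.Agent.R325.BH
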