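import Pool.Agent.R325.BH.Base

set_option linter.all false
universe u
namespace Pool.Agent.R325.BH

open Pool.Agent.Results.MP_5ecbac_al
open ThreeCherries ThreeCherries.Br Skeleton

attribute [local instance 100] LieRing.ofAssociativeRing

variable (K : Type u) [Field K]

/-- slope lemma: a constant prefix weight is proportional to the length -/
def S_SLP : Prop := ∀ (s : Br), s ≠ leaf → ∀ q γ : ℕ, 1 ≤ q → q < (sk s).deg →
  (∀ x ∈ M K s, ∀ w : Wd, wt (w.take q) ≠ γ → cf x w = 0) →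
  γ * (sk s).deg = q * (s.deg - (sk s).deg)

/-- the properties of marked spaces used in the root lemmas: length `n`, weight `d` -/
structure Mk (P : Submodule K (F K)) (n d : ℕ) : Prop where
  hn : P ≤ Hn K n
  hr : ∀ (r : ℕ → ℕ), ∀ x ∈ P, rel K r x ∈ P
  hw : ∀ x ∈ P, ∀ w : Wd, wt w ≠ d → cf x w = 0
  h0 : ∃ x ∈ P, x ≠ 0

/-- root lemma, different lengths, different slopes -/
def S_ROOT : Prop := ∀ (p q dP dQ dR dS : ℕ) (P Q R S : Submodule K (F K)),
  1 ≤ q → q < p → Mk K P p dP → Mk K Q q dQ → Mk K R p dR → Mk K S q dS →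
  (∀ γ : ℕ, (∀ x ∈ P, ∀ w : Wd, wt (w.take q) ≠ γ → cf x w = 0) → γ * p = q * dP) →
  (∀ γ : ℕ, (∀ x ∈ R, ∀ w : Wd, wt (w.take q) ≠ γ → cf x w = 0) → γ * p = q * dR) →
  br K P Q = br K R S → dP + dQ = dR + dS → dP * q ≠ dQ * p → P = R ∧ Q = S

/-- root lemma, equal lengths, different weights -/
def S_ROQ : Prop := ∀ (p dP dQ dR dS : ℕ) (P Q R S : Submodule K (F K)),
  1 ≤ p → Mk K P p dP → Mk K Q p dQ → Mk K R p dR → Mk K S p dS →
  br K P Q = br K R S → dP + dQ = dR + dS → dP ≠ dQ → (P = R ∧ Q = S) ∨ (P = S ∧ Q = R)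

end Pool.Agent.R325.BH
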