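import Pool.Agent.R325.BH.Base2

set_option linter.all false
universe u
namespace Pool.Agent.R325.BH

open Pool.Agent.Results.MP_5ecbac_al
open ThreeCherries ThreeCherries.Br Skeleton

attribute [local instance 100] LieRing.ofAssociativeRing

variable (K : Type u) [Field K]

/-- closed under restriction to words with labels in `L` -/
def Kil (P : Submodule K (F K)) : Prop := ∀ (L : ℕ → Prop), ∀ x ∈ P, ∃ y ∈ P,
  (∀ w : Wd, (∀ a ∈ w, L a.1) → cf y w = cf x w) ∧ (∀ w : Wd, (∃ a ∈ w, ¬ L a.1) → cf y w = 0)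

/-- marked spaces are closed under restriction to a set of labels -/
def S_KIL : Prop := ∀ s : Br, s ≠ leaf → Kil K (M K s)

/-- pairs of subspaces -/
def S_PAIR : Prop := ∀ (p dP dQ dR dS : ℕ) (P Q R S : Submodule K (F K)),
  1 ≤ p → Mk K P p dP → Mk K Q p dQ → Mk K R p dR → Mk K S p dS →
  Kil K P → Kil K Q → Kil K R → Kil K S →
  br K P Q = br K R S → (P = R ∧ Q = S) ∨ (P = S ∧ Q = R)

end Pool.Agent.R325.BH
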