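import Pool.Agent.R325.BH.Base

set_option linter.all false
universe u
namespace Pool.Agent.R325.BH

open Pool.Agent.Results.MP_5ecbac_al
open ThreeCherries ThreeCherries.Br Skeleton

attribute [local instance 100] LieRing.ofAssociativeRing

namespace MEQaux

variable {K : Type u} [Field K]

lemma cf_add (x y : F K) (w : Wd) : cf (x + y) w = cf x w + cf y w := by
  simp only [cf, MonoidAlgebra.coeff_add, Finsupp.add_apply]

lemma cf_smul (c : K) (x : F K) (w : Wd) : cf (c • x) w = c * cf x w := by
  simp only [cf, MonoidAlgebra.coeff_smul, Finsupp.smul_apply, smul_eq_mul]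

lemma cf_zero (w : Wd) : cf (0 : F K) w = 0 := by simp [cf]

lemma cf_neg (x : F K) (w : Wd) : cf (-x) w = -cf x w := by
  have h := cf_add x (-x) w
  rw [add_neg_cancel, cf_zero] at h
  linear_combination -h

lemma cf_sub (x y : F K) (w : Wd) : cf (x - y) w = cf x w - cf y w := by
  rw [sub_eq_add_neg, cf_add, cf_neg, sub_eq_add_neg]

lemma cf_wd (v w : Wd) : cf (wd K v) w = if v = w then 1 else 0 := by
  classical
  simp only [cf, wd, MonoidAlgebra.coeff_single, Finsupp.single_apply,
    EmbeddingLike.apply_eq_iff_eq]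

lemma cf_ext {x y : F K} (h : ∀ w, cf x w = cf y w) : x = y := by
  apply MonoidAlgebra.coeff_injective
  ext w
  exact h w.toList

/-- elements supported on `P` -/
def Su (P : Wd → Prop) : Submodule K (F K) where
  carrier := {x | ∀ w, cf x w ≠ 0 → P w}
  add_mem' {a b} ha hb w h := by
    by_cases h1 : cf a w = 0
    · apply hb w
      intro h2
      exact h (by rw [cf_add, h1, h2, add_zero])
    · exact ha w h1
  zero_mem' w h := absurd (cf_zero w) h
  smul_mem' c a ha w h := by
    apply ha w
    intro h2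
    exact h (by rw [cf_smul, h2, mul_zero])

lemma mem_Su {P : Wd → Prop} {x : F K} : x ∈ Su (K := K) P ↔ ∀ w, cf x w ≠ 0 → P w := Iff.rfl

lemma Su_mono {P Q : Wd → Prop} (h : ∀ w, P w → Q w) : Su (K := K) P ≤ Su Q :=
  fun x hx w hw => h w (hx w hw)

lemma mul_ne (x y : F K) (w : Wd) (h : cf (x * y) w ≠ 0) :
    ∃ w1 w2, w = w1 ++ w2 ∧ cf x w1 ≠ 0 ∧ cf y w2 ≠ 0 := by
  classical
  have h1 : FreeMonoid.ofList w ∈ (x * y).coeff.support := Finsupp.mem_support_iff.2 h
  have h2 := MonoidAlgebra.support_coeff_mul_subset x y h1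
  obtain ⟨a, ha, b, hb, hab⟩ := Finset.mem_mul.1 h2
  refine ⟨a.toList, b.toList, ?_, ?_, ?_⟩
  · rw [← FreeMonoid.toList_mul, hab, FreeMonoid.toList_ofList]
  · exact Finsupp.mem_support_iff.1 ha
  · exact Finsupp.mem_support_iff.1 hb

lemma mul_Su {P Q R : Wd → Prop} (h : ∀ w1 w2, P w1 → Q w2 → R (w1 ++ w2)) {x y : F K}
    (hx : x ∈ Su (K := K) P) (hy : y ∈ Su (K := K) Q) : x * y ∈ Su (K := K) R := by
  intro w hw
  obtain ⟨w1, w2, rfl, h1, h2⟩ := mul_ne x y w hw
  exact h w1 w2 (hx w1 h1) (hy w2 h2)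

lemma exists_const (x : F K) : ∃ c : K, x - algebraMap K (F K) c ∈ Su (K := K) (fun w => 1 ≤ w.length) := by
  refine ⟨cf x [], fun w hw => ?_⟩
  by_contra h
  have hw0 : w = [] := List.length_eq_zero_iff.1 (by omega)
  apply hw
  subst hw0
  rw [cf_sub, Algebra.algebraMap_eq_smul_one, cf_smul]
  have : cf (1 : F K) [] = 1 := MonoidAlgebra.coeff_one_one
  rw [this, mul_one, sub_self]

lemma comm_Su (x y : F K) (n : ℕ) (hy : y ∈ Su (K := K) (fun w => n ≤ w.length)) :
    x * y - y * x ∈ Su (K := K) (fun w => n < w.length) := by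
  obtain ⟨c, hc⟩ := exists_const x
  have e : x * y - y * x = (x - algebraMap K (F K) c) * y - y * (x - algebraMap K (F K) c) := by
    have := Algebra.commutes (R := K) c y
    rw [sub_mul, mul_sub, this]
    abel
  rw [e]
  apply sub_mem
  · exact mul_Su (fun w1 w2 h1 h2 => by rw [List.length_append]; omega) hc hy
  · exact mul_Su (fun w1 w2 h1 h2 => by rw [List.length_append]; omega) hy hc

lemma comm_Su' (x y : F K) : x * y - y * x ∈ Su (K := K) (fun w => 1 < w.length) := by
  obtain ⟨c, hc⟩ := exists_const y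
  have e : x * y - y * x = x * (y - algebraMap K (F K) c) - (y - algebraMap K (F K) c) * x := by
    have := Algebra.commutes (R := K) c x
    rw [sub_mul, mul_sub, this]
    abel
  rw [e]
  exact comm_Su x _ 1 hc

/-- the words above degree `(ν, d)` -/
def Gp (ν d : ℕ) (w : Wd) : Prop := ν < w.length ∨ (w.length = ν ∧ d < wt w + ν)

/-- the words above or in degree `(ν, d)` -/
def Ge (ν d : ℕ) (w : Wd) : Prop := ν < w.length ∨ (w.length = ν ∧ d ≤ wt w + ν)

lemma wt_append (a b : Wd) : wt (a ++ b) = wt a + wt b := by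
  simp [wt]

lemma Gp_Ge {ν d : ℕ} {w : Wd} (h : Gp ν d w) : Ge ν d w := by
  rcases h with h | ⟨h, h'⟩
  · exact Or.inl h
  · exact Or.inr ⟨h, h'.le⟩

lemma Gp_l (ν ν' d d' : ℕ) (a b : Wd) (ha : Gp ν d a) (hb : Ge ν' d' b) :
    Gp (ν + ν') (d + d') (a ++ b) := by
  unfold Gp Ge at *
  rw [List.length_append, wt_append]
  omega

lemma Gp_r (ν ν' d d' : ℕ) (a b : Wd) (ha : Ge ν d a) (hb : Gp ν' d' b) :
    Gp (ν + ν') (d + d') (a ++ b) := by
  unfold Gp Ge at *
  rw [List.length_append, wt_append]
  omega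

lemma comm_Gp (ν ν' d d' : ℕ) {x y : F K} (hx : x ∈ Su (K := K) (Gp ν d))
    (hy : y ∈ Su (K := K) (Ge ν' d')) : x * y - y * x ∈ Su (K := K) (Gp (ν + ν') (d + d')) := by
  apply sub_mem
  · exact mul_Su (fun w1 w2 h1 h2 => Gp_l _ _ _ _ _ _ h1 h2) hx hy
  · exact mul_Su (fun w1 w2 h1 h2 => by
      rw [add_comm ν, add_comm d]
      exact Gp_r _ _ _ _ _ _ h1 h2) hy hx

lemma comm_Gp' (ν ν' d d' : ℕ) {x y : F K} (hx : x ∈ Su (K := K) (Ge ν d))
    (hy : y ∈ Su (K := K) (Gp ν' d')) : x * y - y * x ∈ Su (K := K) (Gp (ν + ν') (d + d')) := by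
  have h := comm_Gp (K := K) ν' ν d' d hy hx
  rw [add_comm ν, add_comm d]
  have e : x * y - y * x = -(y * x - x * y) := by abel
  rw [e]
  exact neg_mem h

lemma dn_length (k : ℕ) (w : Wd) : (dnW k w).length = w.length := by
  simp [dnW]

lemma wt_dn : ∀ (w : Wd) (k : ℕ), k < w.length → 1 ≤ (w.getD k (0, 0)).2 →
    wt (dnW k w) + 1 = wt w
  | [], k, hk, _ => absurd hk (by simp)
  | a :: w, 0, _, h => by
    simp only [dnW, wt, List.modify_zero_cons, List.map_cons, List.sum_cons]
    simp only [List.getD_cons_zero] at h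
    omega
  | a :: w, k + 1, hk, h => by
    have ih := wt_dn w k (by simpa using hk) (by simpa using h)
    simp only [dnW, wt, List.modify_succ_cons, List.map_cons, List.sum_cons] at ih ⊢
    omega

lemma dl_Gp (hD : S_DL K) (ν d : ℕ) {x : F K} (hx : x ∈ Su (K := K) (Gp ν d)) :
    dl K x ∈ Su (K := K) (Gp ν (d + 1)) := by
  intro w hw
  rw [hD.2.1] at hw
  obtain ⟨k, hk, h⟩ := Finset.exists_ne_zero_of_sum_ne_zero hw
  split_ifs at h with h1
  · have h2 := hx _ h
    have h3 := wt_dn w k (Finset.mem_range.1 hk) h1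
    unfold Gp at *
    rw [dn_length] at h2
    omega
  · exact absurd rfl h

lemma dl_wd1 (hD : S_DL K) (i m : ℕ) : dl K (wd K [(i, m)]) = wd K [(i, m + 1)] := by
  apply cf_ext
  intro w
  rw [hD.2.1, cf_wd]
  by_cases hw : w.length = 1
  · obtain ⟨a, rfl⟩ := List.length_eq_one_iff.1 hw
    obtain ⟨j, n⟩ := a
    simp only [List.length_singleton, Finset.range_one, Finset.sum_singleton,
      List.getD_cons_zero, cf_wd, dnW, List.modify_zero_cons, List.cons.injEq, Prod.mk.injEq,
      and_true]
    by_cases h : 1 ≤ n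
    · rw [if_pos h]
      congr 1
      apply propext
      constructor
      · rintro ⟨rfl, rfl⟩; exact ⟨rfl, by omega⟩
      · rintro ⟨rfl, rfl⟩; exact ⟨rfl, by omega⟩
    · rw [if_neg h, if_neg]
      rintro ⟨-, h'⟩
      omega
  · rw [if_neg (fun h => hw (by rw [← h]; rfl))]
    apply Finset.sum_eq_zero
    intro k _
    split_ifs
    · rw [cf_wd, if_neg]
      intro h
      apply hw
      rw [← dn_length k w, ← h]
      rfl
    · rfl

/-- every element is a combination of words -/
lemma top_le_span : (⊤ : Submodule K (F K)) ≤ Submodule.span K (Set.range (wd K)) := by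
  intro x _
  induction x using MonoidAlgebra.induction_linear with
  | zero => exact zero_mem _
  | add f g hf hg => exact add_mem (hf trivial) (hg trivial)
  | single m r =>
    have e : (MonoidAlgebra.single m r : F K) = r • wd K m.toList := by
      rw [wd, FreeMonoid.ofList_toList, MonoidAlgebra.smul_single, smul_eq_mul, mul_one]
    rw [e]
    exact Submodule.smul_mem _ _ (Submodule.subset_span ⟨_, rfl⟩)

lemma dl_leaf (hD : S_DL K) (x : F K) : dl K x ∈ W K 1 ⊔ Su (K := K) (Gp 1 2) := by
  have h : (⊤ : Submodule K (F K)) ≤ (W K 1 ⊔ Su (K := K) (Gp 1 2)).comap (dl K) := by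
    refine top_le_span.trans ?_
    rw [Submodule.span_le]
    rintro _ ⟨w, rfl⟩
    show dl K (wd K w) ∈ W K 1 ⊔ Su (K := K) (Gp 1 2)
    by_cases hw : w.length = 1
    · obtain ⟨⟨i, m⟩, rfl⟩ := List.length_eq_one_iff.1 hw
      rw [dl_wd1 hD]
      by_cases hm : m = 0
      · subst hm
        exact Submodule.mem_sup_left (Submodule.subset_span ⟨i, rfl⟩)
      · apply Submodule.mem_sup_right
        intro v hv
        rw [cf_wd] at hv
        split_ifs at hv with h1
        · subst h1
          right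
          simp only [List.length_singleton, wt, List.map_cons, List.map_nil, List.sum_cons,
            List.sum_nil, true_and]
          omega
        · exact absurd rfl hv
    · apply Submodule.mem_sup_right
      intro v hv
      rw [hD.2.1] at hv
      obtain ⟨k, hk, h⟩ := Finset.exists_ne_zero_of_sum_ne_zero hv
      split_ifs at h with h1
      · rw [cf_wd] at h
        split_ifs at h with h2
        · have h3 : v.length = w.length := by rw [h2, dn_length]
          have h4 := Finset.mem_range.1 hk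
          left
          omega
        · exact absurd rfl h
      · exact absurd rfl h
  exact h trivial

/-- the derivation -/
noncomputable def der (hD : S_DL K) : Der K (F K) where
  f := dl K
  h x y := by
    simp only [Ring.lie_def, map_sub, hD.1]
    abel

lemma M_Ge (hB : S_BAS K) {s : Br} (hs : s ≠ leaf) : M K s ≤ Su (K := K) (Ge (sk s).deg s.deg) := by
  intro x hx w hw
  obtain ⟨h1, -, -, h2, -⟩ := hB s hs
  right
  constructor
  · by_contra h
    exact hw (h1 hx w h)
  · by_contra h
    exact hw (h2 x hx w (by omega))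

lemma Ge_len {ν d : ℕ} : Su (K := K) (Ge ν d) ≤ Su (K := K) (fun w => ν ≤ w.length) :=
  Su_mono (fun w h => by unfold Ge at h; omega)

lemma len_Gp {ν d : ℕ} : Su (K := K) (fun w => ν < w.length) ≤ Su (K := K) (Gp ν d) :=
  Su_mono (fun w h => Or.inl h)

/-- the property of claim (i) -/
def C1 (hD : S_DL K) (s : Br) (z : E (der hD)) : Prop :=
  z.1 = 0 ∧ z.2 ∈ M K s ⊔ Su (K := K) (Gp (sk s).deg s.deg)

lemma C1_span (hD : S_DL K) (l r : Br)
    (h : ∀ x ∈ V K (E (der hD)) l, ∀ y ∈ V K (E (der hD)) r, C1 hD (node l r) ⁅x, y⁆) :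
    ∀ z ∈ V K (E (der hD)) (node l r), C1 hD (node l r) z := by
  intro z hz
  rw [V] at hz
  induction hz using Submodule.span_induction with
  | mem z hz =>
    obtain ⟨x, hx, y, hy, rfl⟩ := hz
    exact h x hx y hy
  | zero => exact ⟨rfl, zero_mem _⟩
  | add a b _ _ ha hb =>
    exact ⟨by rw [add1, ha.1, hb.1, add_zero], by rw [add2]; exact add_mem ha.2 hb.2⟩
  | smul c a _ ha =>
    exact ⟨by rw [smul1, ha.1, mul_zero], by rw [smul2]; exact Submodule.smul_mem _ _ ha.2⟩

lemma part_len (hB : S_BAS K) {s : Br} (hs : s ≠ leaf) {y : F K}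
    (hy : y ∈ M K s ⊔ Su (K := K) (Gp (sk s).deg s.deg)) : y ∈ Su (K := K) (Ge (sk s).deg s.deg) := by
  have : M K s ⊔ Su (K := K) (Gp (sk s).deg s.deg) ≤ Su (K := K) (Ge (sk s).deg s.deg) :=
    sup_le (M_Ge hB hs) (Su_mono (fun w h => Gp_Ge h))
  exact this hy

lemma dl_part (hD : S_DL K) {s : Br} {y : F K}
    (hy : y ∈ M K s ⊔ Su (K := K) (Gp (sk s).deg s.deg)) :
    dl K y ∈ (M K s).map (dl K) ⊔ Su (K := K) (Gp (sk s).deg (s.deg + 1)) := by
  obtain ⟨m, hm, g, hg, rfl⟩ := Submodule.mem_sup.1 hy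
  rw [map_add]
  exact add_mem (Submodule.mem_sup_left (Submodule.mem_map_of_mem hm))
    (Submodule.mem_sup_right (dl_Gp hD _ _ hg))

lemma claim1 (hD : S_DL K) (hB : S_BAS K) : ∀ s : Br, s ≠ leaf → ∀ z ∈ V K (E (der hD)) s, C1 hD s z
  | leaf, h => absurd rfl h
  | node leaf leaf, _ => by
    apply C1_span
    intro x _ y _
    refine ⟨rfl, ?_⟩
    rw [br2, Ring.lie_def]
    have e1 : M K (node leaf leaf) = W K 1 := rfl
    have e2 : (sk (node leaf leaf)).deg = 1 := rfl
    have e3 : (node leaf leaf).deg = 2 := rfl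
    rw [e1, e2, e3]
    apply sub_mem
    · apply add_mem
      · exact Submodule.mem_sup_right (len_Gp (comm_Su' x.2 y.2))
      · exact Submodule.smul_mem _ _ (dl_leaf hD y.2)
    · exact Submodule.smul_mem _ _ (dl_leaf hD x.2)
  | node leaf (node a b), _ => by
    have ih := claim1 hD hB (node a b) (by simp)
    apply C1_span
    intro x _ y hy
    obtain ⟨h1, h2⟩ := ih y hy
    refine ⟨rfl, ?_⟩
    rw [br2, Ring.lie_def, h1, zero_smul, sub_zero]
    have e1 : M K (node leaf (node a b)) = (M K (node a b)).map (dl K) := rfl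
    have e2 : (sk (node leaf (node a b))).deg = (sk (node a b)).deg := rfl
    have e3 : (node leaf (node a b)).deg = (node a b).deg + 1 := by
      rw [deg, add_comm]; rfl
    rw [e1, e2, e3]
    apply add_mem
    · exact Submodule.mem_sup_right (len_Gp (comm_Su x.2 y.2 _ (Ge_len (part_len hB (by simp) h2))))
    · exact Submodule.smul_mem _ _ (dl_part hD h2)
  | node (node a b) leaf, _ => by
    have ih := claim1 hD hB (node a b) (by simp)
    apply C1_span
    intro y hy x _
    obtain ⟨h1, h2⟩ := ih y hy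
    refine ⟨rfl, ?_⟩
    rw [br2, Ring.lie_def, h1, zero_smul, add_zero]
    have e1 : M K (node (node a b) leaf) = (M K (node a b)).map (dl K) := rfl
    have e2 : (sk (node (node a b) leaf)).deg = (sk (node a b)).deg := rfl
    have e3 : (node (node a b) leaf).deg = (node a b).deg + 1 := rfl
    rw [e1, e2, e3]
    apply sub_mem
    · have e : y.2 * x.2 - x.2 * y.2 = -(x.2 * y.2 - y.2 * x.2) := by abel
      rw [e]
      exact neg_mem (Submodule.mem_sup_right
        (len_Gp (comm_Su x.2 y.2 _ (Ge_len (part_len hB (by simp) h2)))))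
    · exact Submodule.smul_mem _ _ (dl_part hD h2)
  | node (node a b) (node c d), _ => by
    have ih1 := claim1 hD hB (node a b) (by simp)
    have ih2 := claim1 hD hB (node c d) (by simp)
    apply C1_span
    intro x hx y hy
    obtain ⟨h1, h2⟩ := ih1 x hx
    obtain ⟨h3, h4⟩ := ih2 y hy
    refine ⟨rfl, ?_⟩
    rw [br2, Ring.lie_def, h1, h3, zero_smul, zero_smul, add_zero, sub_zero]
    have e1 : M K (node (node a b) (node c d)) = br K (M K (node a b)) (M K (node c d)) := rfl
    have e2 : (sk (node (node a b) (node c d))).deg =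
        (sk (node a b)).deg + (sk (node c d)).deg := rfl
    have e3 : (node (node a b) (node c d)).deg = (node a b).deg + (node c d).deg := rfl
    rw [e1, e2, e3]
    obtain ⟨m, hm, g, hg, hx2⟩ := Submodule.mem_sup.1 h2
    obtain ⟨m', hm', g', hg', hy2⟩ := Submodule.mem_sup.1 h4
    have h5 := part_len hB (by simp) h4
    have e : x.2 * y.2 - y.2 * x.2 = (m * m' - m' * m) + ((g * y.2 - y.2 * g) +
        (m * g' - g' * m)) := by
      rw [← hx2, ← hy2]
      noncomm_ring
    rw [e]
    refine add_mem (Submodule.mem_sup_left (Submodule.subset_span ⟨m, hm, m', hm', rfl⟩))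
      (Submodule.mem_sup_right (add_mem ?_ ?_))
    · exact comm_Gp _ _ _ _ hg h5
    · exact comm_Gp' _ _ _ _ (M_Ge hB (by simp) hm) hg'

section two
variable (hD : S_DL K)

lemma en_add (x y : F K) : en (der hD) (x + y) = en (der hD) x + en (der hD) y :=
  E_ext (by rw [add1]; exact (add_zero (0 : K)).symm) rfl

lemma en_smul (c : K) (x : F K) : en (der hD) (c • x) = c • en (der hD) x :=
  E_ext (by rw [smul1]; exact (mul_zero c).symm) rfl

lemma en_zero : en (der hD) (0 : F K) = 0 := rfl

lemma en_neg (x : F K) : en (der hD) (-x) = -en (der hD) x := by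
  rw [← neg_one_smul K x, en_smul, neg_one_smul]

lemma claim2 : ∀ s : Br, s ≠ leaf → ∀ x ∈ M K s, en (der hD) x ∈ V K (E (der hD)) s
  | leaf, h => absurd rfl h
  | node leaf leaf, _ => by
    intro x hx
    have e1 : M K (node leaf leaf) = W K 1 := rfl
    rw [e1, W] at hx
    induction hx using Submodule.span_induction with
    | mem z hz =>
      obtain ⟨i, rfl⟩ := hz
      have e : en (der hD) (wd K [(i, 1)]) = ⁅el (der hD), en (der hD) (wd K [(i, 0)])⁆ := by
        rw [el_en]
        exact congrArg _ (dl_wd1 hD i 0).symm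
      rw [e]
      exact lie_mem_V K Submodule.mem_top Submodule.mem_top
    | zero => rw [en_zero]; exact zero_mem _
    | add a b _ _ ha hb => rw [en_add]; exact add_mem ha hb
    | smul c a _ ha => rw [en_smul]; exact Submodule.smul_mem _ _ ha
  | node leaf (node a b), _ => by
    intro x hx
    have ih := claim2 (node a b) (by simp)
    have e1 : M K (node leaf (node a b)) = (M K (node a b)).map (dl K) := rfl
    rw [e1] at hx
    obtain ⟨y, hy, rfl⟩ := hx
    have e : en (der hD) (dl K y) = ⁅el (der hD), en (der hD) y⁆ := by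
      rw [el_en]; rfl
    rw [e]
    exact lie_mem_V K Submodule.mem_top (ih y hy)
  | node (node a b) leaf, _ => by
    intro x hx
    have ih := claim2 (node a b) (by simp)
    have e1 : M K (node (node a b) leaf) = (M K (node a b)).map (dl K) := rfl
    rw [e1] at hx
    obtain ⟨y, hy, rfl⟩ := hx
    have e : en (der hD) (dl K y) = -⁅en (der hD) y, el (der hD)⁆ := by
      rw [en_el, en_neg, neg_neg]; rfl
    rw [e]
    exact neg_mem (lie_mem_V K (ih y hy) Submodule.mem_top)
  | node (node a b) (node c d), _ => by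
    intro x hx
    have ih1 := claim2 (node a b) (by simp)
    have ih2 := claim2 (node c d) (by simp)
    have e1 : M K (node (node a b) (node c d)) = br K (M K (node a b)) (M K (node c d)) := rfl
    rw [e1, br] at hx
    induction hx using Submodule.span_induction with
    | mem z hz =>
      obtain ⟨p, hp, q, hq, rfl⟩ := hz
      have e : en (der hD) (p * q - q * p) = ⁅en (der hD) p, en (der hD) q⁆ := by
        rw [en_en, Ring.lie_def]
      rw [e]
      exact lie_mem_V K (ih1 p hp) (ih2 q hq)
    | zero => rw [en_zero]; exact zero_mem _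
    | add a b _ _ ha hb => rw [en_add]; exact add_mem ha hb
    | smul c a _ ha => rw [en_smul]; exact Submodule.smul_mem _ _ ha

end two

lemma half (hV : S_VEQ.{u} K) (hD : S_DL K) (hB : S_BAS K) (s t : Br) (hs : s ≠ leaf)
    (ht : t ≠ leaf) (h : EquivId K s t) : M K t ≤ M K s := by
  intro x hx
  have h1 := claim2 hD t ht x hx
  rw [← hV s t h (E (der hD))] at h1
  obtain ⟨-, h2⟩ := claim1 hD hB s hs _ h1
  have e0 : (en (der hD) x).2 = x := rfl
  rw [e0] at h2
  obtain ⟨m, hm, g, hg, hx2⟩ := Submodule.mem_sup.1 h2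
  have hd : s.deg = t.deg := deg_eq K _ _ h
  have hsk : (sk s).deg = (sk t).deg := deg_eq K _ _ (skeleton K s t hs ht h)
  have hg0 : g = 0 := by
    apply cf_ext
    intro w
    rw [cf_zero]
    by_contra hw
    have h3 := hg w hw
    have h4 : cf x w = cf m w + cf g w := by rw [← hx2, cf_add]
    obtain ⟨b1, -, -, b2, -⟩ := hB s hs
    obtain ⟨c1, -, -, c2, -⟩ := hB t ht
    have h5 : cf m w = 0 := by
      rcases h3 with h3 | ⟨h3, h3'⟩
      · exact b1 hm w (by omega)
      · exact b2 m hm w (by omega)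
    have h6 : cf x w = 0 := by
      rcases h3 with h3 | ⟨h3, h3'⟩
      · exact c1 hx w (by omega)
      · exact c2 x hx w (by omega)
    rw [h5, h6, zero_add] at h4
    exact hw h4.symm
  rw [← hx2, hg0, add_zero]
  exact hm

end MEQaux

theorem MEQ (K : Type u) [Field K] (hV : S_VEQ.{u} K) (hM : S_MUL K) (hD : S_DL K)
    (hB : S_BAS K) : S_MEQ K := by
  intro s t hs ht h
  apply le_antisymm
  · exact MEQaux.half hV hD hB t s ht hs (fun A _ _ => (h A).symm)
  · exact MEQaux.half hV hD hB s t hs ht h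

end Pool.Agent.R325.BH
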