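import Pool.Agent.R325.BH.Base3
import Pool.Agent.R325.BH.MEQ

set_option linter.all false
universe u
namespace Pool.Agent.R325.BH

open Pool.Agent.Results.MP_5ecbac_al
open ThreeCherries ThreeCherries.Br Skeleton

attribute [local instance 100] LieRing.ofAssociativeRing

variable (K : Type u) [Field K]

/-- the Lie monomials of shape `κ` in the letters of exponent `0` -/
noncomputable def N : Br → Submodule K (F K)
  | leaf => W K 0
  | node a b => br K (N a) (N b)

/-- equivalent identities have equal spaces `N` -/
def S_NEQ : Prop := ∀ (s t : Br), EquivId K s t → N K s = N K t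

/-- `N` controls the verbal subspaces of the extension -/
def S_NV : Prop := ∀ (hD : S_DL K) (s t : Br), N K t ≤ N K s →
  V K (E (MEQaux.der hD)) t ≤ V K (E (MEQaux.der hD)) s

/-- equal spaces `N` give equal marked spaces -/
def S_NM : Prop := ∀ (s t : Br), s ≠ leaf → t ≠ leaf → s.deg = t.deg →
  N K s = N K t → (sk s).deg = (sk t).deg ∧ M K s = M K t

/-- marked spaces determine the space `N` of the skeleton over the field of rational functions -/
def S_MSK : Prop := ∀ (s t : Br), s ≠ leaf → t ≠ leaf → M K s = M K t →
  N (FractionRing (MvPolynomial ℕ K)) (sk s) = N (FractionRing (MvPolynomial ℕ K)) (sk t)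

end Pool.Agent.R325.BH
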