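import Pool.Agent.R325.BH.Base

set_option linter.all false
universe u
namespace Pool.Agent.R325.BH

namespace CanAux

variable {K : Type u} [Field K]

lemma cf_add (x y : F K) (w : Wd) : cf (x + y) w = cf x w + cf y w := by
  simp only [cf, MonoidAlgebra.coeff_add, Finsupp.add_apply]

lemma cf_sub (x y : F K) (w : Wd) : cf (x - y) w = cf x w - cf y w := by
  simp only [cf, MonoidAlgebra.coeff_sub, Finsupp.sub_apply]

lemma cf_smul (c : K) (x : F K) (w : Wd) : cf (c • x) w = c * cf x w := by
  simp only [cf, MonoidAlgebra.coeff_smul, Finsupp.smul_apply, smul_eq_mul]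

lemma cf_zero (w : Wd) : cf (0 : F K) w = 0 := by
  simp [cf]

lemma cf_ext {x y : F K} (h : ∀ w, cf x w = cf y w) : x = y := by
  apply MonoidAlgebra.ext
  ext w
  exact h (FreeMonoid.toList w)

lemma cf_wd (v w : Wd) : cf (wd K v) w = if v = w then 1 else 0 := by
  classical
  unfold cf wd
  rw [MonoidAlgebra.coeff_single_apply]
  have : (FreeMonoid.ofList v = FreeMonoid.ofList w) ↔ v = w := FreeMonoid.ofList.injective.eq_iff
  simp only [this]

lemma wd_mem_Hn (v : Wd) : wd K v ∈ Hn K v.length := by
  intro w hw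
  rw [cf_wd, if_neg]
  rintro rfl
  exact hw rfl

/-- coefficients of `x b_i - b_i x` -/
lemma cf_comm (hM : S_MUL K) {p : ℕ} {x : F K} (hx : x ∈ Hn K p) (β i0 i j l m : ℕ) (w : Wd)
    (hw : w.length + 1 = p) :
    cf (x * wd K [(i0, β)] - wd K [(i0, β)] * x) ((j, m) :: w ++ [(i, l)]) =
      (if i0 = i ∧ l = β then cf x ((j, m) :: w) else 0) -
      (if i0 = j ∧ m = β then cf x (w ++ [(i, l)]) else 0) := by
  rw [cf_sub, hM p x _ hx _ (by simp; omega)]
  rw [hM 1 (wd K [(i0, β)]) x (wd_mem_Hn [(i0, β)]) _ (by simp)]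
  have h1 : ((j, m) :: w ++ [(i, l)]).take p = (j, m) :: w := by
    rw [List.take_append_of_le_length (by simp; omega)]
    rw [List.take_of_length_le (by simp; omega)]
  have h2 : ((j, m) :: w ++ [(i, l)]).drop p = [(i, l)] := by
    have : p = ((j, m) :: w).length := by simp; omega
    rw [this]
    exact List.drop_left
  have h3 : ((j, m) :: w ++ [(i, l)]).take 1 = [(j, m)] := by simp
  have h4 : ((j, m) :: w ++ [(i, l)]).drop 1 = w ++ [(i, l)] := by simp
  rw [h1, h2, h3, h4, cf_wd, cf_wd]
  congr 1
  · by_cases h : i0 = i ∧ l = β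
    · rw [if_pos h, if_pos (by rw [h.1, h.2]), mul_one]
    · rw [if_neg h, if_neg (by intro hh; simp at hh; exact h ⟨hh.1, hh.2.symm⟩), mul_zero]
  · by_cases h : i0 = j ∧ m = β
    · rw [if_pos h, if_pos (by rw [h.1, h.2]), one_mul]
    · rw [if_neg h, if_neg (by intro hh; simp at hh; exact h ⟨hh.1, hh.2.symm⟩), zero_mul]

/-- represented elements -/
def RepS (β p : ℕ) (P : Submodule K (F K)) : Submodule K (F K) where
  carrier := {y | ∃ a : ℕ → F K, (∀ i, a i ∈ P) ∧ ∀ (i j l m : ℕ) (w : Wd), w.length + 1 = p →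
    cf y ((j, m) :: w ++ [(i, l)]) = (if l = β then cf (a i) ((j, m) :: w) else 0) -
      (if m = β then cf (a j) (w ++ [(i, l)]) else 0)}
  add_mem' := by
    rintro y y' ⟨a, ha, h⟩ ⟨a', ha', h'⟩
    refine ⟨fun i => a i + a' i, fun i => P.add_mem (ha i) (ha' i), ?_⟩
    intro i j l m w hw
    rw [cf_add, h i j l m w hw, h' i j l m w hw, cf_add, cf_add]
    split_ifs <;> ring
  zero_mem' := by
    refine ⟨fun _ => 0, fun _ => P.zero_mem, ?_⟩
    intro i j l m w hw
    simp [cf_zero]
  smul_mem' := by
    rintro c y ⟨a, ha, h⟩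
    refine ⟨fun i => c • a i, fun i => P.smul_mem c (ha i), ?_⟩
    intro i j l m w hw
    rw [cf_smul, h i j l m w hw, cf_smul, cf_smul]
    split_ifs <;> ring

lemma br_le (hM : S_MUL K) {β p : ℕ} {P : Submodule K (F K)} (hP : P ≤ Hn K p) :
    br K P (W K β) ≤ RepS β p P := by
  unfold br
  rw [Submodule.span_le]
  rintro _ ⟨x, hx, y, hy, rfl⟩
  have h1 : W K β ≤ (RepS β p P).comap (LinearMap.mulLeft K x - LinearMap.mulRight K x) := by
    unfold W
    rw [Submodule.span_le]
    rintro _ ⟨i0, rfl⟩
    show x * wd K [(i0, β)] - wd K [(i0, β)] * x ∈ RepS β p P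
    refine ⟨fun i => if i = i0 then x else 0, fun i => ?_, ?_⟩
    · show (if i = i0 then x else 0) ∈ P
      split_ifs
      · exact hx
      · exact P.zero_mem
    · intro i j l m w hw
      rw [cf_comm hM (hP hx) β i0 i j l m w hw]
      congr 1
      · by_cases h1 : l = β <;> by_cases h2 : i = i0
        · simp [h1, h2]
        · have h3 : ¬ i0 = i := fun h => h2 h.symm
          simp [h1, h2, h3, cf_zero]
        · simp [h1]
        · simp [h1]
      · by_cases h1 : m = β <;> by_cases h2 : j = i0
        · simp [h1, h2]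
        · have h3 : ¬ i0 = j := fun h => h2 h.symm
          simp [h1, h2, h3, cf_zero]
        · simp [h1]
        · simp [h1]
  exact h1 hy

/-- rotation: all exponents are `β` -/
lemma rot_exp {β p : ℕ} (ξ : ℕ → F K)
    (hξ : ∀ (i j m : ℕ) (w : Wd), w.length + 1 = p →
      cf (ξ i) ((j, m) :: w) = if m = β then cf (ξ j) (w ++ [(i, β)]) else 0) :
    ∀ (u v : Wd) (i : ℕ), u.length + v.length = p → cf (ξ i) (u ++ v) ≠ 0 → ∀ a ∈ u, a.2 = β := by
  intro u
  induction u with
  | nil => intro v i _ _ a ha; simp at ha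
  | cons b u ih =>
    intro v i hl h a ha
    obtain ⟨j, m⟩ := b
    rw [List.cons_append, hξ i j m (u ++ v) (by simp at hl ⊢; omega)] at h
    have hm : m = β := by
      by_contra hm
      rw [if_neg hm] at h
      exact h rfl
    rw [if_pos hm, List.append_assoc] at h
    rcases List.mem_cons.1 ha with h1 | h1
    · rw [h1]; exact hm
    · exact ih (v ++ [(i, β)]) j (by simp at hl ⊢; omega) h a h1

/-- rotation: all letters are `(N, β)` -/
lemma rot_let {β p N : ℕ} (ξ : ℕ → F K) (h0 : ∀ i, i ≠ N → ξ i = 0)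
    (hξ : ∀ (i j m : ℕ) (w : Wd), w.length + 1 = p →
      cf (ξ i) ((j, m) :: w) = if m = β then cf (ξ j) (w ++ [(i, β)]) else 0) :
    ∀ (u v : Wd), u.length + v.length = p → cf (ξ N) (u ++ v) ≠ 0 → ∀ a ∈ u, a = (N, β) := by
  intro u
  induction u with
  | nil => intro v _ _ a ha; simp at ha
  | cons b u ih =>
    intro v hl h a ha
    obtain ⟨j, m⟩ := b
    rw [List.cons_append, hξ N j m (u ++ v) (by simp at hl ⊢; omega)] at h
    have hm : m = β := by
      by_contra hm
      rw [if_neg hm] at h
      exact h rfl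
    rw [if_pos hm, List.append_assoc] at h
    have hj : j = N := by
      by_contra hj
      rw [h0 j hj, cf_zero] at h
      exact h rfl
    subst hj
    rcases List.mem_cons.1 ha with h1 | h1
    · rw [h1, hm]
    · exact ih (v ++ [(j, β)]) (by simp at hl ⊢; omega) h a h1

/-- relabelling of a word -/
lemma rel_wd (r : ℕ → ℕ) (v : Wd) : rel K r (wd K v) = wd K (v.map (fun a => (r a.1, a.2))) := by
  unfold rel wd
  rw [MonoidAlgebra.mapDomainAlgHom_apply, MonoidAlgebra.mapDomain_single]
  rfl

/-- relabelling fixes elements without moved labels -/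
lemma rel_fix (r : ℕ → ℕ) (x : F K) (h : ∀ w : Wd, cf x w ≠ 0 → ∀ a ∈ w, r a.1 = a.1) :
    rel K r x = x := by
  have e : x = x.coeff.sum MonoidAlgebra.single := (MonoidAlgebra.sum_coeff_single x).symm
  conv_lhs => rw [e]
  conv_rhs => rw [e]
  unfold Finsupp.sum
  rw [map_sum]
  apply Finset.sum_congr rfl
  intro w hw
  rw [Finsupp.mem_support_iff] at hw
  have h1 := h (FreeMonoid.toList w) hw
  have h2 : (MonoidAlgebra.single w (x.coeff w) : F K) = x.coeff w • wd K (FreeMonoid.toList w) := by
    unfold wd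
    rw [MonoidAlgebra.smul_single, smul_eq_mul, mul_one]
    rfl
  rw [h2, map_smul, rel_wd]
  congr 2
  conv_rhs => rw [← List.map_id (FreeMonoid.toList w)]
  apply List.map_congr_left
  intro a ha
  exact Prod.ext (h1 a ha) rfl

/-- a bound for the labels -/
lemma exists_fresh (x : F K) : ∃ N : ℕ, ∀ w : Wd, cf x w ≠ 0 → ∀ a ∈ w, a.1 < N := by
  classical
  refine ⟨(x.coeff.support.sup (fun w => ((FreeMonoid.toList w).map (fun a => a.1 + 1)).sum)) + 1, ?_⟩
  intro w hw a ha
  have h1 : FreeMonoid.ofList w ∈ x.coeff.support := by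
    rw [Finsupp.mem_support_iff]; exact hw
  have h2 := Finset.le_sup (f := fun w : FreeMonoid (ℕ × ℕ) =>
    ((FreeMonoid.toList w).map (fun a => a.1 + 1)).sum) h1
  have h3 : a.1 + 1 ≤ (w.map (fun a => a.1 + 1)).sum :=
    List.single_le_sum (by simp) _ (List.mem_map.2 ⟨a, ha, rfl⟩)
  have h4 : ((FreeMonoid.toList (FreeMonoid.ofList w)).map (fun a => a.1 + 1)).sum =
    (w.map (fun a => a.1 + 1)).sum := rfl
  simp only [h4] at h2
  omega

end CanAux

open CanAux in
theorem CAN (K : Type u) [Field K] (hM : S_MUL K) (hD : S_DL K) : S_CAN K := by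
  intro β p P R hp hP hR hrel hE hbr z hz
  obtain ⟨N, hN⟩ := exists_fresh z
  have hzH := hR hz
  have hmem : z * wd K [(N, β)] - wd K [(N, β)] * z ∈ RepS β p P := by
    apply br_le hM hP
    apply hbr
    exact Submodule.subset_span ⟨z, hz, wd K [(N, β)], Submodule.subset_span ⟨N, rfl⟩, rfl⟩
  obtain ⟨a, ha, hrep⟩ := hmem
  set ξ : ℕ → F K := fun i => a i - if i = N then z else 0 with hξdef
  have hξ : ∀ (i j m : ℕ) (w : Wd), w.length + 1 = p →
      cf (ξ i) ((j, m) :: w) = if m = β then cf (ξ j) (w ++ [(i, β)]) else 0 := by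
    intro i j m w hw
    have h1 := hrep i j β m w hw
    rw [cf_comm hM hzH β N i j β m w hw, if_pos rfl] at h1
    simp only [hξdef, cf_sub]
    have e1 : cf (if i = N then z else 0) ((j, m) :: w) =
        if N = i ∧ β = β then cf z ((j, m) :: w) else 0 := by
      by_cases h : i = N
      · simp [h]
      · have h' : ¬ N = i := fun hh => h hh.symm
        simp [h, h', cf_zero]
    have e2 : cf (if j = N then z else 0) (w ++ [(i, β)]) =
        if N = j then cf z (w ++ [(i, β)]) else 0 := by
      by_cases h : j = N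
      · simp [h]
      · have h' : ¬ N = j := fun hh => h hh.symm
        simp [h, h', cf_zero]
    rw [e1, e2]
    by_cases hm : m = β
    · rw [if_pos hm] at h1 ⊢
      have e3 : (if N = j ∧ m = β then cf z (w ++ [(i, β)]) else 0) =
          if N = j then cf z (w ++ [(i, β)]) else 0 := by
        simp [hm]
      rw [e3] at h1
      linear_combination -h1
    · rw [if_neg hm] at h1 ⊢
      have e3 : (if N = j ∧ m = β then cf z (w ++ [(i, β)]) else 0) = 0 := by
        simp [hm]
      rw [e3] at h1
      linear_combination -h1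
  have hξH : ∀ i, ξ i ∈ Hn K p := by
    intro i
    simp only [hξdef]
    apply Submodule.sub_mem _ (hP (ha i))
    split_ifs
    · exact hzH
    · exact Submodule.zero_mem _
  have hξE : ∀ i, ξ i ∈ Eb K β := by
    intro i w hw
    by_contra hne
    obtain ⟨b, hb, hb2⟩ := hw
    have hl : w.length = p := by
      by_contra hl
      exact hne (hξH i w hl)
    exact hb2 (rot_exp ξ hξ w [] i (by simpa using hl) (by simpa using hne) b hb)
  have h0 : ∀ i, i ≠ N → ξ i = 0 := by
    intro i hi
    have e : ξ i = a i := by simp [hξdef, hi]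
    rw [e]
    apply hE _ (ha i)
    rw [← e]
    exact hξE i
  set c : K := cf (ξ N) (List.replicate p (N, β)) with hc
  have hξN : ξ N = c • wd K (List.replicate p (N, β)) := by
    apply cf_ext
    intro w
    rw [cf_smul, cf_wd]
    by_cases hw : List.replicate p (N, β) = w
    · rw [if_pos hw, mul_one, hc, hw]
    · rw [if_neg hw, mul_zero]
      by_contra hne
      have hl : w.length = p := by
        by_contra hl
        exact hne (hξH N w hl)
      apply hw
      have := rot_let ξ h0 hξ w [] (by simpa using hl) (by simpa using hne)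
      exact (List.eq_replicate_iff.2 ⟨hl, this⟩).symm
  have haN : a N = z + c • wd K (List.replicate p (N, β)) := by
    have e : ξ N = a N - z := by simp [hξdef]
    rw [← hξN, e]; abel
  -- relabelling
  set r : ℕ → ℕ := fun i => if i = N then N + 1 else i with hr
  have hz1 : rel K r z = z := by
    apply rel_fix
    intro w hw b hb
    have := hN w hw b hb
    simp only [hr]
    rw [if_neg (by omega)]
  have h1 : rel K r (a N) = z + c • wd K (List.replicate p (N + 1, β)) := by
    rw [haN, map_add, hz1, map_smul, rel_wd]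
    congr 3
    simp [hr]
  have h2 : z + c • wd K (List.replicate p (N + 1, β)) ∈ P := by
    rw [← h1]; exact hrel r _ (ha N)
  have h3 : c • wd K (List.replicate p (N, β)) - c • wd K (List.replicate p (N + 1, β)) ∈ P := by
    have := P.sub_mem (ha N) h2
    rw [haN] at this
    convert this using 1
    abel
  have hEw : ∀ n : ℕ, wd K (List.replicate p (n, β)) ∈ Eb K β := by
    intro n w hw
    rw [cf_wd, if_neg]
    rintro rfl
    obtain ⟨b, hb, hb2⟩ := hw
    rw [List.mem_replicate] at hb
    exact hb2 (by rw [hb.2])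
  have h4 := hE _ h3 (Submodule.sub_mem _ (Submodule.smul_mem _ _ (hEw N))
    (Submodule.smul_mem _ _ (hEw (N + 1))))
  have h5 : c = 0 := by
    have h6 := congrArg (fun y => cf y (List.replicate p (N, β))) h4
    simp only [cf_sub, cf_smul, cf_zero, cf_wd] at h6
    have hne : ¬ List.replicate p (N + 1, β) = List.replicate p (N, β) := by
      intro hh
      have h7 := congrArg (fun l : Wd => (l.headD (0, 0)).1) hh
      obtain ⟨q, rfl⟩ : ∃ q, p = q + 1 := ⟨p - 1, by omega⟩
      simp [List.replicate_succ] at h7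
    rw [if_neg hne] at h6
    simpa using h6
  rw [h5, zero_smul, add_zero] at haN
  rw [← haN]
  exact ha N

end Pool.Agent.R325.BH
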