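import Pool.Agent.R325.BH.FIN

/-!
Bahturin's question (MP_5ecbac_al): positive answer for all bracket structures whose skeleton is a
comb, and for a larger recursively defined class.
-/

set_option linter.all false
universe u
namespace Pool.Agent.Results.MP_5ecbac_al.CombSkeleton

open Pool.Agent.Results.MP_5ecbac_al
open ThreeCherries ThreeCherries.Br Skeleton
open Pool.Agent.R325.BH

/-- Combs: at every node at least one of the two children is a leaf. -/
inductive Comb : Br → Prop
  | leaf : Comb leaf
  | right {A : Br} : Comb A → Comb (node A leaf)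
  | left {A : Br} : Comb A → Comb (node leaf A)

/-- The class `Cl` of bracket structures:
* all structures obtained from some `κ` by replacing every letter by a cherry;
* `A x` and `x A`, if `A` is in `Cl`;
* `A B` and `B A`, if `A` is in `Cl` and `B` has exactly one cherry. -/
inductive Cl : Br → Prop
  | dbl (κ : Br) : Cl (dbl κ)
  | letter {A : Br} : Cl A → A ≠ leaf → Cl (node A leaf)
  | cherry {A B : Br} : Cl A → A ≠ leaf → B.cherries = 1 → Cl (node A B)
  | comm {A B : Br} : Cl (node A B) → Cl (node B A)

/-- `s` and all its iterated skeletons (up to the one-letter structure) are in `Cl`. -/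
inductive Reg : Br → Prop
  | leaf : Reg leaf
  | step {s : Br} : s ≠ leaf → Cl s → Reg (sk s) → Reg s

lemma cls_of {s : Br} (h : Cl s) : Cls s := by
  induction h with
  | dbl κ => exact Cls.dbl κ
  | letter _ h ih => exact Cls.pend ih h
  | cherry _ h h' ih => exact Cls.cat ih h h'
  | comm _ ih => exact Cls.comm ih

lemma good_leaf (K : Type u) [Field K] : Good K leaf := by
  intro t ht
  have hd := deg_eq K leaf t ht
  rw [deg_one (s := t) (by rw [← hd]; rfl)]
  exact CEq.refl _

lemma good_step (K : Type u) [Field K] {s : Br} (hs : s ≠ leaf) (h : Cl s)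
    (hg : Good K (sk s)) : Good K s :=
  good_of_PT K s hs (all_PT K s (cls_of h) hs) hg

lemma good_reg (K : Type u) [Field K] {s : Br} (h : Reg s) : Good K s := by
  induction h with
  | leaf => exact good_leaf K
  | step hs hc _ ih => exact good_step K hs hc ih

lemma cl_of_comb : ∀ s : Br, s ≠ leaf → Comb (sk s) → Cl s
  | leaf, h, _ => absurd rfl h
  | node leaf leaf, _, _ => Cl.dbl leaf
  | node leaf (node a b), _, h => by
    rw [sk_lnode (node a b) nofun] at h
    exact Cl.comm (Cl.letter (cl_of_comb (node a b) nofun h) nofun)
  | node (node a b) leaf, _, h => by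
    rw [sk_noder (node a b) nofun] at h
    exact Cl.letter (cl_of_comb (node a b) nofun h) nofun
  | node (node a b) (node c d), _, h => by
    rw [sk_node (node a b) (node c d) nofun nofun] at h
    generalize e1 : sk (node a b) = p at h
    generalize e2 : sk (node c d) = q at h
    cases h with
    | right h1 =>
      rw [← e1] at h1
      exact Cl.cherry (cl_of_comb (node a b) nofun h1) nofun (one_of_sk nofun e2)
    | left h1 =>
      rw [← e2] at h1
      exact Cl.comm (Cl.cherry (cl_of_comb (node c d) nofun h1) nofun (one_of_sk nofun e1))

lemma comb_reg {s : Br} (h : Comb s) : Reg s := by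
  by_cases hs : s = leaf
  · rw [hs]; exact Reg.leaf
  · have h1 : sk s = leaf := by
      induction h with
      | leaf => exact absurd rfl hs
      | @right A hA ih =>
        by_cases hl : A = leaf
        · rw [hl]; rfl
        · rw [sk_noder A hl]; exact ih hl
      | @left A hA ih =>
        by_cases hl : A = leaf
        · rw [hl]; rfl
        · rw [sk_lnode A hl]; exact ih hl
    refine Reg.step hs (cl_of_comb s hs (by rw [h1]; exact Comb.leaf)) (by rw [h1]; exact Reg.leaf)

/-- **Theorem.** Let `K` be any field.
(1) Bahturin's question has a positive answer for all bracket structures `s` whose skeleton is a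
comb (no bound on the number of cherries), and arbitrary `t`.
(2) If it has a positive answer for the skeleton of `s` and `s` is in the class `Cl`, then it has a
positive answer for `s`.  In particular this holds for all `s` in the class `Reg`. -/
theorem result (K : Type u) [Field K] :
    (∀ s : Br, Comb (sk s) → ∀ t : Br, (EquivId K s t ↔ CEq s t)) ∧
    (∀ s : Br, s ≠ leaf → Cl s → (∀ t : Br, (EquivId K (sk s) t ↔ CEq (sk s) t)) →
      ∀ t : Br, (EquivId K s t ↔ CEq s t)) ∧
    (∀ s : Br, Reg s → ∀ t : Br, (EquivId K s t ↔ CEq s t)) := by
  refine ⟨fun s hs t => ⟨fun h => ?_, holds_of_CEq⟩,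
    fun s hs hc hg t => ⟨fun h => ?_, holds_of_CEq⟩,
    fun s hs t => ⟨fun h => good_reg K hs t h, holds_of_CEq⟩⟩
  · by_cases hl : s = leaf
    · subst hl; exact good_leaf K t h
    · exact good_step K hl (cl_of_comb s hl hs) (good_reg K (comb_reg hs)) t h
  · exact good_step K hs hc (fun t ht => (hg t).1 ht) t h

end Pool.Agent.Results.MP_5ecbac_al.CombSkeleton
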