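import Pool.Agent.R325.BH.Base

/-! Piece DL of project BH (MP_5ecbac_al): the derivation `dl`. -/

set_option linter.all false
universe u
namespace Pool.Agent.R325.BH

open Pool.Agent.Results.MP_5ecbac_al
open ThreeCherries ThreeCherries.Br Skeleton

attribute [local instance 100] LieRing.ofAssociativeRing

namespace DLaux

section lists

lemma upW_append_left (k : ℕ) (a b : Wd) (h : k < a.length) : upW k (a ++ b) = upW k a ++ b := by
  unfold upW
  refine List.ext_getElem (by simp) fun i h1 h2 => ?_
  simp only [List.getElem_modify, List.getElem_append, List.length_modify]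
  by_cases hi : i < a.length
  · simp only [hi, dif_pos]
  · have : k ≠ i := by omega
    simp only [hi, dif_neg, this, if_false, not_false_eq_true]

lemma upW_append_right (k : ℕ) (a b : Wd) : upW (a.length + k) (a ++ b) = a ++ upW k b := by
  unfold upW
  refine List.ext_getElem (by simp) fun i h1 h2 => ?_
  simp only [List.getElem_modify, List.getElem_append, List.length_modify]
  by_cases hi : i < a.length
  · have : a.length + k ≠ i := by omega
    simp only [hi, dif_pos, this, if_false]
  · by_cases hk : k = i - a.length
    · have : a.length + k = i := by omega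
      simp only [hi, dif_neg, this, if_true, not_false_eq_true]
      rw [if_pos hk]
    · have : ¬ a.length + k = i := by omega
      simp only [hi, dif_neg, this, if_false, hk, not_false_eq_true]

lemma upW_map (k : ℕ) (r : ℕ → ℕ) (w : Wd) :
    upW k (w.map (fun a : ℕ × ℕ => (r a.1, a.2))) = (upW k w).map (fun a : ℕ × ℕ => (r a.1, a.2)) := by
  unfold upW
  refine List.ext_getElem (by simp) fun i h1 h2 => ?_
  simp only [List.getElem_modify, List.getElem_map]
  by_cases hk : k = i
  · simp only [hk, if_true]
  · simp only [hk, if_false]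

lemma upW_length (k : ℕ) (w : Wd) : (upW k w).length = w.length := by simp [upW]

lemma dnW_length (k : ℕ) (w : Wd) : (dnW k w).length = w.length := by simp [dnW]

lemma upW_eq_iff (k : ℕ) (v w : Wd) (hk : k < w.length) :
    upW k v = w ↔ (1 ≤ (w.getD k (0, 0)).2 ∧ v = dnW k w) := by
  constructor
  · rintro rfl
    rw [upW_length] at hk
    constructor
    · have hk' : k < (upW k v).length := by rw [upW_length]; exact hk
      rw [List.getD_eq_getElem _ _ hk']
      simp [upW, List.getElem_modify]
    · unfold upW dnW
      refine List.ext_getElem (by simp) fun i h1 h2 => ?_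
      simp only [List.getElem_modify]
      by_cases hi : k = i
      · simp [hi]
      · simp [hi]
  · rintro ⟨h, rfl⟩
    unfold upW dnW
    refine List.ext_getElem (by simp) fun i h1 h2 => ?_
    simp only [List.getElem_modify]
    by_cases hi : k = i
    · subst hi
      rw [List.getD_eq_getElem _ _ hk] at h
      simp only [if_true]
      ext
      · rfl
      · simp only; omega
    · simp [hi]

end lists

section alg

variable (K : Type u) [Field K]

lemma cf_add (x y : F K) (w : Wd) : cf (x + y) w = cf x w + cf y w := by
  simp [cf]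

lemma cf_smul (c : K) (x : F K) (w : Wd) : cf (c • x) w = c * cf x w := by
  simp [cf]

lemma cf_zero (w : Wd) : cf (0 : F K) w = 0 := by simp [cf]

lemma cf_sum {ι : Type*} (s : Finset ι) (f : ι → F K) (w : Wd) :
    cf (∑ i ∈ s, f i) w = ∑ i ∈ s, cf (f i) w := by
  classical
  induction s using Finset.induction_on with
  | empty => simp [cf_zero]
  | insert a s ha ih => rw [Finset.sum_insert ha, Finset.sum_insert ha, cf_add, ih]

lemma cf_wd (v w : Wd) [Decidable (v = w)] : cf (wd K v) w = if v = w then 1 else 0 := by
  classical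
  unfold cf wd
  rw [MonoidAlgebra.coeff_single_apply]
  by_cases h : v = w
  · simp [h]
  · rw [if_neg h, if_neg]
    intro h'
    exact h (FreeMonoid.ofList.injective h')

lemma wd_mul (v w : Wd) : wd K v * wd K w = wd K (v ++ w) := by
  unfold wd
  rw [MonoidAlgebra.single_mul_single, mul_one]
  rfl

lemma wd_ind {p : F K → Prop} (h0 : p 0) (hadd : ∀ x y, p x → p y → p (x + y))
    (hw : ∀ (c : K) (w : Wd), p (c • wd K w)) : ∀ x, p x := by
  intro x
  induction x using MonoidAlgebra.induction_linear with
  | zero => exact h0
  | add x y hx hy => exact hadd x y hx hy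
  | single m r =>
    have := hw r m.toList
    unfold wd at this
    rw [MonoidAlgebra.smul_single] at this
    simpa using this

lemma dl_wd (v : Wd) : dl K (wd K v) = dW K v := by
  unfold dl wd
  simp [MonoidAlgebra.coeffLinearEquiv, Finsupp.linearCombination_single]

lemma dW_append (a b : Wd) : dW K (a ++ b) = dW K a * wd K b + wd K a * dW K b := by
  unfold dW
  rw [List.length_append, Finset.sum_range_add, Finset.sum_mul, Finset.mul_sum]
  congr 1
  · refine Finset.sum_congr rfl fun k hk => ?_
    rw [upW_append_left k a b (Finset.mem_range.mp hk), wd_mul]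
  · refine Finset.sum_congr rfl fun k hk => ?_
    rw [upW_append_right, wd_mul]

lemma rel_wd (r : ℕ → ℕ) (w : Wd) :
    rel K r (wd K w) = wd K (w.map (fun a : ℕ × ℕ => (r a.1, a.2))) := by
  unfold rel wd
  simp
  rfl

lemma cf_dW (v w : Wd) : cf (dW K v) w = ∑ k ∈ Finset.range w.length,
    if 1 ≤ (w.getD k (0, 0)).2 then cf (wd K v) (dnW k w) else 0 := by
  classical
  unfold dW
  rw [cf_sum]
  by_cases hl : v.length = w.length
  · rw [hl]
    refine Finset.sum_congr rfl fun k hk => ?_
    have hk' := Finset.mem_range.mp hk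
    rw [cf_wd, cf_wd]
    have h := upW_eq_iff k v w hk'
    by_cases h1 : 1 ≤ (w.getD k (0, 0)).2
    · rw [if_pos h1]
      by_cases h2 : v = dnW k w
      · rw [if_pos h2, if_pos (h.mpr ⟨h1, h2⟩)]
      · rw [if_neg h2, if_neg (fun h3 => h2 (h.mp h3).2)]
    · rw [if_neg h1, if_neg (fun h3 => h1 (h.mp h3).1)]
  · rw [Finset.sum_eq_zero, Finset.sum_eq_zero]
    · intro k hk
      split_ifs
      · rw [cf_wd, if_neg]
        rintro rfl
        exact hl (dnW_length k w)
      · rfl
    · intro k hk
      rw [cf_wd, if_neg]
      rintro rfl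
      exact hl (upW_length k v).symm

lemma cf_dl (x : F K) : ∀ w : Wd, cf (dl K x) w = ∑ k ∈ Finset.range w.length,
    if 1 ≤ (w.getD k (0, 0)).2 then cf x (dnW k w) else 0 := by
  refine wd_ind K (p := fun x => ∀ w : Wd, cf (dl K x) w = ∑ k ∈ Finset.range w.length,
    if 1 ≤ (w.getD k (0, 0)).2 then cf x (dnW k w) else 0) ?_ ?_ ?_ x
  · intro w
    rw [map_zero, cf_zero, Finset.sum_eq_zero]
    intro k _
    split_ifs
    · exact cf_zero K _
    · rfl
  · intro x y hx hy w
    rw [map_add, cf_add, hx, hy, ← Finset.sum_add_distrib]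
    refine Finset.sum_congr rfl fun k _ => ?_
    split_ifs
    · rw [cf_add]
    · rw [add_zero]
  · intro c v w
    rw [map_smul, cf_smul, dl_wd, cf_dW, Finset.mul_sum]
    refine Finset.sum_congr rfl fun k _ => ?_
    split_ifs
    · rw [cf_smul]
    · rw [mul_zero]

lemma dl_mul (x y : F K) : dl K (x * y) = dl K x * y + x * dl K y := by
  refine wd_ind K (p := fun x => dl K (x * y) = dl K x * y + x * dl K y) ?_ ?_ ?_ x
  · simp
  · intro a b ha hb
    rw [add_mul, map_add, ha, hb, map_add, add_mul, add_mul]
    abel
  · intro c v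
    refine wd_ind K (p := fun y => dl K ((c • wd K v) * y) =
      dl K (c • wd K v) * y + (c • wd K v) * dl K y) ?_ ?_ ?_ y
    · simp
    · intro a b ha hb
      rw [mul_add, map_add, ha, hb, map_add, mul_add, mul_add]
      abel
    · intro c' w
      rw [smul_mul_smul_comm, wd_mul, map_smul, map_smul, map_smul, dl_wd, dl_wd, dl_wd,
        smul_mul_smul_comm, smul_mul_smul_comm, dW_append, smul_add]

lemma dl_rel (r : ℕ → ℕ) (x : F K) : dl K (rel K r x) = rel K r (dl K x) := by
  refine wd_ind K (p := fun x => dl K (rel K r x) = rel K r (dl K x)) ?_ ?_ ?_ x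
  · simp
  · intro a b ha hb
    rw [map_add, map_add, map_add, map_add, ha, hb]
  · intro c v
    rw [map_smul, map_smul, map_smul, map_smul, rel_wd, dl_wd, dl_wd]
    congr 1
    unfold dW
    rw [map_sum, List.length_map]
    refine Finset.sum_congr rfl fun k _ => ?_
    rw [rel_wd, upW_map]

end alg

end DLaux

open DLaux

/-- DL -/
theorem DL (K : Type u) [Field K] : S_DL K := by
  refine ⟨dl_mul K, fun x w => cf_dl K x w, dl_rel K, fun n x hx w hw => ?_⟩
  rw [cf_dl]
  refine Finset.sum_eq_zero fun k _ => ?_
  split_ifs
  · refine hx _ ?_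
    rw [dnW_length]; exact hw
  · rfl


end Pool.Agent.R325.BH
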