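import Mathlib
import Pool.Agent.Results.MP_5ecbac_al.Skeleton

/-!
Marked model for Bahturin's question (MP_5ecbac_al), helper325.
`F K` = free associative algebra on letters `(i, m)` (label `i`, exponent `m`),
`dl` = the derivation raising exponents, `M K s` = marked space of the bracket structure `s`.
-/

set_option linter.all false
universe u
namespace Pool.Agent.R325.BH

open Pool.Agent.Results.MP_5ecbac_al
open ThreeCherries ThreeCherries.Br Skeleton

attribute [local instance 100] LieRing.ofAssociativeRing

/-- words -/
abbrev Wd := List (ℕ × ℕ)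

/-- the free associative algebra -/
abbrev F (K : Type u) [Field K] := MonoidAlgebra K (FreeMonoid (ℕ × ℕ))

variable (K : Type u) [Field K]

variable {K} in
/-- coefficient of a word -/
noncomputable def cf (x : F K) (w : Wd) : K := x.coeff (FreeMonoid.ofList w)

/-- a word as an element of the algebra -/
noncomputable def wd (w : Wd) : F K := MonoidAlgebra.single (FreeMonoid.ofList w) 1

/-- raise the exponent of the `k`-th letter -/
def upW (k : ℕ) (w : Wd) : Wd := w.modify k (fun a => (a.1, a.2 + 1))

/-- lower the exponent of the `k`-th letter -/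
def dnW (k : ℕ) (w : Wd) : Wd := w.modify k (fun a => (a.1, a.2 - 1))

/-- the derivation on words -/
noncomputable def dW (w : Wd) : F K := ∑ k ∈ Finset.range w.length, wd K (upW k w)

/-- the derivation `(i, m) ↦ (i, m + 1)` -/
noncomputable def dl : F K →ₗ[K] F K :=
  (Finsupp.linearCombination K (fun w : FreeMonoid (ℕ × ℕ) => dW K w.toList)) ∘ₗ
    (MonoidAlgebra.coeffLinearEquiv K).toLinearMap

/-- relabelling -/
noncomputable def rel (r : ℕ → ℕ) : F K →ₐ[K] F K :=
  MonoidAlgebra.mapDomainAlgHom K K (FreeMonoid.map (fun a : ℕ × ℕ => (r a.1, a.2)))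

/-- span of commutators -/
noncomputable def br (P Q : Submodule K (F K)) : Submodule K (F K) :=
  Submodule.span K {z | ∃ x ∈ P, ∃ y ∈ Q, z = x * y - y * x}

/-- span of the letters of exponent `β` -/
noncomputable def W (β : ℕ) : Submodule K (F K) := Submodule.span K {z | ∃ i : ℕ, z = wd K [(i, β)]}

/-- the marked space of a bracket structure -/
noncomputable def M : Br → Submodule K (F K)
  | leaf => ⊤
  | node leaf leaf => W K 1
  | node leaf (node a b) => (M (node a b)).map (dl K)
  | node (node a b) leaf => (M (node a b)).map (dl K)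
  | node (node a b) (node c d) => br K (M (node a b)) (M (node c d))

/-- elements supported on words of length `n` -/
def Hn (n : ℕ) : Submodule K (F K) where
  carrier := {x | ∀ w : Wd, w.length ≠ n → cf x w = 0}
  add_mem' {a b} ha hb w h := by
    have h1 := ha w h; have h2 := hb w h
    simp only [cf] at *
    rw [MonoidAlgebra.coeff_add, Finsupp.add_apply, h1, h2, add_zero]
  zero_mem' w h := by simp [cf]
  smul_mem' c a ha w h := by
    have h1 := ha w h
    simp only [cf] at *
    rw [MonoidAlgebra.coeff_smul, Finsupp.smul_apply, h1, smul_zero]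

/-- weight of a word -/
def wt (w : Wd) : ℕ := (w.map Prod.snd).sum

/-- elements supported on words all of whose letters have exponent `β` -/
def Eb (β : ℕ) : Submodule K (F K) where
  carrier := {x | ∀ w : Wd, (∃ a ∈ w, a.2 ≠ β) → cf x w = 0}
  add_mem' {a b} ha hb w h := by
    have h1 := ha w h; have h2 := hb w h
    simp only [cf] at *
    rw [MonoidAlgebra.coeff_add, Finsupp.add_apply, h1, h2, add_zero]
  zero_mem' w h := by simp [cf]
  smul_mem' c a ha w h := by
    have h1 := ha w h
    simp only [cf] at *
    rw [MonoidAlgebra.coeff_smul, Finsupp.smul_apply, h1, smul_zero]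

/-- `s` is a composition `κ ∘ (one-cherry tree of degree β + 1)` -/
def Unif (β : ℕ) : Br → Prop
  | leaf => False
  | node l r => ((node l r).cherries = 1 ∧ (node l r).deg = β + 1) ∨
      (l ≠ leaf ∧ r ≠ leaf ∧ Unif β l ∧ Unif β r)

end Pool.Agent.R325.BH
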