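import Pool.Agent.R325.BH.Base

set_option linter.all false
universe u
namespace Pool.Agent.R325.BH

open Pool.Agent.Results.MP_5ecbac_al
open ThreeCherries ThreeCherries.Br Skeleton

attribute [local instance 100] LieRing.ofAssociativeRing

namespace FSTaux

variable {K : Type u} [Field K]

theorem cf_mul_ne (x y : F K) (w : Wd) (h : cf (x * y) w ≠ 0) :
    ∃ w1 w2 : Wd, w = w1 ++ w2 ∧ cf x w1 ≠ 0 ∧ cf y w2 ≠ 0 := by
  classical
  unfold cf at h
  rw [MonoidAlgebra.coeff_mul, Finsupp.sum] at h
  obtain ⟨m₁, hm₁, h1⟩ := Finset.exists_ne_zero_of_sum_ne_zero h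
  rw [Finsupp.sum] at h1
  obtain ⟨m₂, hm₂, h2⟩ := Finset.exists_ne_zero_of_sum_ne_zero h1
  have h3 : m₁ * m₂ = FreeMonoid.ofList w := by
    by_contra hcon
    exact h2 (if_neg hcon)
  refine ⟨m₁.toList, m₂.toList, ?_, ?_, ?_⟩
  · have := congrArg FreeMonoid.toList h3
    rw [FreeMonoid.toList_mul, FreeMonoid.toList_ofList] at this
    exact this.symm
  · unfold cf
    rw [FreeMonoid.ofList_toList]
    exact Finsupp.mem_support_iff.mp hm₁
  · unfold cf
    rw [FreeMonoid.ofList_toList]
    exact Finsupp.mem_support_iff.mp hm₂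

theorem cf_sub (x y : F K) (w : Wd) : cf (x - y) w = cf x w - cf y w := by
  unfold cf
  rw [MonoidAlgebra.coeff_sub, Finsupp.sub_apply]

theorem exists_cf {x : F K} (hx : x ≠ 0) : ∃ w : Wd, cf x w ≠ 0 := by
  by_contra hcon
  push Not at hcon
  apply hx
  apply MonoidAlgebra.coeff_injective
  ext m
  have := hcon m.toList
  unfold cf at this
  rw [FreeMonoid.ofList_toList] at this
  rw [this]
  rfl

theorem cf_rel (r : ℕ → ℕ) (x : F K) (w : Wd) : cf (rel K r x) w =
    (Finsupp.mapDomain (FreeMonoid.map (fun a : ℕ × ℕ => (r a.1, a.2))) x.coeff)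
      (FreeMonoid.ofList w) := rfl

theorem cf_rel_map (r : ℕ → ℕ) (hr : Function.Injective r) (x : F K) (w : Wd) :
    cf (rel K r x) (w.map (fun a : ℕ × ℕ => (r a.1, a.2))) = cf x w := by
  have hg : Function.Injective (fun a : ℕ × ℕ => (r a.1, a.2)) := by
    rintro ⟨a, b⟩ ⟨c, d⟩ h
    simp only [Prod.mk.injEq] at h
    rw [hr h.1, h.2]
  have hinj : Function.Injective (FreeMonoid.map (fun a : ℕ × ℕ => (r a.1, a.2))) := by
    intro a b h
    have h2 := congrArg FreeMonoid.toList h
    rw [FreeMonoid.toList_map, FreeMonoid.toList_map] at h2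
    exact FreeMonoid.toList.injective (List.map_injective_iff.mpr hg h2)
  rw [cf_rel]
  have h3 : FreeMonoid.ofList (w.map (fun a : ℕ × ℕ => (r a.1, a.2))) =
      FreeMonoid.map (fun a : ℕ × ℕ => (r a.1, a.2)) (FreeMonoid.ofList w) := rfl
  rw [h3, Finsupp.mapDomain_apply hinj]
  rfl

theorem cf_rel_ne (r : ℕ → ℕ) (x : F K) (w : Wd) (h : cf (rel K r x) w ≠ 0) :
    ∃ w' : Wd, w = w'.map (fun a : ℕ × ℕ => (r a.1, a.2)) := by
  rw [cf_rel] at h
  by_contra hcon
  apply h
  apply Finsupp.mapDomain_notin_range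
  rintro ⟨m, hm⟩
  apply hcon
  refine ⟨m.toList, ?_⟩
  have h2 := congrArg FreeMonoid.toList hm
  rw [FreeMonoid.toList_map, FreeMonoid.toList_ofList] at h2
  exact h2.symm

theorem cf_wd (v w : Wd) : cf (wd K v) w = if v = w then 1 else 0 := by
  classical
  unfold cf wd
  rw [MonoidAlgebra.coeff_single, Finsupp.single_apply]
  by_cases h : v = w
  · rw [if_pos h, if_pos (by rw [h])]
  · rw [if_neg h, if_neg (fun h' => h (FreeMonoid.ofList.injective h'))]

theorem br_comm (P Q : Submodule K (F K)) : br K Q P ≤ br K P Q := by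
  unfold br
  rw [Submodule.span_le]
  rintro z ⟨x, hx, y, hy, rfl⟩
  have h0 : y * x - x * y ∈ Submodule.span K {z | ∃ x ∈ P, ∃ y ∈ Q, z = x * y - y * x} :=
    Submodule.subset_span ⟨y, hy, x, hx, rfl⟩
  have h := Submodule.neg_mem _ h0
  have e : x * y - y * x = -(y * x - x * y) := by abel
  rw [e]
  exact h

theorem node_first (hM : S_MUL K) (γ p q : ℕ) (P Q : Submodule K (F K)) (hq : 1 ≤ q)
    (hP : P ≤ Hn K p) (hQ : Q ≤ Hn K q) (hrP : ∀ (r : ℕ → ℕ), ∀ x ∈ P, rel K r x ∈ P)
    (hrQ : ∀ (r : ℕ → ℕ), ∀ x ∈ Q, rel K r x ∈ Q) (hQne : ∃ x ∈ Q, x ≠ 0)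
    (h : ∀ x ∈ br K P Q, ∀ (a : ℕ × ℕ) (w : Wd), a.2 ≠ γ → cf x (a :: w) = 0) :
    ∀ x ∈ P, ∀ (a : ℕ × ℕ) (w : Wd), a.2 ≠ γ → cf x (a :: w) = 0 := by
  intro u hu a w ha
  by_contra hne
  obtain ⟨v, hv, hv0⟩ := hQne
  obtain ⟨w2, hw2⟩ := exists_cf hv0
  have hlen : (a :: w).length = p := by
    by_contra hcon
    exact hne (hP hu _ hcon)
  have i0 : Function.Injective (fun i : ℕ => 2 * i) := fun x y hxy => by
    simp only at hxy; omega
  have i1 : Function.Injective (fun i : ℕ => 2 * i + 1) := fun x y hxy => by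
    simp only at hxy; omega
  have hu' := hrP (fun i => 2 * i) u hu
  have hv' := hrQ (fun i => 2 * i + 1) v hv
  have hz : rel K (fun i => 2 * i) u * rel K (fun i => 2 * i + 1) v -
      rel K (fun i => 2 * i + 1) v * rel K (fun i => 2 * i) u ∈ br K P Q :=
    Submodule.subset_span ⟨_, hu', _, hv', rfl⟩
  have h1 := h _ hz (2 * a.1, a.2)
    (w.map (fun a : ℕ × ℕ => (2 * a.1, a.2)) ++ w2.map (fun a : ℕ × ℕ => (2 * a.1 + 1, a.2))) ha
  have hW : (2 * a.1, a.2) ::
      (w.map (fun a : ℕ × ℕ => (2 * a.1, a.2)) ++ w2.map (fun a : ℕ × ℕ => (2 * a.1 + 1, a.2))) =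
      ((a :: w).map (fun a : ℕ × ℕ => (2 * a.1, a.2))) ++
        w2.map (fun a : ℕ × ℕ => (2 * a.1 + 1, a.2)) := rfl
  rw [hW, cf_sub] at h1
  have h2 : cf (rel K (fun i => 2 * i) u * rel K (fun i => 2 * i + 1) v)
      (((a :: w).map (fun a : ℕ × ℕ => (2 * a.1, a.2))) ++
        w2.map (fun a : ℕ × ℕ => (2 * a.1 + 1, a.2))) = cf u (a :: w) * cf v w2 := by
    have hl : ((a :: w).map (fun a : ℕ × ℕ => (2 * a.1, a.2))).length = p := by
      rw [List.length_map, hlen]
    rw [hM p _ _ (hP hu') _ (by rw [List.length_append, hl]; omega)]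
    rw [List.take_left' hl, List.drop_left' hl]
    rw [cf_rel_map _ i0, cf_rel_map _ i1]
  have h3 : cf (rel K (fun i => 2 * i + 1) v * rel K (fun i => 2 * i) u)
      (((a :: w).map (fun a : ℕ × ℕ => (2 * a.1, a.2))) ++
        w2.map (fun a : ℕ × ℕ => (2 * a.1 + 1, a.2))) = 0 := by
    by_contra hcon
    obtain ⟨s1, s2, hs, hs1, -⟩ := cf_mul_ne _ _ _ hcon
    have hl1 : s1.length = q := by
      by_contra hc
      exact hs1 (hQ hv' _ hc)
    obtain ⟨w', rfl⟩ := cf_rel_ne _ _ _ hs1
    cases w' with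
    | nil => simp at hl1; omega
    | cons b w' =>
      simp only [List.map_cons, List.cons_append, List.cons.injEq, Prod.mk.injEq] at hs
      omega
  rw [h2, h3, sub_zero] at h1
  exact (mul_ne_zero hne hw2) h1

theorem br_Eb (β : ℕ) (P Q : Submodule K (F K)) (hP : P ≤ Eb K β) (hQ : Q ≤ Eb K β) :
    br K P Q ≤ Eb K β := by
  have hmul : ∀ x ∈ Eb K β, ∀ y ∈ Eb K β, x * y ∈ Eb K β := by
    rintro x hx y hy w ⟨a, ha, hab⟩
    by_contra hcon
    obtain ⟨w1, w2, rfl, h1, h2⟩ := cf_mul_ne _ _ _ hcon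
    rcases List.mem_append.mp ha with h | h
    · exact h1 (hx _ ⟨a, h, hab⟩)
    · exact h2 (hy _ ⟨a, h, hab⟩)
  unfold br
  rw [Submodule.span_le]
  rintro z ⟨x, hx, y, hy, rfl⟩
  exact Submodule.sub_mem _ (hmul x (hP hx) y (hQ hy)) (hmul y (hQ hy) x (hP hx))

theorem W_Eb (β : ℕ) : W K β ≤ Eb K β := by
  unfold W
  rw [Submodule.span_le]
  rintro z ⟨i, rfl⟩
  rintro w ⟨a, ha, hab⟩
  rw [cf_wd, if_neg]
  rintro rfl
  rw [List.mem_singleton] at ha
  subst ha
  exact hab rfl

theorem cher_l (t : Br) (h : t ≠ leaf) : (node leaf t).cherries = t.cherries := by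
  cases t with
  | leaf => exact absurd rfl h
  | node a b => simp [cherries]

theorem cher_r (t : Br) (h : t ≠ leaf) : (node t leaf).cherries = t.cherries := by
  cases t with
  | leaf => exact absurd rfl h
  | node a b => simp [cherries]

theorem cher_n (s t : Br) (h : s ≠ leaf) : (node s t).cherries = s.cherries + t.cherries := by
  cases s with
  | leaf => exact absurd rfl h
  | node a b => simp [cherries]

theorem sk_cher : ∀ s : Br, s ≠ leaf → (sk s).deg = s.cherries := by
  intro s
  induction s with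
  | leaf => intro h; exact absurd rfl h
  | node l r hl hr =>
    intro _
    by_cases h1 : l = leaf
    · by_cases h2 : r = leaf
      · subst h1 h2
        rfl
      · subst h1
        rw [sk_lnode r h2, cher_l r h2, hr h2]
    · by_cases h2 : r = leaf
      · subst h2
        rw [sk_noder l h1, cher_r l h1, hl h1]
      · rw [sk_node l r h1 h2, cher_n l r h1]
        show (sk l).deg + (sk r).deg = _
        rw [hl h1, hr h2]

/-- the pendant leaf step -/
theorem pend (hD : S_DL K) (hB : S_BAS K) (hL : S_LD K) (γ : ℕ) (t : Br) (ht : t ≠ leaf)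
    (hc : t.cherries ≠ 1)
    (h : ∀ x ∈ (M K t).map (dl K), ∀ (a : ℕ × ℕ) (w : Wd), a.2 ≠ γ → cf x (a :: w) = 0) :
    False := by
  obtain ⟨hH, ⟨x, hx, hx0⟩, -, -, -⟩ := hB t ht
  have hn1 := Skeleton.deg_pos (sk t)
  have hn : (sk t).deg ≠ 1 := by rw [sk_cher t ht]; exact hc
  obtain ⟨w1, w2, h1, h2, h3⟩ := hL.1 1 (sk t).deg x le_rfl (by omega) (hH hx) hx0
  have hdl : dl K x ∈ (M K t).map (dl K) := Submodule.mem_map_of_mem hx
  have hdH := hD.2.2.2 _ x (hH hx)
  have key : ∀ w : Wd, cf (dl K x) w ≠ 0 → wt (w.take 1) = γ := by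
    intro w hw
    have hlen : w.length = (sk t).deg := by
      by_contra hcon
      exact hw (hdH w hcon)
    cases w with
    | nil => simp at hlen; omega
    | cons a w =>
      have : a.2 = γ := by
        by_contra hcon
        exact hw (h _ hdl a w hcon)
      simp [wt, this]
  exact h3 ((key w1 h1).trans (key w2 h2).symm)

end FSTaux

open FSTaux

theorem FST (K : Type u) [Field K] (hM : S_MUL K) (hD : S_DL K) (hB : S_BAS K) (hL : S_LD K) :
    S_FST K := by
  intro γ s
  induction s with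
  | leaf => intro h; exact absurd rfl h
  | node l r hl hr =>
    intro hne h
    by_cases hc : (node l r).cherries = 1
    · have hW := (hB (node l r) hne).2.2.2.2 hc
      rw [hW] at h ⊢
      have hγ : (node l r).deg - 1 = γ := by
        by_contra hcon
        have h1 := h (wd K [(0, (node l r).deg - 1)]) (Submodule.subset_span ⟨0, rfl⟩)
          (0, (node l r).deg - 1) [] hcon
        rw [cf_wd, if_pos rfl] at h1
        exact one_ne_zero h1
      rw [hγ]
      exact W_Eb γ
    · by_cases h1 : l = leaf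
      · by_cases h2 : r = leaf
        · subst h1 h2
          exact absurd rfl hc
        · subst h1
          exfalso
          have e : M K (node leaf r) = (M K r).map (dl K) := by
            cases r with
            | leaf => exact absurd rfl h2
            | node a b => rw [M]
          rw [e] at h
          exact pend hD hB hL γ r h2 (by rw [← cher_l r h2]; exact hc) h
      · by_cases h2 : r = leaf
        · subst h2
          exfalso
          have e : M K (node l leaf) = (M K l).map (dl K) := by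
            cases l with
            | leaf => exact absurd rfl h1
            | node a b => rw [M]
          rw [e] at h
          exact pend hD hB hL γ l h1 (by rw [← cher_r l h1]; exact hc) h
        · have e : M K (node l r) = br K (M K l) (M K r) := by
            cases l with
            | leaf => exact absurd rfl h1
            | node a b =>
              cases r with
              | leaf => exact absurd rfl h2
              | node c d => rw [M]
          rw [e] at h ⊢
          obtain ⟨hHl, hnl, hrl, -, -⟩ := hB l h1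
          obtain ⟨hHr, hnr, hrr, -, -⟩ := hB r h2
          refine br_Eb γ _ _ (hl h1 ?_) (hr h2 ?_)
          · exact node_first hM γ _ _ _ _ (Skeleton.deg_pos (sk r)) hHl hHr hrl hrr hnr h
          · exact node_first hM γ _ _ _ _ (Skeleton.deg_pos (sk l)) hHr hHl hrr hrl hnl
              (fun x hx => h x (br_comm _ _ hx))

end Pool.Agent.R325.BH
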