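import Pool.Agent.R325.BH.Base

/-!
BH-IM: commutator spaces are not in the image of the derivation.
-/

set_option linter.all false
universe u
namespace Pool.Agent.R325.BH

open Pool.Agent.Results.MP_5ecbac_al
open ThreeCherries ThreeCherries.Br Skeleton

attribute [local instance 100] LieRing.ofAssociativeRing

namespace IMp

variable {K : Type u} [Field K]

lemma cf_ext (x y : F K) (h : ∀ w, cf x w = cf y w) : x = y := by
  apply MonoidAlgebra.ext
  ext w
  exact h w.toList

lemma cf_zero (w : Wd) : cf (0 : F K) w = 0 := by simp [cf]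

lemma cf_sub (x y : F K) (w : Wd) : cf (x - y) w = cf x w - cf y w := by
  simp [cf]

lemma exists_cf (x : F K) (hx : x ≠ 0) : ∃ w, cf x w ≠ 0 := by
  by_contra h
  push Not at h
  exact hx (cf_ext x 0 fun w => by rw [h w, cf_zero])

/-- relabel a letter -/
def fm (r : ℕ → ℕ) (a : ℕ × ℕ) : ℕ × ℕ := (r a.1, a.2)

lemma fm_inj (r : ℕ → ℕ) (hr : Function.Injective r) : Function.Injective (fm r) := by
  rintro ⟨a, b⟩ ⟨c, d⟩ h
  simp only [fm, Prod.mk.injEq] at h
  rw [Prod.mk.injEq]
  exact ⟨hr h.1, h.2⟩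

lemma cf_rel (r : ℕ → ℕ) (hr : Function.Injective r) (x : F K) (w : Wd) :
    cf (rel K r x) (w.map (fm r)) = cf x w := by
  have h1 : (rel K r x).coeff = Finsupp.mapDomain (FreeMonoid.map (fm r)) x.coeff := rfl
  unfold cf
  rw [h1]
  have h2 : FreeMonoid.ofList (w.map (fm r)) = FreeMonoid.map (fm r) (FreeMonoid.ofList w) := rfl
  rw [h2]
  refine Finsupp.mapDomain_apply ?_ _ _
  intro a b hab
  have h3 : a.toList.map (fm r) = b.toList.map (fm r) := hab
  exact (List.map_injective_iff.2 (fm_inj r hr)) h3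

lemma cf_rel_range (r : ℕ → ℕ) (x : F K) (w : Wd) (h : cf (rel K r x) w ≠ 0) :
    ∃ w' : Wd, w = w'.map (fm r) := by
  have h1 : (rel K r x).coeff = Finsupp.mapDomain (FreeMonoid.map (fm r)) x.coeff := rfl
  unfold cf at h
  rw [h1] at h
  by_contra hne
  apply h
  refine Finsupp.mapDomain_notin_range _ _ ?_
  rintro ⟨v, hv⟩
  exact hne ⟨v.toList, congrArg FreeMonoid.toList hv.symm⟩

/-- the head label -/
def hl (w : Wd) : ℕ := (w.getD 0 (0, 0)).1

lemma hl_dn (k : ℕ) (w : Wd) : hl (dnW k w) = hl w := by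
  unfold hl dnW
  cases w with
  | nil => simp
  | cons a w =>
    cases k with
    | zero => simp
    | succ k => simp

lemma hl_map (r : ℕ → ℕ) (w : Wd) (hw : w ≠ []) : ∃ i, hl (w.map (fm r)) = r i := by
  cases w with
  | nil => exact absurd rfl hw
  | cons a w => exact ⟨a.1, rfl⟩

lemma hl_take (p : ℕ) (hp : 1 ≤ p) (w : Wd) : hl (w.take p) = hl w := by
  cases w with
  | nil => simp
  | cons a w =>
    cases p with
    | zero => omega
    | succ p => rfl

/-- projection to the words with even head label -/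
noncomputable def ev' (x : F K) : F K :=
  MonoidAlgebra.ofCoeff (x.coeff.filter (fun w : FreeMonoid (ℕ × ℕ) => hl w.toList % 2 = 0))

lemma cf_ev (x : F K) (w : Wd) : cf (ev' x) w = if hl w % 2 = 0 then cf x w else 0 := by
  unfold cf ev'
  rw [MonoidAlgebra.coeff_ofCoeff, Finsupp.filter_apply]
  rfl

end IMp

open IMp in
theorem IM (K : Type u) [Field K] (hM : S_MUL K) (hD : S_DL K) (hL : S_LD K) : S_IM K := by
  obtain ⟨-, hD2, -, hD4⟩ := hD
  intro p q P Q dp hp hq hP hQ hrP hrQ ⟨u0, hu0, hu0'⟩ ⟨v0, hv0, hv0'⟩ hwt N hN heq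
  have hr1 : Function.Injective (fun n : ℕ => 2 * n) := fun a b h => by
    simp only at h; omega
  have hr2 : Function.Injective (fun n : ℕ => 2 * n + 1) := fun a b h => by
    simp only at h; omega
  set u : F K := rel K (fun n => 2 * n) u0 with hu
  set v : F K := rel K (fun n => 2 * n + 1) v0 with hv
  have huP : u ∈ P := hrP _ u0 hu0
  have hvQ : v ∈ Q := hrQ _ v0 hv0
  have huH : u ∈ Hn K p := hP huP
  have hvH : v ∈ Hn K q := hQ hvQ
  -- labels
  have huE : ∀ w : Wd, cf u w ≠ 0 → hl w % 2 = 0 := by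
    intro w hw
    obtain ⟨w', rfl⟩ := cf_rel_range _ _ _ hw
    have hne : w' ≠ [] := by
      rintro rfl
      apply hw
      exact huH _ (by simp; omega)
    obtain ⟨i, hi⟩ := hl_map (fun n => 2 * n) w' hne
    rw [hi]
    omega
  have hvO : ∀ w : Wd, cf v w ≠ 0 → hl w % 2 = 1 := by
    intro w hw
    obtain ⟨w', rfl⟩ := cf_rel_range _ _ _ hw
    have hne : w' ≠ [] := by
      rintro rfl
      apply hw
      exact hvH _ (by simp; omega)
    obtain ⟨i, hi⟩ := hl_map (fun n => 2 * n + 1) w' hne
    rw [hi]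
    omega
  -- the element of `N`
  have h1 : u * v - v * u ∈ br K P Q := Submodule.subset_span ⟨u, huP, v, hvQ, rfl⟩
  rw [heq, Submodule.mem_map] at h1
  obtain ⟨x, hxN, hx⟩ := h1
  have hxH : x ∈ Hn K (p + q) := hN hxN
  set x' : F K := ev' x with hx'
  have hx'H : x' ∈ Hn K (p + q) := by
    intro w hw
    rw [hx', cf_ev, hxH w hw]
    simp
  -- coefficients of `dl x'`
  have hc : ∀ w : Wd, w.length = p + q → cf (dl K x') w = cf u (w.take p) * cf v (w.drop p) := by
    intro w hw
    have h2 : cf (dl K x') w = if hl w % 2 = 0 then cf (dl K x) w else 0 := by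
      rw [hD2, hD2]
      by_cases he : hl w % 2 = 0
      · rw [if_pos he]
        refine Finset.sum_congr rfl fun k _ => ?_
        rw [hx', cf_ev, hl_dn, if_pos he]
      · rw [if_neg he]
        refine Finset.sum_eq_zero fun k _ => ?_
        rw [hx', cf_ev, hl_dn, if_neg he]
        simp
    rw [h2, hx, cf_sub, hM p u v huH w (by omega), hM q v u hvH w (by omega)]
    by_cases he : hl w % 2 = 0
    · rw [if_pos he]
      have h3 : cf v (w.take q) = 0 := by
        by_contra h4
        have := hvO _ h4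
        rw [hl_take q hq] at this
        omega
      rw [h3, zero_mul, sub_zero]
    · rw [if_neg he]
      have h3 : cf u (w.take p) = 0 := by
        by_contra h4
        have := huE _ h4
        rw [hl_take p hp] at this
        omega
      rw [h3, zero_mul]
  have hdH : dl K x' ∈ Hn K (p + q) := hD4 _ _ hx'H
  -- `x'` is nonzero
  have hne : x' ≠ 0 := by
    intro h0
    obtain ⟨a, ha⟩ := exists_cf u0 hu0'
    obtain ⟨b, hb⟩ := exists_cf v0 hv0'
    have ha' : cf u (a.map (fm fun n => 2 * n)) ≠ 0 := by rw [hu, cf_rel _ hr1]; exact ha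
    have hb' : cf v (b.map (fm fun n => 2 * n + 1)) ≠ 0 := by rw [hv, cf_rel _ hr2]; exact hb
    have hal : (a.map (fm fun n => 2 * n)).length = p := by
      by_contra h5
      exact ha' (huH _ h5)
    have hbl : (b.map (fm fun n => 2 * n + 1)).length = q := by
      by_contra h5
      exact hb' (hvH _ h5)
    have h6 := hc (a.map (fm fun n => 2 * n) ++ b.map (fm fun n => 2 * n + 1))
      (by rw [List.length_append, hal, hbl])
    rw [h0, map_zero, cf_zero] at h6
    have h7 : (a.map (fm fun n => 2 * n) ++ b.map (fm fun n => 2 * n + 1)).take p =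
        a.map (fm fun n => 2 * n) := by
      rw [← hal]; exact List.take_left' rfl
    have h8 : (a.map (fm fun n => 2 * n) ++ b.map (fm fun n => 2 * n + 1)).drop p =
        b.map (fm fun n => 2 * n + 1) := by
      rw [← hal]; exact List.drop_left' rfl
    rw [h7, h8] at h6
    exact (mul_ne_zero ha' hb') h6.symm
  obtain ⟨w1, w2, k1, k2, k3⟩ := hL.1 p (p + q) x' hp (by omega) hx'H hne
  have key : ∀ w : Wd, cf (dl K x') w ≠ 0 → wt (w.take p) = dp := by
    intro w hw
    have hwl : w.length = p + q := by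
      by_contra h5
      exact hw (hdH _ h5)
    rw [hc w hwl] at hw
    by_contra h6
    exact hw (by rw [hwt u huP _ h6, zero_mul])
  exact k3 ((key w1 k1).trans (key w2 k2).symm)

end Pool.Agent.R325.BH
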