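import Pool.Agent.R325.BH.Base

set_option linter.all false
universe u
namespace Pool.Agent.R325.BH
namespace Key101

open Pool.Agent.Results.MP_5ecbac_al
open ThreeCherries ThreeCherries.Br Skeleton

variable (K : Type u) [Field K]

/-- the linear map with prescribed values at words -/
noncomputable def lin (g : Wd → F K) : F K →ₗ[K] F K :=
  (MonoidAlgebra.basis (FreeMonoid (ℕ × ℕ)) K).constr K (fun w => g w.toList)

lemma lin_wd (g : Wd → F K) (w : Wd) : lin K g (wd K w) = g w := by
  have h := (MonoidAlgebra.basis (FreeMonoid (ℕ × ℕ)) K).constr_basis K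
    (fun w => g w.toList) (FreeMonoid.ofList w)
  exact h

/-- coefficient as a linear map -/
noncomputable def cfL (w : Wd) : F K →ₗ[K] K :=
  Finsupp.lapply (FreeMonoid.ofList w) ∘ₗ (MonoidAlgebra.coeffLinearEquiv K).toLinearMap

lemma cfL_apply (w : Wd) (x : F K) : cfL K w x = cf x w := rfl

lemma cf_wd (u w : Wd) : cf (wd K u) w = if u = w then 1 else 0 := by
  classical
  unfold cf wd
  rw [MonoidAlgebra.coeff_single, Finsupp.single_apply]
  exact if_congr (Equiv.apply_eq_iff_eq _) rfl rfl

lemma wd_mul (a b : Wd) : wd K a * wd K b = wd K (a ++ b) := by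
  unfold wd
  rw [MonoidAlgebra.single_mul_single, one_mul, FreeMonoid.ofList_append]

lemma ext_cf {x y : F K} (h : ∀ w, cf x w = cf y w) : x = y := by
  apply MonoidAlgebra.ext
  ext m
  exact h m.toList

lemma ind {N : Type*} [AddCommMonoid N] [Module K N] {p : Wd → Prop} {x : F K}
    (hx : ∀ w, ¬ p w → cf x w = 0) {f g : F K →ₗ[K] N}
    (h : ∀ w, p w → f (wd K w) = g (wd K w)) : f x = g x := by
  have hx' : x ∈ MonoidAlgebra.supported K K {m : FreeMonoid (ℕ × ℕ) | p m.toList} :=
    MonoidAlgebra.mem_supported'.2 (fun m hm => hx m.toList hm)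
  rw [MonoidAlgebra.supported_eq_span_single] at hx'
  refine LinearMap.eqOn_span ?_ hx'
  rintro _ ⟨m, hm, rfl⟩
  exact h m.toList hm

lemma ind2 {p q : ℕ} {x y : F K} (hx : x ∈ Hn K p) (hy : y ∈ Hn K q)
    {N : Type*} [AddCommMonoid N] [Module K N]
    {f : F K →ₗ[K] N} {g : F K →ₗ[K] F K →ₗ[K] N}
    (h : ∀ a b : Wd, a.length = p → b.length = q → f (wd K (a ++ b)) = g (wd K a) (wd K b)) :
    f (x * y) = g x y := by
  have h1 : (f ∘ₗ LinearMap.mulRight K y) x = (g.flip y) x := by
    refine ind K (p := fun w => w.length = p) (fun w hw => hx w hw) fun a ha => ?_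
    show f (wd K a * y) = g (wd K a) y
    have h2 : (f ∘ₗ LinearMap.mulLeft K (wd K a)) y = (g (wd K a)) y := by
      refine ind K (p := fun w => w.length = q) (fun w hw => hy w hw) fun b hb => ?_
      show f (wd K a * wd K b) = g (wd K a) (wd K b)
      rw [wd_mul]
      exact h a b ha hb
    exact h2
  exact h1

/-- the bilinear map `(x, y) ↦ f x * g y` -/
noncomputable def bil (f g : F K →ₗ[K] F K) : F K →ₗ[K] F K →ₗ[K] F K :=
  LinearMap.mk₂ K (fun x y => f x * g y)
    (fun x x' y => by rw [map_add, add_mul])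
    (fun c x y => by rw [map_smul, smul_mul_assoc])
    (fun x y y' => by rw [map_add, mul_add])
    (fun c x y => by rw [map_smul, mul_smul_comm])

lemma bil_apply (f g : F K →ₗ[K] F K) (x y : F K) : bil K f g x y = f x * g y := rfl

lemma exists_sup_compl {A B : Submodule K (F K)} (h : Disjoint A B) :
    ∃ π : F K →ₗ[K] F K, (∀ x ∈ A, π x = 0) ∧ ∀ x ∈ B, π x = x := by
  obtain ⟨B', hle, hc⟩ := h.symm.exists_isCompl
  refine ⟨B'.projection A hc, fun x hx => ?_, fun x hx => ?_⟩
  · exact (Submodule.projection_apply_eq_zero_iff _).2 hx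
  · exact Submodule.projection_apply_of_mem_left _ (hle hx)

lemma part1 (β p q : ℕ) (P Q : Submodule K (F K)) (hq : 1 ≤ q) (hqp : q ≤ p)
    (hP : P ≤ Hn K p) (hQ : Q ≤ Hn K q) (y : F K) (hy : y ∈ br K P Q) (hy0 : y ≠ 0)
    (hyn : y ∈ Hn K (p + q)) (hyE : y ∈ Eb K β) : ∃ x ∈ Q, x ≠ 0 ∧ x ∈ Eb K β := by
  by_contra hcon
  push Not at hcon
  have hdis : Disjoint Q (Eb K β) := by
    rw [Submodule.disjoint_def]
    intro x hx hxE
    by_contra h0
    exact hcon x hx h0 hxE
  obtain ⟨π, hπ1, hπ2⟩ : ∃ π : F K →ₗ[K] F K, (∀ x ∈ Q, π x = 0) ∧ ∀ x ∈ Eb K β, π x = x := by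
    exact exists_sup_compl K hdis
  set Pi : F K →ₗ[K] F K := lin K (fun w => π (wd K (w.take q)) * wd K ((w.drop q).take (p - q)) *
    π (wd K (w.drop p))) with hPi
  have h1 : Pi y = (LinearMap.id : F K →ₗ[K] F K) y := by
    refine ind K (p := fun w => w.length = p + q ∧ ∀ a ∈ w, a.2 = β) ?_ ?_
    · intro w hw
      by_cases hl : w.length = p + q
      · have : ∃ a ∈ w, a.2 ≠ β := by
          by_contra h
          push Not at h
          exact hw ⟨hl, h⟩
        exact hyE w this
      · exact hyn w hl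
    · rintro w ⟨hl, hβ⟩
      have hmem : ∀ v : Wd, (∀ a ∈ v, a.2 = β) → wd K v ∈ Eb K β := by
        intro v hv w' hw'
        rw [cf_wd, if_neg]
        rintro rfl
        obtain ⟨a, ha, hab⟩ := hw'
        exact hab (hv a ha)
      rw [hPi, lin_wd, hπ2 _ (hmem _ fun a ha => hβ a (List.mem_of_mem_take ha)),
        hπ2 _ (hmem _ fun a ha => hβ a (List.mem_of_mem_drop ha)), wd_mul, wd_mul, LinearMap.id_apply]
      congr 1
      have : w.take p = w.take q ++ (w.drop q).take (p - q) := by
        conv_lhs => rw [show p = q + (p - q) by omega]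
        rw [List.take_add]
      rw [← this, List.take_append_drop]
  have h2 : ∀ z ∈ br K P Q, Pi z = 0 := by
    intro z hz
    have : br K P Q ≤ LinearMap.ker Pi := by
      refine Submodule.span_le.2 ?_
      rintro _ ⟨a, ha, b, hb, rfl⟩
      rw [SetLike.mem_coe, LinearMap.mem_ker, map_sub]
      have e1 : Pi (a * b) = bil K (lin K (fun w => π (wd K (w.take q)) * wd K (w.drop q))) π a b := by
        refine ind2 K (hP ha) (hQ hb) ?_
        intro u v hu hv
        rw [bil_apply, hPi, lin_wd, lin_wd, List.take_append_of_le_length (by omega),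
          List.drop_append_of_le_length (by omega)]
        have e2 : (u.drop q ++ v).take (p - q) = u.drop q := by
          rw [List.take_append_of_le_length (by rw [List.length_drop]; omega), List.take_of_length_le]
          rw [List.length_drop]; omega
        have e3 : (u ++ v).drop p = v := by
          rw [← hu, List.drop_left]
        rw [e2, e3]
      have e4 : Pi (b * a) = bil K π (lin K (fun w => wd K (w.take (p - q)) * π (wd K (w.drop (p - q))))) b a := by
        refine ind2 K (hQ hb) (hP ha) ?_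
        intro u v hu hv
        rw [bil_apply, hPi, lin_wd, lin_wd]
        have e2 : (u ++ v).take q = u := by rw [← hu, List.take_left]
        have e3 : (u ++ v).drop q = v := by rw [← hu, List.drop_left]
        have e5 : (u ++ v).drop p = v.drop (p - q) := by
          rw [List.drop_append, List.drop_of_length_le (by omega), List.nil_append, hu]
        rw [e2, e3, e5, mul_assoc]
      rw [e1, e4, bil_apply, bil_apply, hπ1 b hb, mul_zero, zero_mul, sub_zero]
    exact this hz
  exact hy0 (by rw [← LinearMap.id_apply (R := K) y, ← h1, h2 y hy])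

lemma mul_mem_Hn {p q : ℕ} {x y : F K} (hx : x ∈ Hn K p) (hy : y ∈ Hn K q) :
    x * y ∈ Hn K (p + q) := by
  intro w hw
  have h := ind2 K hx hy (f := cfL K w) (g := (0 : F K →ₗ[K] F K →ₗ[K] K)) (fun a b ha hb => by
    rw [cfL_apply, cf_wd, if_neg]
    · rfl
    · rintro rfl
      exact hw (by rw [List.length_append, ha, hb]))
  exact h

lemma br_le_Hn {p q : ℕ} {P Q : Submodule K (F K)} (hP : P ≤ Hn K p) (hQ : Q ≤ Hn K q) :
    br K P Q ≤ Hn K (p + q) := by
  refine Submodule.span_le.2 ?_
  rintro _ ⟨a, ha, b, hb, rfl⟩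
  have h1 := mul_mem_Hn K (hP ha) (hQ hb)
  have h2 := mul_mem_Hn K (hQ hb) (hP ha)
  rw [add_comm q p] at h2
  exact Submodule.sub_mem _ h1 h2

/-- rotation by `p` -/
noncomputable def rot (p : ℕ) : F K →ₗ[K] F K := lin K (fun w => wd K (w.drop p ++ w.take p))

lemma rot_mul {p q : ℕ} {x y : F K} (hx : x ∈ Hn K p) (hy : y ∈ Hn K q) :
    rot K p (x * y) = y * x := by
  have h := ind2 K hx hy (f := rot K p)
    (g := (bil K (LinearMap.id : F K →ₗ[K] F K) (LinearMap.id : F K →ₗ[K] F K)).flip)
    (fun a b ha hb => by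
      rw [LinearMap.flip_apply, bil_apply, LinearMap.id_apply, LinearMap.id_apply, rot, lin_wd,
        wd_mul, ← ha, List.drop_left, List.take_left])
  exact h

open Classical in
/-- restriction to the words with all exponents `β` -/
noncomputable def EE (β : ℕ) : F K →ₗ[K] F K :=
  lin K (fun w => if ∀ a ∈ w, a.2 = β then wd K w else 0)

lemma cf_zero (w : Wd) : cf (0 : F K) w = 0 := (cfL K w).map_zero

open Classical in
lemma cf_EE (β : ℕ) (x : F K) (w : Wd) :
    cf (EE K β x) w = if ∀ a ∈ w, a.2 = β then cf x w else 0 := by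
  by_cases h : ∀ a ∈ w, a.2 = β
  · rw [if_pos h]
    refine ind K (p := fun _ => True) (x := x) (fun w hw => absurd trivial hw)
      (f := cfL K w ∘ₗ EE K β) (g := cfL K w) (fun u _ => ?_)
    show cf (EE K β (wd K u)) w = cf (wd K u) w
    rw [EE, lin_wd]
    by_cases hu : ∀ a ∈ u, a.2 = β
    · rw [if_pos hu]
    · rw [if_neg hu, cf_zero, cf_wd, if_neg]
      rintro rfl
      exact hu h
  · rw [if_neg h]
    refine ind K (p := fun _ => True) (x := x) (fun w hw => absurd trivial hw)
      (f := cfL K w ∘ₗ EE K β) (g := 0) (fun u _ => ?_)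
    show cf (EE K β (wd K u)) w = 0
    rw [EE, lin_wd]
    by_cases hu : ∀ a ∈ u, a.2 = β
    · rw [if_pos hu, cf_wd, if_neg]
      rintro rfl
      exact h hu
    · rw [if_neg hu, cf_zero]

lemma EE_rot (β p : ℕ) (x : F K) : EE K β (rot K p x) = rot K p (EE K β x) := by
  classical
  refine ind K (p := fun _ => True) (x := x) (fun w hw => absurd trivial hw)
      (f := EE K β ∘ₗ rot K p) (g := rot K p ∘ₗ EE K β) (fun u _ => ?_)
  show EE K β (rot K p (wd K u)) = rot K p (EE K β (wd K u))
  have hperm : (u.drop p ++ u.take p).Perm u := by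
    have := List.perm_append_comm (l₁ := u.drop p) (l₂ := u.take p)
    rwa [List.take_append_drop] at this
  have hiff : (∀ a ∈ u.drop p ++ u.take p, a.2 = β) ↔ ∀ a ∈ u, a.2 = β :=
    forall_congr' fun a => by rw [hperm.mem_iff]
  rw [rot, lin_wd, EE, lin_wd, lin_wd]
  by_cases hu : ∀ a ∈ u, a.2 = β
  · rw [if_pos hu, if_pos (hiff.2 hu), lin_wd]
  · rw [if_neg hu, if_neg (fun h => hu (hiff.1 h)), map_zero]

lemma cf_rot {p q : ℕ} {x : F K} (hx : x ∈ Hn K (p + q)) (w : Wd) (hw : w.length = p + q) :
    cf (rot K p x) (w.drop p ++ w.take p) = cf x w := by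
  classical
  refine ind K (p := fun u => u.length = p + q) (x := x) (fun w hw => hx w hw)
      (f := cfL K (w.drop p ++ w.take p) ∘ₗ rot K p) (g := cfL K w) (fun u hu => ?_)
  show cf (rot K p (wd K u)) (w.drop p ++ w.take p) = cf (wd K u) w
  rw [rot, lin_wd, cf_wd, cf_wd]
  refine if_congr ⟨fun h => ?_, fun h => by rw [h]⟩ rfl rfl
  have h1 := List.append_inj h (by rw [List.length_drop, List.length_drop, hu, hw])
  rw [← List.take_append_drop p u, h1.1, h1.2, List.take_append_drop]

lemma part2 (hM : S_MUL K) (β p q : ℕ) (P Q : Submodule K (F K)) (hq : 1 ≤ q) (hqp : q ≤ p)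
    (hP : P ≤ Hn K p) (hQ : Q ≤ Hn K q) (y : F K) (hy : y ∈ br K P Q) (hy0 : y ≠ 0)
    (hyn : y ∈ Hn K (p + q)) (hyE : y ∈ Eb K β) (hQE : Q ≤ Eb K β) :
    ∃ x ∈ P, x ≠ 0 ∧ x ∈ Eb K β := by
  classical
  set PQ : Submodule K (F K) := Submodule.span K {z | ∃ x ∈ P, ∃ y ∈ Q, z = x * y} with hPQ
  have hPQn : PQ ≤ Hn K (p + q) := by
    refine Submodule.span_le.2 ?_
    rintro _ ⟨a, ha, b, hb, rfl⟩
    exact mul_mem_Hn K (hP ha) (hQ hb)
  obtain ⟨X, hX, hXy⟩ : ∃ X ∈ PQ, X - rot K p X = y := by
    have hle : br K P Q ≤ PQ.map (LinearMap.id - rot K p) := by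
      refine Submodule.span_le.2 ?_
      rintro _ ⟨a, ha, b, hb, rfl⟩
      refine ⟨a * b, Submodule.subset_span ⟨a, ha, b, hb, rfl⟩, ?_⟩
      rw [LinearMap.sub_apply, LinearMap.id_apply, rot_mul K (hP ha) (hQ hb)]
    obtain ⟨X, hX, hXy⟩ := hle hy
    exact ⟨X, hX, hXy⟩
  have hEy : EE K β y = y := by
    refine ext_cf K fun w => ?_
    rw [cf_EE]
    split_ifs with h
    · rfl
    · push Not at h
      exact (hyE w h).symm
  set X' : F K := X - EE K β X with hX'
  have hrot : rot K p X' = X' := by
    have h1 : EE K β X - rot K p (EE K β X) = y := by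
      rw [← EE_rot, ← map_sub, hXy, hEy]
    rw [hX', map_sub]
    have h2 : rot K p X = X - y := by rw [← hXy]; abel
    have h3 : rot K p (EE K β X) = EE K β X - y := by rw [← h1]; abel
    rw [h2, h3]; abel
  have cfX' : ∀ w, cf X' w = if ∀ a ∈ w, a.2 = β then 0 else cf X w := by
    intro w
    have h1 : cf X' w = cf X w - cf (EE K β X) w := (cfL K w).map_sub X (EE K β X)
    rw [h1, cf_EE]
    split_ifs <;> simp
  have hX'n : X' ∈ Hn K (p + q) := by
    intro w hw
    rw [cfX']
    split_ifs
    · rfl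
    · exact hPQn hX w hw
  have hA : ∀ w, cf X' w ≠ 0 → ∀ a ∈ w.drop p, a.2 = β := by
    intro w hw a ha
    by_contra hab
    have hl : w.length = p + q := by
      by_contra h
      exact hw (hX'n w h)
    apply hw
    rw [cfX']
    split_ifs
    · rfl
    · have hle : PQ ≤ LinearMap.ker (cfL K w) := by
        refine Submodule.span_le.2 ?_
        rintro _ ⟨x, hx, z, hz, rfl⟩
        rw [SetLike.mem_coe, LinearMap.mem_ker, cfL_apply, hM p x z (hP hx) w (by omega),
          hQE hz _ ⟨a, ha, hab⟩, mul_zero]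
      exact hle hX
  have hB : ∀ w : Wd, w.length = p + q → cf X' (w.drop p ++ w.take p) = cf X' w := by
    intro w hw
    have := cf_rot K hX'n w hw
    rwa [hrot] at this
  have hC : ∀ k i : ℕ, p + q - i ≤ k → ∀ w, cf X' w ≠ 0 → ∀ a, w[i]? = some a → a.2 = β := by
    intro k
    induction k with
    | zero =>
      intro i hi w hw a ha
      have hl : w.length = p + q := by
        by_contra h
        exact hw (hX'n w h)
      rw [List.getElem?_eq_none (by omega)] at ha
      cases ha
    | succ k ih =>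
      intro i hi w hw a ha
      have hl : w.length = p + q := by
        by_contra h
        exact hw (hX'n w h)
      by_cases hip : p ≤ i
      · refine hA w hw a (List.mem_of_getElem? (i := i - p) ?_)
        rw [List.getElem?_drop, show p + (i - p) = i by omega, ha]
      · refine ih (q + i) (by omega) (w.drop p ++ w.take p) (by rw [hB w hl]; exact hw) a ?_
        rw [List.getElem?_append_right (by rw [List.length_drop]; omega), List.length_drop, hl,
          show q + i - (p + q - p) = i by omega, List.getElem?_take_of_lt (by omega), ha]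
  have hX'0 : X' = 0 := by
    refine ext_cf K fun w => ?_
    rw [cf_zero]
    by_contra hw
    have : ∀ a ∈ w, a.2 = β := by
      intro a ha
      obtain ⟨i, hi⟩ := List.mem_iff_getElem?.1 ha
      exact hC _ i le_rfl w hw a hi
    exact hw (by rw [cfX', if_pos this])
  have hXE : X ∈ Eb K β := by
    intro w hw
    have h1 := cfX' w
    rw [hX'0, cf_zero, if_neg] at h1
    · exact h1.symm
    · push Not
      exact hw
  have hX0 : X ≠ 0 := by
    rintro rfl
    exact hy0 (by rw [← hXy, map_zero, sub_zero])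
  obtain ⟨w, hw⟩ : ∃ w, cf X w ≠ 0 := by
    by_contra h
    push Not at h
    exact hX0 (ext_cf K fun w => by rw [h w, cf_zero])
  have hl : w.length = p + q := by
    by_contra h
    exact hw (hPQn hX w h)
  set b : Wd := w.drop p with hb
  set R : F K →ₗ[K] F K := lin K (fun u => if u.drop p = b then wd K (u.take p) else 0) with hR
  set g : F K →ₗ[K] F K →ₗ[K] F K := LinearMap.mk₂ K (fun x y => cfL K b y • x)
    (fun x x' y => by rw [smul_add])
    (fun c x y => by rw [smul_comm])
    (fun x y y' => by rw [map_add, add_smul])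
    (fun c x y => by rw [map_smul, smul_eq_mul, mul_smul]) with hg
  have hRmul : ∀ x ∈ P, ∀ z ∈ Q, R (x * z) = cfL K b z • x := by
    intro x hx z hz
    have h := ind2 K (hP hx) (hQ hz) (f := R) (g := g) (fun u v hu hv => by
      show R (wd K (u ++ v)) = cfL K b (wd K v) • wd K u
      rw [cfL_apply, cf_wd, hR, lin_wd, ← hu, List.drop_left, List.take_left]
      split_ifs
      · rw [one_smul]
      · rw [zero_smul])
    exact h
  have hRX : R X ∈ P := by
    have hle : PQ ≤ P.comap R := by
      refine Submodule.span_le.2 ?_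
      rintro _ ⟨x, hx, z, hz, rfl⟩
      show R (x * z) ∈ P
      rw [hRmul x hx z hz]
      exact P.smul_mem _ hx
    exact hle hX
  have cfR : ∀ (x : F K) (a' : Wd), a'.length = p → cf (R x) a' = cf x (a' ++ b) := by
    intro x a' ha'
    refine ind K (p := fun _ => True) (x := x) (fun w hw => absurd trivial hw)
      (f := cfL K a' ∘ₗ R) (g := cfL K (a' ++ b)) (fun u _ => ?_)
    show cf (R (wd K u)) a' = cf (wd K u) (a' ++ b)
    rw [hR, lin_wd, cf_wd]
    by_cases hu : u.drop p = b
    · rw [if_pos hu, cf_wd]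
      refine if_congr ⟨fun h => ?_, fun h => ?_⟩ rfl rfl
      · rw [← List.take_append_drop p u, h, hu]
      · rw [h, ← ha', List.take_left]
    · rw [if_neg hu, cf_zero, if_neg]
      rintro rfl
      exact hu (by rw [← ha', List.drop_left])
  refine ⟨R X, hRX, ?_, ?_⟩
  · intro h0
    have h1 := cfR X (w.take p) (by rw [List.length_take]; omega)
    rw [h0, cf_zero, hb, List.take_append_drop] at h1
    exact hw h1.symm
  · rintro a' ⟨c, hc, hcβ⟩
    by_cases ha' : a'.length = p
    · rw [cfR X a' ha']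
      exact hXE _ ⟨c, List.mem_append_left _ hc, hcβ⟩
    · exact hP hRX a' ha'

end Key101

/-- the key step of the uniform lemma -/
theorem KEY (K : Type u) [Field K] (hM : S_MUL K) : S_KEY K := by
  intro β p q P Q hq hqp hP hQ y hy hy0 hyE
  have hyn := Key101.br_le_Hn K hP hQ hy
  exact ⟨Key101.part1 K β p q P Q hq hqp hP hQ y hy hy0 hyn hyE,
    fun h => Key101.part2 K hM β p q P Q hq hqp hP hQ y hy hy0 hyn hyE h⟩

end Pool.Agent.R325.BH
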