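import Pool.Agent.R325.BH.Base

set_option linter.all false
set_option autoImplicit false
universe u
namespace Pool.Agent.R325.BH

open Pool.Agent.Results.MP_5ecbac_al
open ThreeCherries ThreeCherries.Br Skeleton

attribute [local instance 100] LieRing.ofAssociativeRing

namespace LDP

/-- exponent of the `i`-th letter -/
def ex (w : Wd) (i : ℕ) : ℕ := (w.getD i (0, 0)).2

lemma wt_take (w : Wd) (p : ℕ) : wt (w.take p) = ∑ i ∈ Finset.range p, ex w i := by
  induction w generalizing p with
  | nil => simp [wt, ex]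
  | cons a w ih =>
    cases p with
    | zero => simp [wt]
    | succ p =>
      rw [Finset.sum_range_succ']
      have h := ih p
      have h1 : wt ((a :: w).take (p + 1)) = a.2 + wt (w.take p) := by
        simp [wt]
      have h2 : ∀ k, ex (a :: w) (k + 1) = ex w k := fun k => by simp [ex]
      have h3 : ex (a :: w) 0 = a.2 := by simp [ex]
      rw [h1, h3, h, Finset.sum_congr rfl (fun k _ => h2 k)]
      ring

lemma ex_up (w : Wd) (j i : ℕ) (hj : j < w.length) :
    ex (upW j w) i = ex w i + if i = j then 1 else 0 := by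
  unfold ex upW
  rw [List.getD_eq_getElem?_getD, List.getD_eq_getElem?_getD, List.getElem?_modify]
  by_cases h : j = i
  · subst h
    simp [List.getElem?_eq_getElem hj]
  · have h' : i ≠ j := fun e => h e.symm
    simp [h, h']

lemma ex_dn (w : Wd) (k i : ℕ) (hk : k < w.length) :
    ex (dnW k w) i = ex w i - if i = k then 1 else 0 := by
  unfold ex dnW
  rw [List.getD_eq_getElem?_getD, List.getD_eq_getElem?_getD, List.getElem?_modify]
  by_cases h : k = i
  · subst h
    simp [List.getElem?_eq_getElem hk]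
  · have h' : i ≠ k := fun e => h e.symm
    simp [h, h']

lemma len_up (w : Wd) (j : ℕ) : (upW j w).length = w.length := by
  unfold upW; simp

lemma len_dn (w : Wd) (j : ℕ) : (dnW j w).length = w.length := by
  unfold dnW; simp

lemma dn_up (w : Wd) (j : ℕ) : dnW j (upW j w) = w := by
  unfold dnW upW
  apply List.ext_getElem?
  intro i
  rw [List.getElem?_modify, List.getElem?_modify]
  by_cases h : j = i
  · cases hw : w[i]? with
    | none => simp
    | some a => simp [h]
  · cases hw : w[i]? with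
    | none => simp
    | some a => simp [h]

lemma main (K : Type u) [Field K] (hD : S_DL K) (n j : ℕ) (hj : j < n) (x : F K)
    (hx : x ∈ Hn K n) (hx0 : x ≠ 0) (φ : Wd → ℤ ×ₗ ℤ)
    (hφ : ∀ w : Wd, w.length = n → ∀ k < n, k ≠ j → 1 ≤ ex w k → φ w < φ (dnW k (upW j w))) :
    ∃ w : Wd, cf x w ≠ 0 ∧ w.length = n ∧ (∀ w', cf x w' ≠ 0 → φ w' ≤ φ w) ∧
      cf (dl K x) (upW j w) ≠ 0 := by
  have hne : x.coeff.support.Nonempty := by
    rw [Finset.nonempty_iff_ne_empty]
    intro h
    apply hx0
    rw [Finsupp.support_eq_empty] at h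
    exact (MonoidAlgebra.coeffLinearEquiv K).injective (by simpa using h)
  obtain ⟨v, hv, hmax⟩ := Finset.exists_max_image x.coeff.support (fun w => φ w.toList) hne
  have hcf : cf x v.toList ≠ 0 := by
    have := Finsupp.mem_support_iff.mp hv
    simpa [cf] using this
  have hlen : v.toList.length = n := by
    by_contra h
    exact hcf (hx _ h)
  have hmax' : ∀ w', cf x w' ≠ 0 → φ w' ≤ φ v.toList := by
    intro w' hw'
    have := hmax (FreeMonoid.ofList w') (Finsupp.mem_support_iff.mpr hw')
    simpa using this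
  refine ⟨v.toList, hcf, hlen, hmax', ?_⟩
  set w : Wd := v.toList with hw
  rw [hD.2.1, Finset.sum_eq_single j]
  · have h1 : (((upW j w).getD j (0, 0)).2 : ℕ) = ex w j + 1 := by
      have := ex_up w j j (by omega)
      simpa [ex] using this
    rw [if_pos (by omega), dn_up]
    exact hcf
  · intro k hk hkj
    rw [Finset.mem_range, len_up, hlen] at hk
    split_ifs with h
    · by_contra hc
      have h1 : ((upW j w).getD k (0, 0)).2 = ex w k := by
        have := ex_up w j k (by omega)
        rw [if_neg hkj] at this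
        simpa [ex] using this
      have h2 := hφ w hlen k hk hkj (by omega)
      exact absurd (hmax' _ hc) (not_le.mpr h2)
    · rfl
  · intro h
    exfalso
    apply h
    rw [Finset.mem_range, len_up, hlen]
    exact hj

lemma ex_dnup (w : Wd) (k j i : ℕ) (hk : k < w.length) (hj : j < w.length) (hkj : k ≠ j)
    (h1 : 1 ≤ ex w k) :
    (ex (dnW k (upW j w)) i : ℤ) = ex w i + (if i = j then 1 else 0) - (if i = k then 1 else 0) := by
  rw [ex_dn _ _ _ (by rw [len_up]; exact hk), ex_up _ _ _ hj]
  by_cases h2 : i = k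
  · subst h2
    rw [if_neg hkj]
    simp
    omega
  · rw [if_neg h2]
    push_cast
    simp [h2]

lemma wt_dnup (w : Wd) (k j p : ℕ) (hk : k < w.length) (hj : j < w.length) (hkj : k ≠ j)
    (h1 : 1 ≤ ex w k) :
    (wt ((dnW k (upW j w)).take p) : ℤ) =
      wt (w.take p) + (if j < p then 1 else 0) - (if k < p then 1 else 0) := by
  rw [wt_take, wt_take]
  push_cast
  rw [Finset.sum_congr rfl (fun i _ => ex_dnup w k j i hk hj hkj h1), Finset.sum_sub_distrib,
    Finset.sum_add_distrib]
  simp [Finset.sum_ite_eq']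

lemma wt_up (w : Wd) (j p : ℕ) (hj : j < w.length) :
    wt ((upW j w).take p) = wt (w.take p) + (if j < p then 1 else 0) := by
  rw [wt_take, wt_take, Finset.sum_congr rfl (fun i _ => ex_up w j i hj), Finset.sum_add_distrib]
  simp [Finset.sum_ite_eq']

lemma first (K : Type u) [Field K] (hD : S_DL K) (n p : ℕ) (hp : 1 ≤ p) (hpn : p ≤ n) (x : F K)
    (hx : x ∈ Hn K n) (hx0 : x ≠ 0) :
    ∃ w : Wd, cf (dl K x) (upW 0 w) ≠ 0 ∧ cf x w ≠ 0 ∧ w.length = n ∧
      (∀ w', cf x w' ≠ 0 → wt (w'.take p) ≤ wt (w.take p)) := by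
  obtain ⟨w, h1, h2, h3, h4⟩ := main K hD n 0 (by omega) x hx hx0
    (fun w => toLex (((wt (w.take p) : ℕ) : ℤ), ((ex w 0 : ℕ) : ℤ))) (by
      intro w hw k hk hk0 he
      rw [Prod.Lex.toLex_lt_toLex]
      dsimp only
      rw [wt_dnup w k 0 p (by omega) (by omega) hk0 he, ex_dnup w k 0 0 (by omega) (by omega) hk0 he]
      rw [if_pos (show 0 < p by omega), if_pos rfl, if_neg (Ne.symm hk0)]
      by_cases hkp : k < p
      · rw [if_pos hkp]; right; constructor <;> omega
      · rw [if_neg hkp]; left; omega)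
  refine ⟨w, h4, h1, h2, fun w' hw' => ?_⟩
  have := h3 w' hw'
  rw [Prod.Lex.toLex_le_toLex] at this
  dsimp only at this
  rcases this with h | h <;> omega

lemma second (K : Type u) [Field K] (hD : S_DL K) (n p : ℕ) (hp : 1 ≤ p) (hpn : p < n) (x : F K)
    (hx : x ∈ Hn K n) (hx0 : x ≠ 0) :
    ∃ w : Wd, cf (dl K x) (upW (n - 1) w) ≠ 0 ∧ cf x w ≠ 0 ∧ w.length = n := by
  obtain ⟨w, h1, h2, h3, h4⟩ := main K hD n (n - 1) (by omega) x hx hx0
    (fun w => toLex (-((wt (w.take p) : ℕ) : ℤ), ((ex w (n - 1) : ℕ) : ℤ))) (by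
      intro w hw k hk hk0 he
      rw [Prod.Lex.toLex_lt_toLex]
      dsimp only
      rw [wt_dnup w k (n - 1) p (by omega) (by omega) hk0 he,
        ex_dnup w k (n - 1) (n - 1) (by omega) (by omega) hk0 he]
      rw [if_neg (show ¬ (n - 1 < p) by omega), if_pos rfl, if_neg (Ne.symm hk0)]
      by_cases hkp : k < p
      · rw [if_pos hkp]; left; omega
      · rw [if_neg hkp]; right; constructor <;> omega)
  exact ⟨w, h4, h1, h2⟩

end LDP

open LDP

theorem LD (K : Type u) [Field K] (hD : S_DL K) : S_LD K := by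
  constructor
  · intro p n x hp hpn hx hx0
    obtain ⟨w, h1, h2, h3, h4⟩ := first K hD n p hp hpn.le x hx hx0
    obtain ⟨w', h1', h2', h3'⟩ := second K hD n p hp hpn x hx hx0
    refine ⟨upW 0 w, upW (n - 1) w', h1, h1', ?_⟩
    rw [wt_up w 0 p (by omega), wt_up w' (n - 1) p (by omega), if_pos (by omega : 0 < p),
      if_neg (by omega : ¬ (n - 1 < p))]
    have := h4 w' h2'
    omega
  · intro n x hn hx h0
    by_contra hx0
    obtain ⟨w, h1, _⟩ := first K hD n 1 le_rfl hn x hx hx0
    rw [h0] at h1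
    apply h1
    simp [cf]

end Pool.Agent.R325.BH
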