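import Pool.Agent.R325.BH.Base

set_option linter.all false
universe u
namespace Pool.Agent.R325.BH

theorem MUL (K : Type u) [Field K] : S_MUL K := by
  intro p x y hx w hp
  classical
  show (x * y).coeff (FreeMonoid.ofList w) =
    x.coeff (FreeMonoid.ofList (w.take p)) * y.coeff (FreeMonoid.ofList (w.drop p))
  have hsplit : FreeMonoid.ofList (w.take p) * FreeMonoid.ofList (w.drop p) =
      FreeMonoid.ofList w := by
    rw [← FreeMonoid.ofList_append, List.take_append_drop]
  rw [MonoidAlgebra.coeff_mul]
  unfold Finsupp.sum
  beta_reduce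
  rw [Finset.sum_eq_single (FreeMonoid.ofList (w.take p))]
  · rw [Finset.sum_eq_single (FreeMonoid.ofList (w.drop p))]
    · rw [if_pos hsplit]
    · intro m2 _ hm2
      rw [if_neg]
      intro h
      apply hm2
      exact mul_left_cancel (h.trans hsplit.symm)
    · intro h
      rw [Finsupp.notMem_support_iff.1 h]
      simp
  · intro m1 hm1 hne
    apply Finset.sum_eq_zero
    intro m2 _
    rw [if_neg]
    intro h
    apply hne
    have h1 : (FreeMonoid.toList m1).length = p := by
      by_contra hcon
      exact (Finsupp.mem_support_iff.1 hm1) (hx (FreeMonoid.toList m1) hcon)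
    have h2 := congrArg FreeMonoid.toList h
    rw [FreeMonoid.toList_mul, FreeMonoid.toList_ofList] at h2
    rw [← h2, ← h1, List.take_left]
    rfl
  · intro h
    apply Finset.sum_eq_zero
    intro m2 _
    rw [Finsupp.notMem_support_iff.1 h]
    simp

end Pool.Agent.R325.BH
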