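import Pool.Agent.R325.BH.Base

set_option linter.all false
universe u
namespace Pool.Agent.R325.BH

open Pool.Agent.Results.MP_5ecbac_al
open ThreeCherries ThreeCherries.Br Skeleton

attribute [local instance 100] LieRing.ofAssociativeRing

variable (K : Type u) [Field K]

namespace RTaux

theorem cf_wd (v w : Wd) : cf (wd K v) w = if v = w then 1 else 0 := by
  classical
  unfold cf wd
  rw [MonoidAlgebra.coeff_single, Finsupp.single_apply]
  by_cases h : v = w
  · rw [if_pos (by rw [h]), if_pos h]
  · rw [if_neg (fun h' => h (FreeMonoid.ofList.injective h')), if_neg h]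

theorem cf_add (x y : F K) (w : Wd) : cf (x + y) w = cf x w + cf y w := by
  simp only [cf]
  rw [MonoidAlgebra.coeff_add, Finsupp.add_apply]

theorem cf_sub (x y : F K) (w : Wd) : cf (x - y) w = cf x w - cf y w := by
  have h := cf_add K (x - y) y w
  rw [sub_add_cancel] at h
  rw [h, add_sub_cancel_right]

theorem cf_smul (c : K) (x : F K) (w : Wd) : cf (c • x) w = c * cf x w := by
  simp only [cf]
  rw [MonoidAlgebra.coeff_smul, Finsupp.smul_apply, smul_eq_mul]

theorem cf_zero (w : Wd) : cf (0 : F K) w = 0 := by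
  simp [cf]

theorem W_facts (γ : ℕ) (y : F K) (hy : y ∈ W K γ) : y ∈ Hn K 1 ∧
    ∀ b : ℕ × ℕ, b.2 ≠ γ → cf y [b] = 0 := by
  unfold W at hy
  induction hy using Submodule.span_induction with
  | mem y hy =>
    obtain ⟨i, rfl⟩ := hy
    refine ⟨fun w hw => ?_, fun b hb => ?_⟩
    · rw [cf_wd, if_neg]
      rintro rfl
      exact hw rfl
    · rw [cf_wd, if_neg]
      intro h
      apply hb
      have h1 := List.head_eq_of_cons_eq h
      rw [← h1]
  | zero => exact ⟨(Hn K 1).zero_mem, fun b _ => cf_zero K _⟩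
  | add y y' _ _ h h' =>
    refine ⟨(Hn K 1).add_mem h.1 h'.1, fun b hb => ?_⟩
    rw [cf_add, h.2 b hb, h'.2 b hb, add_zero]
  | smul c y _ h =>
    refine ⟨(Hn K 1).smul_mem c h.1, fun b hb => ?_⟩
    rw [cf_smul, h.2 b hb, mul_zero]

end RTaux

open RTaux in
theorem RT (hM : S_MUL K) : S_RT K := by
  intro β γ p P R hp hβγ hP hR hle z hz a w ha
  by_cases hlen : (a :: w).length = p
  swap
  · exact hP hz _ hlen
  have hlw : w.length + 1 = p := hlen
  -- the element of the commutator space
  set bN : F K := wd K [(a.1 + 1, β)] with hbN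
  have hbW : bN ∈ W K β := Submodule.subset_span ⟨a.1 + 1, rfl⟩
  have h1 : z * bN - bN * z ∈ br K R (W K γ) :=
    hle (Submodule.subset_span ⟨z, hz, bN, hbW, rfl⟩)
  -- the coefficient on the right-hand side vanishes
  have key : ∀ y ∈ br K R (W K γ), cf y ((a :: w) ++ [(a.1 + 1, β)]) = 0 := by
    intro y hy
    unfold br at hy
    induction hy using Submodule.span_induction with
    | mem y hy =>
      obtain ⟨c, hc, d, hd, rfl⟩ := hy
      obtain ⟨hd1, hd2⟩ := W_facts K γ d hd
      rw [cf_sub, hM p c d (hR hc) _ (by rw [List.length_append, hlen]; omega),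
        hM 1 d c hd1 _ (by simp)]
      rw [← hlen, List.drop_left, hd2 _ hβγ, mul_zero]
      have h2 : ((a :: w) ++ [(a.1 + 1, β)]).take 1 = [a] := rfl
      rw [h2, hd2 a ha, zero_mul, sub_zero]
    | zero => exact cf_zero K _
    | add y y' _ _ h h' => rw [cf_add, h, h', add_zero]
    | smul c y _ h => rw [cf_smul, h, mul_zero]
  have h3 := key _ h1
  rw [cf_sub, hM p z bN (hP hz) _ (by rw [List.length_append, hlen]; omega),
    hM 1 bN z (W_facts K β bN hbW).1 _ (by simp)] at h3
  have h4 : ((a :: w) ++ [(a.1 + 1, β)]).take 1 = [a] := rfl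
  have h5 : cf bN [a] = 0 := by
    rw [hbN, cf_wd, if_neg]
    intro h
    have h6 := List.head_eq_of_cons_eq h
    have h7 := congrArg Prod.fst h6
    simp at h7
  rw [h4, h5, zero_mul, sub_zero] at h3
  rw [← hlen, List.take_left, List.drop_left, hbN, cf_wd, if_pos rfl, mul_one] at h3
  exact h3

end Pool.Agent.R325.BH
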