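import Pool.Agent.R325.BH.Base

/-! Symmetry of the marked spaces. -/

set_option linter.all false
universe u
namespace Pool.Agent.R325.BH

open Pool.Agent.Results.MP_5ecbac_al
open ThreeCherries ThreeCherries.Br Skeleton

theorem br_le_symm (K : Type u) [Field K] (P Q : Submodule K (F K)) : br K P Q ≤ br K Q P := by
  unfold br
  rw [Submodule.span_le]
  rintro z ⟨x, hx, y, hy, rfl⟩
  have h : y * x - x * y ∈ Submodule.span K {z | ∃ x ∈ Q, ∃ y ∈ P, z = x * y - y * x} :=
    Submodule.subset_span ⟨y, hy, x, hx, rfl⟩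
  have h2 := Submodule.neg_mem _ h
  rw [neg_sub] at h2
  exact h2

theorem SYM (K : Type u) [Field K] : S_SYM K := by
  intro A B
  rcases A with _ | ⟨a, b⟩ <;> rcases B with _ | ⟨c, d⟩
  · rfl
  · simp only [M]
  · simp only [M]
  · simp only [M]
    exact le_antisymm (br_le_symm K _ _) (br_le_symm K _ _)

end Pool.Agent.R325.BH
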