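import Pool.Agent.R325.BH.Base

set_option linter.all false
universe u
namespace Pool.Agent.R325.BH

open Pool.Agent.Results.MP_5ecbac_al
open ThreeCherries ThreeCherries.Br Skeleton

attribute [local instance 100] LieRing.ofAssociativeRing

namespace UNIaux

lemma sk_deg_ch : ∀ s : Br, s ≠ leaf → (sk s).deg = s.cherries := by
  intro s
  induction s with
  | leaf => intro h; exact absurd rfl h
  | node l r hl hr =>
    intro _
    by_cases h1 : l = leaf
    · by_cases h2 : r = leaf
      · subst h1 h2; simp [sk, deg, cherries]
      · subst h1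
        rw [sk_lnode r h2, hr h2, cherries_node leaf r (by tauto)]; simp [cherries]
    · by_cases h2 : r = leaf
      · subst h2
        rw [sk_noder l h1, hl h1, cherries_node l leaf (by tauto)]; simp [cherries]
      · rw [sk_node l r h1 h2, cherries_node l r (by tauto)]
        simp only [deg]
        rw [hl h1, hr h2]

lemma ch_pos (s : Br) (hs : s ≠ leaf) : 1 ≤ s.cherries := by
  cases s with
  | leaf => exact absurd rfl hs
  | node l r => exact cherries_pos l r

variable (K : Type u) [Field K]

lemma cf_add (x y : F K) (w : Wd) : cf (x + y) w = cf x w + cf y w := by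
  simp only [cf]; rw [MonoidAlgebra.coeff_add, Finsupp.add_apply]

lemma cf_sub (x y : F K) (w : Wd) : cf (x - y) w = cf x w - cf y w := by
  simp only [cf]; rw [MonoidAlgebra.coeff_sub, Finsupp.sub_apply]

lemma cf_wd (v w : Wd) : cf (wd K v) w = if v = w then 1 else 0 := by
  classical
  simp only [cf, wd]
  rw [MonoidAlgebra.coeff_single, Finsupp.single_apply]
  by_cases h : v = w
  · subst h; simp
  · rw [if_neg h, if_neg (fun hh => h (FreeMonoid.ofList.injective hh))]

lemma cf_zero_all (x : F K) (h : ∀ w, cf x w = 0) : x = 0 := by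
  ext w
  exact h w.toList

lemma W_cf (γ : ℕ) (x : F K) (hx : x ∈ W K γ) (w : Wd) (hw : ∀ i, w ≠ [(i, γ)]) : cf x w = 0 := by
  have h2 : x ∈ ({ carrier := {x | cf x w = 0}
                   add_mem' := by
                    intro a b ha hb
                    simp only [Set.mem_setOf_eq] at *
                    rw [cf_add, ha, hb, add_zero]
                   zero_mem' := by simp [cf]
                   smul_mem' := by
                    intro c a ha
                    simp only [Set.mem_setOf_eq, cf] at *
                    rw [MonoidAlgebra.coeff_smul, Finsupp.smul_apply, ha, smul_zero] } : Submodule K (F K)) := by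
    refine (Submodule.span_le.2 ?_) hx
    rintro z ⟨i, rfl⟩
    show cf (wd K [(i, γ)]) w = 0
    rw [cf_wd, if_neg (fun h => hw i h.symm)]
  exact h2

lemma W_Eb (β : ℕ) : W K β ≤ Eb K β := by
  intro x hx w hw
  apply W_cf K β x hx
  rintro i rfl
  obtain ⟨a, ha, hb⟩ := hw
  simp only [List.mem_singleton] at ha
  subst ha
  exact hb rfl

lemma M_cherry (l r : Br) (hl : l ≠ leaf) (hr : r ≠ leaf) :
    M K (node l r) = br K (M K l) (M K r) := by
  cases l with
  | leaf => exact absurd rfl hl
  | node a b =>
    cases r with
    | leaf => exact absurd rfl hr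
    | node c d => rw [M]

lemma M_l (r : Br) (hr : r ≠ leaf) : M K (node leaf r) = (M K r).map (dl K) := by
  cases r with
  | leaf => exact absurd rfl hr
  | node c d => rw [M]

lemma M_r (l : Br) (hl : l ≠ leaf) : M K (node l leaf) = (M K l).map (dl K) := by
  cases l with
  | leaf => exact absurd rfl hl
  | node c d => rw [M]

lemma wt_take_one (β : ℕ) (w : Wd) (hl : 1 ≤ w.length) (h : ∀ a ∈ w, a.2 = β) :
    wt (w.take 1) = β := by
  cases w with
  | nil => simp at hl
  | cons a w => simp [wt, h a (by simp)]

lemma dl_no (hD : S_DL K) (hL : S_LD K) (β n : ℕ) (hn : 2 ≤ n) (y : F K) (hy : y ∈ Hn K n)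
    (h0 : dl K y ≠ 0) (hE : dl K y ∈ Eb K β) : False := by
  have hy0 : y ≠ 0 := by rintro rfl; exact h0 (map_zero _)
  obtain ⟨w1, w2, h1, h2, h3⟩ := hL.1 1 n y le_rfl (by omega) hy hy0
  have hH := hD.2.2.2 n y hy
  have key : ∀ w : Wd, cf (dl K y) w ≠ 0 → wt (w.take 1) = β := by
    intro w hw
    apply wt_take_one
    · by_contra hlen
      exact hw (hH w (by omega))
    · intro a ha
      by_contra hab
      exact hw (hE w ⟨a, ha, hab⟩)
  exact h3 ((key w1 h1).trans (key w2 h2).symm)

lemma mul_cf (hM : S_MUL K) (β p : ℕ) (x y : F K) (hx : x ∈ Hn K p) (hxE : x ∈ Eb K β)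
    (hyE : y ∈ Eb K β) (w : Wd) (hp : p ≤ w.length) (hw : ∃ a ∈ w, a.2 ≠ β) :
    cf (x * y) w = 0 := by
  rw [hM p x y hx w hp]
  obtain ⟨a, ha, hb⟩ := hw
  have h2 : a ∈ w.take p ++ w.drop p := by rw [List.take_append_drop]; exact ha
  rw [List.mem_append] at h2
  rcases h2 with h2 | h2
  · rw [hxE _ ⟨a, h2, hb⟩, zero_mul]
  · rw [hyE _ ⟨a, h2, hb⟩, mul_zero]

end UNIaux

open UNIaux in
theorem UNI (K : Type u) [Field K] (hM : S_MUL K) (hD : S_DL K) (hB : S_BAS K) (hS : S_SYM K)
    (hL : S_LD K) (hK : S_KEY K) : S_UNI K := by
  intro β s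
  induction s with
  | leaf => intro h; exact absurd rfl h
  | node l r ihl ihr =>
    intro hs
    have hBs := hB (node l r) hs
    by_cases hc : (node l r).cherries = 1
    · have hMs := hBs.2.2.2.2 hc
      have hdp := ThreeCherries.deg_pos (node l r)
      constructor
      · rintro ⟨x, hx, hx0, hxE⟩
        left
        refine ⟨hc, ?_⟩
        rw [hMs] at hx
        by_contra hdeg
        apply hx0
        apply cf_zero_all
        intro w
        by_cases hw : ∀ i, w ≠ [(i, (node l r).deg - 1)]
        · exact W_cf K _ x hx w hw
        · push Not at hw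
          obtain ⟨i, rfl⟩ := hw
          apply hxE
          exact ⟨_, List.mem_singleton.2 rfl, by simp only; omega⟩
      · intro hU
        rcases hU with ⟨_, hdeg⟩ | ⟨h1, h2, _, _⟩
        · rw [hMs, hdeg]
          exact W_Eb K β
        · rw [cherries_node l r (by tauto)] at hc
          have := ch_pos l h1
          have := ch_pos r h2
          omega
    · have hch2 : 2 ≤ (node l r).cherries := by
        have := cherries_pos l r
        omega
      by_cases h1 : l = leaf
      · subst h1
        have h2 : r ≠ leaf := by
          rintro rfl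
          exact hc (by simp [cherries])
        constructor
        · rintro ⟨x, hx, hx0, hxE⟩
          exfalso
          rw [M_l K r h2] at hx
          obtain ⟨y, hy, rfl⟩ := hx
          refine dl_no K hD hL β (sk r).deg ?_ y ((hB r h2).1 hy) hx0 hxE
          rw [sk_deg_ch r h2]
          rw [cherries_node leaf r (by tauto)] at hch2
          simpa [cherries] using hch2
        · rintro (⟨h, _⟩ | ⟨h, _⟩)
          · exact absurd h hc
          · exact absurd rfl h
      · by_cases h2 : r = leaf
        · subst h2
          constructor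
          · rintro ⟨x, hx, hx0, hxE⟩
            exfalso
            rw [M_r K l h1] at hx
            obtain ⟨y, hy, rfl⟩ := hx
            refine dl_no K hD hL β (sk l).deg ?_ y ((hB l h1).1 hy) hx0 hxE
            rw [sk_deg_ch l h1]
            rw [cherries_node l leaf (by tauto)] at hch2
            simpa [cherries] using hch2
          · rintro (⟨h, _⟩ | ⟨_, h, _⟩)
            · exact absurd h hc
            · exact absurd rfl h
        · have hbl := hB l h1
          have hbr := hB r h2
          have hpl := ThreeCherries.deg_pos (sk l)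
          have hpr := ThreeCherries.deg_pos (sk r)
          constructor
          · rintro ⟨x, hx, hx0, hxE⟩
            right
            refine ⟨h1, h2, ?_⟩
            rcases le_total (sk r).deg (sk l).deg with hle | hle
            · rw [M_cherry K l r h1 h2] at hx
              obtain ⟨k1, k2⟩ := hK β _ _ (M K l) (M K r) hpr hle hbl.1 hbr.1 x hx hx0 hxE
              have u1 := (ihr h2).1 k1
              exact ⟨(ihl h1).1 (k2 ((ihr h2).2 u1)), u1⟩
            · rw [hS l r, M_cherry K r l h2 h1] at hx
              obtain ⟨k1, k2⟩ := hK β _ _ (M K r) (M K l) hpl hle hbr.1 hbl.1 x hx hx0 hxE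
              have u1 := (ihl h1).1 k1
              exact ⟨u1, (ihr h2).1 (k2 ((ihl h1).2 u1))⟩
          · rintro (⟨h, _⟩ | ⟨_, _, u1, u2⟩)
            · exact absurd h hc
            · have e1 := (ihl h1).2 u1
              have e2 := (ihr h2).2 u2
              have hH := hBs.1
              rw [sk_node l r h1 h2] at hH
              rw [M_cherry K l r h1 h2] at hH ⊢
              refine Submodule.span_le.2 ?_
              rintro z ⟨x, hx, y, hy, rfl⟩ w hw
              by_cases hlen : w.length = (sk l).deg + (sk r).deg
              · rw [cf_sub, mul_cf K hM β (sk l).deg x y (hbl.1 hx) (e1 hx) (e2 hy) w (by omega) hw,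
                  mul_cf K hM β (sk r).deg y x (hbr.1 hy) (e2 hy) (e1 hx) w (by omega) hw, sub_zero]
              · exact hH (Submodule.subset_span ⟨x, hx, y, hy, rfl⟩) w (by simpa [deg] using hlen)

end Pool.Agent.R325.BH
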