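import Pool.Agent.R325.BH.Base

/-!
# MP_5ecbac_al, piece VEQ: equivalent identities have equal verbal subspaces
-/

set_option linter.all false
universe u
namespace Pool.Agent.R325.BH

open Pool.Agent.Results.MP_5ecbac_al
open ThreeCherries ThreeCherries.Br Skeleton

namespace VEQaux

variable (K : Type u) [Field K]

/-- the verbal subspace as an ideal -/
def VI (A : Type u) [LieRing A] [LieAlgebra K A] (s : Br) : LieIdeal K A :=
  { V K A s with
    lie_mem := fun {x m} hm => by
      have := V_der K (LieAlgebra.ad K A x : A →ₗ[K] A)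
        (fun a b => by
          simp only [LieAlgebra.ad_apply]
          exact leibniz_lie x a b) s m hm
      rw [LieAlgebra.ad_apply] at this
      exact this }

theorem mem_VI (A : Type u) [LieRing A] [LieAlgebra K A] (s : Br) (x : A) :
    x ∈ VI K A s ↔ x ∈ V K A s := Iff.rfl

theorem ev_mk (A : Type u) [LieRing A] [LieAlgebra K A] (I : LieIdeal K A) (s : Br) : ∀ x : ℕ → A,
    (LieSubmodule.Quotient.mk (ev s x) : A ⧸ I) = ev s (fun i => (LieSubmodule.Quotient.mk (x i) : A ⧸ I)) := by
  induction s with
  | leaf => intro x; rfl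
  | node l r hl hr =>
    intro x
    simp only [ev]
    rw [LieSubmodule.Quotient.mk_bracket, hl, hr]

theorem V_le_of (s t : Br) (h : EquivId K s t) (A : Type u) [LieRing A] [LieAlgebra K A] :
    V K A t ≤ V K A s := by
  have hs : Holds (A ⧸ VI K A s) s := by
    intro x
    have hx : ∀ i, ∃ y : A, (LieSubmodule.Quotient.mk y : A ⧸ VI K A s) = x i := fun i =>
      LieSubmodule.Quotient.surjective_mk' (VI K A s) (x i)
    choose y hy using hx
    have e : x = fun i => (LieSubmodule.Quotient.mk (y i) : A ⧸ VI K A s) := funext fun i => (hy i).symm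
    rw [e, ← ev_mk, LieSubmodule.Quotient.mk_eq_zero']
    exact ev_mem K s y
  have ht : Holds (A ⧸ VI K A s) t := (h (A ⧸ VI K A s)).1 hs
  refine (V_le K t).trans ?_
  rw [Submodule.span_le]
  rintro _ ⟨y, rfl⟩
  have h1 := ht (fun i => (LieSubmodule.Quotient.mk (y i) : A ⧸ VI K A s))
  rw [← ev_mk, LieSubmodule.Quotient.mk_eq_zero'] at h1
  exact h1

end VEQaux

theorem VEQ (K : Type u) [Field K] : S_VEQ K := by
  intro s t h A _ _
  exact le_antisymm (VEQaux.V_le_of K t s (fun B _ _ => (h B).symm) A) (VEQaux.V_le_of K s t h A)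

end Pool.Agent.R325.BH
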