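import Pool.Agent.R325.BH.TREE2
import Pool.Agent.R325.BH.MUL
import Pool.Agent.R325.BH.DL
import Pool.Agent.R325.BH.SYM
import Pool.Agent.R325.BH.VEQ
import Pool.Agent.R325.BH.BAS
import Pool.Agent.R325.BH.MEQ
import Pool.Agent.R325.BH.LD
import Pool.Agent.R325.BH.KEY
import Pool.Agent.R325.BH.UNI
import Pool.Agent.R325.BH.CAN
import Pool.Agent.R325.BH.RT
import Pool.Agent.R325.BH.FST
import Pool.Agent.R325.BH.IM

set_option linter.all false
universe u
namespace Pool.Agent.R325.BH

open Pool.Agent.Results.MP_5ecbac_al
open ThreeCherries ThreeCherries.Br Skeleton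

attribute [local instance 100] LieRing.ofAssociativeRing

/-- a positive answer for the skeleton gives one for the tree -/
theorem good_of_PT (K : Type u) [Field K] (s : Br) (hs : s ≠ leaf) (h : PT K s)
    (hg : Good K (sk s)) : Good K s := by
  intro t ht
  have hd := deg_eq K s t ht
  have htl : t ≠ leaf := by
    rintro rfl
    have := deg_two_of hs
    simp only [deg] at hd
    omega
  have hM := MUL K
  have hD := DL K
  have hL := LD K hD
  have hB := BAS K hM hD hL
  exact h t htl hd (hg _ (skeleton K s t hs htl ht))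
    (MEQ K (VEQ.{u} K) hM hD hB s t hs htl ht)

theorem all_PT (K : Type u) [Field K] (s : Br) (hs : Cls s) (hl : s ≠ leaf) : PT K s := by
  have hM := MUL K
  have hD := DL K
  have hL := LD K hD
  have hB := BAS K hM hD hL
  have hS := SYM K
  intro t ht
  exact TREE K hB hS hL (UNI K hM hD hB hS hL (KEY K hM)) (CAN K hM hD) (FST K hM hD hB hL)
    (RT K hM) (IM K hM hD hL) s hs hl t ht

end Pool.Agent.R325.BH
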