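import Pool.Agent.R325.BH.Base3

/-! Piece KIL of project BH (MP_5ecbac_al), helper973: restriction to a set of labels. -/

set_option linter.all false
universe u
namespace Pool.Agent.R325.BH

open Pool.Agent.Results.MP_5ecbac_al
open ThreeCherries ThreeCherries.Br Skeleton

attribute [local instance 100] LieRing.ofAssociativeRing

namespace KILaux

open Classical in
/-- the restriction endomorphism on words -/
noncomputable def fm (K : Type u) [Field K] (L : ℕ → Prop) : FreeMonoid (ℕ × ℕ) →* F K :=
  FreeMonoid.lift (fun a => if L a.1 then wd K [a] else 0)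

/-- the restriction endomorphism -/
noncomputable def rho (K : Type u) [Field K] (L : ℕ → Prop) : F K →ₐ[K] F K :=
  MonoidAlgebra.lift K (F K) (FreeMonoid (ℕ × ℕ)) (fm K L)

open Classical in
lemma fm_word (K : Type u) [Field K] (L : ℕ → Prop) (w : Wd) :
    fm K L (FreeMonoid.ofList w) = if (∀ a ∈ w, L a.1) then wd K w else 0 := by
  induction w with
  | nil =>
    have : (FreeMonoid.ofList ([] : Wd)) = 1 := rfl
    rw [this, map_one, if_pos (by simp)]
    rfl
  | cons b w ih =>
    have e : FreeMonoid.ofList (b :: w) = FreeMonoid.of b * FreeMonoid.ofList w := rfl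
    rw [e, map_mul, ih]
    have e2 : fm K L (FreeMonoid.of b) = if L b.1 then wd K [b] else 0 := by
      unfold fm
      rw [FreeMonoid.lift_eval_of]
    rw [e2]
    by_cases hb : L b.1
    · by_cases hw : ∀ a ∈ w, L a.1
      · rw [if_pos hb, if_pos hw, if_pos (by
          intro a ha
          rcases List.mem_cons.1 ha with h | h
          · rw [h]; exact hb
          · exact hw a h)]
        unfold wd
        rw [MonoidAlgebra.single_mul_single, one_mul]
        rfl
      · rw [if_neg hw, mul_zero, if_neg (fun h => hw fun a ha => h a (List.mem_cons_of_mem b ha))]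
    · rw [if_neg hb, zero_mul, if_neg (fun h => hb (h b List.mem_cons_self))]

lemma cf_add (K : Type u) [Field K] (x y : F K) (w : Wd) : cf (x + y) w = cf x w + cf y w := by
  unfold cf
  rw [MonoidAlgebra.coeff_add, Finsupp.add_apply]

lemma cf_smul (K : Type u) [Field K] (c : K) (x : F K) (w : Wd) : cf (c • x) w = c * cf x w := by
  unfold cf
  rw [MonoidAlgebra.coeff_smul, Finsupp.smul_apply, smul_eq_mul]

lemma cf_zero (K : Type u) [Field K] (w : Wd) : cf (0 : F K) w = 0 := by
  simp [cf]

lemma ext_cf (K : Type u) [Field K] {x y : F K} (h : ∀ w, cf x w = cf y w) : x = y := by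
  have h1 : x.coeff = y.coeff := by
    ext m
    exact h m.toList
  exact MonoidAlgebra.coeff_injective h1

open Classical in
lemma cf_rho (K : Type u) [Field K] (L : ℕ → Prop) (x : F K) (w : Wd) :
    cf (rho K L x) w = if (∀ a ∈ w, L a.1) then cf x w else 0 := by
  induction x using MonoidAlgebra.induction_linear with
  | zero => rw [map_zero, cf_zero]; split_ifs <;> rfl
  | add x y hx hy =>
    rw [map_add, cf_add, hx, hy, cf_add]
    split_ifs
    · rfl
    · exact add_zero 0
  | single m c =>
    have e1 : rho K L (MonoidAlgebra.single m c) = c • fm K L m := by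
      unfold rho
      rw [MonoidAlgebra.lift_single]
    have e2 : m = FreeMonoid.ofList m.toList := rfl
    have e3 : (MonoidAlgebra.single m c : F K) = c • wd K m.toList := by
      unfold wd
      rw [MonoidAlgebra.smul_single, smul_eq_mul, mul_one]
      rfl
    rw [e1, e3, cf_smul, cf_smul]
    conv_lhs => rw [e2, fm_word]
    have e4 : ∀ v w : Wd, cf (wd K v) w = if v = w then 1 else 0 := by
      intro v w
      unfold cf wd
      rw [MonoidAlgebra.coeff_single, Finsupp.single_apply]
      by_cases h : v = w
      · rw [if_pos h, if_pos (by rw [h])]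
      · rw [if_neg h, if_neg (fun h' => h (FreeMonoid.ofList.injective h'))]
    rw [e4]
    by_cases hm : m.toList = w
    · rw [if_pos hm]
      by_cases hL : ∀ a ∈ m.toList, L a.1
      · rw [if_pos hL, e4, if_pos hm, if_pos (by rw [← hm]; exact hL)]
      · rw [if_neg hL, cf_zero, if_neg (by rw [← hm]; exact hL), mul_zero]
    · rw [if_neg hm, mul_zero]
      by_cases hL : ∀ a ∈ m.toList, L a.1
      · rw [if_pos hL, e4, if_neg hm, mul_zero]
        split_ifs <;> rfl
      · rw [if_neg hL, cf_zero, mul_zero]
        split_ifs <;> rfl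

lemma dn_lab (L : ℕ → Prop) (k : ℕ) (w : Wd) : (∀ a ∈ dnW k w, L a.1) ↔ (∀ a ∈ w, L a.1) := by
  have h : (dnW k w).map Prod.fst = w.map Prod.fst := by
    unfold dnW
    refine List.ext_getElem (by simp) fun i h1 h2 => ?_
    simp only [List.getElem_map, List.getElem_modify]
    split_ifs <;> rfl
  have h1 : ∀ v : Wd, (∀ a ∈ v, L a.1) ↔ ∀ i ∈ v.map Prod.fst, L i := by
    intro v
    simp only [List.mem_map, forall_exists_index, and_imp, forall_apply_eq_imp_iff₂]
  rw [h1, h1, h]

lemma rho_dl (K : Type u) [Field K] (hD : S_DL K) (L : ℕ → Prop) (x : F K) :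
    rho K L (dl K x) = dl K (rho K L x) := by
  classical
  apply ext_cf
  intro w
  rw [cf_rho, hD.2.1, hD.2.1]
  by_cases hw : ∀ a ∈ w, L a.1
  · rw [if_pos hw]
    refine Finset.sum_congr rfl fun k _ => ?_
    rw [cf_rho, if_pos ((dn_lab L k w).2 hw)]
  · rw [if_neg hw]
    symm
    refine Finset.sum_eq_zero fun k _ => ?_
    rw [cf_rho, if_neg (fun h => hw ((dn_lab L k w).1 h))]
    split_ifs <;> rfl

lemma rho_W (K : Type u) [Field K] (L : ℕ → Prop) (β : ℕ) : ∀ x ∈ W K β, rho K L x ∈ W K β := by
  classical
  intro x hx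
  induction hx using Submodule.span_induction with
  | mem z hz =>
    obtain ⟨i, rfl⟩ := hz
    have e : rho K L (wd K [(i, β)]) = if L i then wd K [(i, β)] else 0 := by
      apply ext_cf
      intro w
      rw [cf_rho]
      by_cases hL : L i
      · rw [if_pos hL]
        by_cases hw : ∀ a ∈ w, L a.1
        · rw [if_pos hw]
        · rw [if_neg hw]
          unfold cf wd
          rw [MonoidAlgebra.coeff_single, Finsupp.single_apply, if_neg]
          intro h
          have h' : [(i, β)] = w := FreeMonoid.ofList.injective h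
          apply hw
          rw [← h']
          intro a ha
          rw [List.mem_singleton.1 ha]
          exact hL
      · rw [if_neg hL, cf_zero]
        by_cases hw : ∀ a ∈ w, L a.1
        · rw [if_pos hw]
          unfold cf wd
          rw [MonoidAlgebra.coeff_single, Finsupp.single_apply, if_neg]
          intro h
          have h' : [(i, β)] = w := FreeMonoid.ofList.injective h
          apply hL
          exact hw (i, β) (by rw [← h']; exact List.mem_singleton.2 rfl)
        · rw [if_neg hw]
    rw [e]
    split_ifs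
    · exact Submodule.subset_span ⟨i, rfl⟩
    · exact Submodule.zero_mem _
  | zero => rw [map_zero]; exact Submodule.zero_mem _
  | add a b _ _ ha hb => rw [map_add]; exact Submodule.add_mem _ ha hb
  | smul c a _ ha => rw [map_smul]; exact Submodule.smul_mem _ _ ha

lemma rho_br (K : Type u) [Field K] (L : ℕ → Prop) (P Q : Submodule K (F K))
    (hP : ∀ x ∈ P, rho K L x ∈ P) (hQ : ∀ x ∈ Q, rho K L x ∈ Q) :
    ∀ x ∈ br K P Q, rho K L x ∈ br K P Q := by
  intro x hx
  induction hx using Submodule.span_induction with
  | mem z hz =>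
    obtain ⟨x, hx, y, hy, rfl⟩ := hz
    rw [map_sub, map_mul, map_mul]
    exact Submodule.subset_span ⟨_, hP x hx, _, hQ y hy, rfl⟩
  | zero => rw [map_zero]; exact Submodule.zero_mem _
  | add a b _ _ ha hb => rw [map_add]; exact Submodule.add_mem _ ha hb
  | smul c a _ ha => rw [map_smul]; exact Submodule.smul_mem _ _ ha

lemma rho_map (K : Type u) [Field K] (hD : S_DL K) (L : ℕ → Prop) (P : Submodule K (F K))
    (hP : ∀ x ∈ P, rho K L x ∈ P) : ∀ x ∈ P.map (dl K), rho K L x ∈ P.map (dl K) := by
  rintro _ ⟨x, hx, rfl⟩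
  rw [rho_dl K hD]
  exact ⟨_, hP x hx, rfl⟩

lemma rho_M (K : Type u) [Field K] (hD : S_DL K) (L : ℕ → Prop) :
    ∀ s : Br, ∀ x ∈ M K s, rho K L x ∈ M K s
  | leaf => fun x _ => by rw [M]; trivial
  | node leaf leaf => by
    rw [M]
    exact rho_W K L 1
  | node leaf (node a b) => by
    rw [M]
    exact rho_map K hD L _ (rho_M K hD L (node a b))
  | node (node a b) leaf => by
    rw [M]
    exact rho_map K hD L _ (rho_M K hD L (node a b))
  | node (node a b) (node c d) => by
    rw [M]
    exact rho_br K L _ _ (rho_M K hD L (node a b)) (rho_M K hD L (node c d))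

end KILaux

open KILaux

theorem KIL (K : Type u) [Field K] (hM : S_MUL K) (hD : S_DL K) : S_KIL K := by
  classical
  intro s hs L x hx
  refine ⟨rho K L x, rho_M K hD L s x hx, ?_, ?_⟩
  · intro w hw
    rw [cf_rho, if_pos hw]
  · rintro w ⟨a, ha, hL⟩
    rw [cf_rho, if_neg (fun h => hL (h a ha))]

end Pool.Agent.R325.BH
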