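import Pool.Agent.R325.BH.Base4
import Pool.Agent.R325.BH.DL

set_option linter.all false
universe u
namespace Pool.Agent.R325.BH

open Pool.Agent.Results.MP_5ecbac_al
open ThreeCherries ThreeCherries.Br Skeleton

attribute [local instance 100] LieRing.ofAssociativeRing

namespace MSKaux

variable (K : Type u) [Field K]

/-- rational functions -/
abbrev RF : Type u := FractionRing (MvPolynomial ℕ K)

/-- the variables -/
noncomputable def Xv (i : ℕ) : RF K := algebraMap (MvPolynomial ℕ K) (RF K) (MvPolynomial.X i)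

lemma sumX_ne (m d : ℕ) (hd : 1 ≤ d) : ∑ i ∈ Finset.range d, Xv K (m + i) ≠ 0 := by
  intro h
  have h1 : algebraMap (MvPolynomial ℕ K) (RF K)
      (∑ i ∈ Finset.range d, MvPolynomial.X (m + i)) = algebraMap _ _ 0 := by
    rw [map_sum, map_zero]
    exact h
  have h2 := IsFractionRing.injective (MvPolynomial ℕ K) (RF K) h1
  have h3 := congrArg (MvPolynomial.eval (fun j => if j = m then (1 : K) else 0)) h2
  rw [map_sum, map_zero] at h3
  simp only [MvPolynomial.eval_X] at h3
  rw [Finset.sum_eq_single 0] at h3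
  · simp at h3
  · intro b _ hb
    rw [if_neg]
    omega
  · intro h4
    exact absurd (Finset.mem_range.2 (by omega)) h4

lemma Xv_ne (m : ℕ) : Xv K m ≠ 0 := by
  have := sumX_ne K m 1 le_rfl
  simpa using this

/-- the substitution -/
noncomputable def phm : FreeMonoid (ℕ × ℕ) →* F (RF K) :=
  FreeMonoid.lift (fun a : ℕ × ℕ => (Xv K a.1 ^ a.2) • wd (RF K) [(a.1, 0)])

noncomputable def ph : F K →ₐ[K] F (RF K) := MonoidAlgebra.lift K (F (RF K)) _ (phm K)

lemma ph_wd1 (i m : ℕ) : ph K (wd K [(i, m)]) = (Xv K i ^ m) • wd (RF K) [(i, 0)] := by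
  unfold ph wd
  rw [MonoidAlgebra.lift_single, one_smul]
  unfold phm
  rw [FreeMonoid.ofList_singleton, FreeMonoid.lift_eval_of]
  rfl

/-- the derivation on the other side -/
noncomputable def La : F (RF K) →ₗ[RF K] F (RF K) :=
  (Finsupp.linearCombination (RF K) (fun w : FreeMonoid (ℕ × ℕ) =>
    ((w.toList.map (fun a => Xv K a.1)).sum) • wd (RF K) w.toList)) ∘ₗ
    (MonoidAlgebra.coeffLinearEquiv (RF K)).toLinearMap

lemma La_wd (w : Wd) : La K (wd (RF K) w) = ((w.map (fun a => Xv K a.1)).sum) • wd (RF K) w := by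
  unfold La wd
  simp [MonoidAlgebra.coeffLinearEquiv, Finsupp.linearCombination_single]

lemma La_mul (x y : F (RF K)) : La K (x * y) = La K x * y + x * La K y := by
  refine DLaux.wd_ind (RF K) (p := fun x => La K (x * y) = La K x * y + x * La K y) ?_ ?_ ?_ x
  · simp
  · intro a b ha hb
    rw [add_mul, map_add, ha, hb, map_add, add_mul, add_mul]
    abel
  · intro c v
    refine DLaux.wd_ind (RF K) (p := fun y => La K ((c • wd (RF K) v) * y) =
      La K (c • wd (RF K) v) * y + (c • wd (RF K) v) * La K y) ?_ ?_ ?_ y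
    · simp
    · intro a b ha hb
      rw [mul_add, map_add, ha, hb, map_add, mul_add, mul_add]
      abel
    · intro c' w
      rw [smul_mul_smul_comm, DLaux.wd_mul, map_smul, map_smul, map_smul, La_wd, La_wd, La_wd,
        smul_mul_smul_comm, List.map_append, List.sum_append]
      simp only [smul_smul, smul_mul_assoc, mul_smul_comm, DLaux.wd_mul]
      rw [← add_smul]
      congr 1
      ring

lemma ph_dl_wd (w : Wd) : ph K (dl K (wd K w)) = La K (ph K (wd K w)) := by
  induction w with
  | nil =>
    rw [DLaux.dl_wd]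
    have e1 : dW K [] = 0 := by simp [dW]
    have e2 : ph K (wd K []) = wd (RF K) [] := map_one (ph K)
    rw [e1, e2, La_wd, map_zero]
    simp
  | cons a w ih =>
    have e : wd K (a :: w) = wd K [a] * wd K w := by rw [DLaux.wd_mul]; rfl
    have e1 : ph K (dl K (wd K [a])) = La K (ph K (wd K [a])) := by
      obtain ⟨i, m⟩ := a
      rw [DLaux.dl_wd, ph_wd1, map_smul, La_wd]
      have e3 : dW K [(i, m)] = wd K [(i, m + 1)] := by
        simp [dW, upW]
      rw [e3, ph_wd1, smul_smul, pow_succ]
      simp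
    rw [e, DLaux.dl_mul, map_add, map_mul, map_mul, map_mul, La_mul, e1, ih]

lemma ph_dl (x : F K) : ph K (dl K x) = La K (ph K x) := by
  refine DLaux.wd_ind K (p := fun x => ph K (dl K x) = La K (ph K x)) ?_ ?_ ?_ x
  · simp
  · intro a b ha hb
    rw [map_add, map_add, map_add, map_add, ha, hb]
  · intro c w
    rw [map_smul, map_smul, map_smul, ph_dl_wd]
    rw [← algebraMap_smul (RF K) c (La K (ph K (wd K w))),
      ← algebraMap_smul (RF K) c (ph K (wd K w)), map_smul]

lemma La_N (κ : Br) : ∀ z ∈ N (RF K) κ, La K z ∈ N (RF K) κ := by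
  induction κ with
  | leaf =>
    intro z hz
    have h : N (RF K) leaf ≤ (N (RF K) leaf).comap (La K) := by
      conv_lhs => rw [N, W]
      rw [Submodule.span_le]
      rintro _ ⟨i, rfl⟩
      simp only [SetLike.mem_coe, Submodule.mem_comap]
      rw [La_wd]
      exact Submodule.smul_mem _ _ (Submodule.subset_span ⟨i, rfl⟩)
    exact h hz
  | node a b ha hb =>
    intro z hz
    have h : N (RF K) (node a b) ≤ (N (RF K) (node a b)).comap (La K) := by
      conv_lhs => rw [N, br]
      rw [Submodule.span_le]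
      rintro _ ⟨x, hx, y, hy, rfl⟩
      simp only [SetLike.mem_coe, Submodule.mem_comap]
      rw [map_sub, La_mul, La_mul]
      have e : La K x * y + x * La K y - (La K y * x + y * La K x) =
          (La K x * y - y * La K x) + (x * La K y - La K y * x) := by abel
      rw [e]
      exact add_mem (Submodule.subset_span ⟨_, ha x hx, _, hy, rfl⟩)
        (Submodule.subset_span ⟨_, hx, _, hb y hy, rfl⟩)
    exact h hz

lemma rel_N (r : ℕ → ℕ) (κ : Br) : ∀ z ∈ N (RF K) κ, rel (RF K) r z ∈ N (RF K) κ := by
  induction κ with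
  | leaf =>
    intro z hz
    have h : N (RF K) leaf ≤ (N (RF K) leaf).comap (rel (RF K) r).toLinearMap := by
      conv_lhs => rw [N, W]
      rw [Submodule.span_le]
      rintro _ ⟨i, rfl⟩
      simp only [SetLike.mem_coe, Submodule.mem_comap, AlgHom.toLinearMap_apply]
      rw [DLaux.rel_wd]
      exact Submodule.subset_span ⟨r i, rfl⟩
    exact h hz
  | node a b ha hb =>
    intro z hz
    have h : N (RF K) (node a b) ≤ (N (RF K) (node a b)).comap (rel (RF K) r).toLinearMap := by
      conv_lhs => rw [N, br]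
      rw [Submodule.span_le]
      rintro _ ⟨x, hx, y, hy, rfl⟩
      simp only [SetLike.mem_coe, Submodule.mem_comap, AlgHom.toLinearMap_apply]
      rw [map_sub, map_mul, map_mul]
      exact Submodule.subset_span ⟨_, ha x hx, _, hb y hy, rfl⟩
    exact h hz

/-- monomials -/
noncomputable def mon (f : ℕ → ℕ) : Br → ℕ → F (RF K)
  | leaf, m => wd (RF K) [(f m, 0)]
  | node a b, m => mon f a m * mon f b (m + a.deg) - mon f b (m + a.deg) * mon f a m

lemma mon_congr (f g : ℕ → ℕ) (κ : Br) : ∀ m, (∀ j, m ≤ j → j < m + κ.deg → f j = g j) →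
    mon K f κ m = mon K g κ m := by
  induction κ with
  | leaf =>
    intro m h
    simp only [mon]
    rw [h m le_rfl (by simp [deg])]
  | node a b ha hb =>
    intro m h
    simp only [mon]
    simp only [deg] at h
    rw [ha m (fun j h1 h2 => h j h1 (by omega)),
      hb (m + a.deg) (fun j h1 h2 => h j (by omega) (by omega))]

lemma rel_mon (r f : ℕ → ℕ) (κ : Br) : ∀ m, rel (RF K) r (mon K f κ m) =
    mon K (fun j => r (f j)) κ m := by
  induction κ with
  | leaf => intro m; simp only [mon]; rw [DLaux.rel_wd]; rfl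
  | node a b ha hb => intro m; simp only [mon]; rw [map_sub, map_mul, map_mul, ha, hb]

lemma La_mon (κ : Br) : ∀ m, La K (mon K (fun j => j) κ m) =
    (∑ i ∈ Finset.range κ.deg, Xv K (m + i)) • mon K (fun j => j) κ m := by
  induction κ with
  | leaf => intro m; simp only [mon]; rw [La_wd]; simp [deg]
  | node a b ha hb =>
    intro m
    simp only [mon]
    rw [map_sub, La_mul, La_mul, ha, hb]
    simp only [deg]
    rw [Finset.sum_range_add]
    simp only [smul_mul_assoc, mul_smul_comm, ← add_assoc, add_smul, smul_sub]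
    abel

lemma N_le (κ : Br) : ∀ m, N (RF K) κ ≤ Submodule.span (RF K) {z | ∃ f : ℕ → ℕ, z = mon K f κ m} := by
  induction κ with
  | leaf =>
    intro m
    conv_lhs => rw [N, W]
    rw [Submodule.span_le]
    rintro _ ⟨i, rfl⟩
    exact Submodule.subset_span ⟨fun _ => i, rfl⟩
  | node a b ha hb =>
    intro m
    conv_lhs => rw [N, br]
    rw [Submodule.span_le]
    rintro _ ⟨x, hx, y, hy, rfl⟩
    have hx' := ha m hx
    have hy' := hb (m + a.deg) hy
    clear hx hy
    induction hx' using Submodule.span_induction with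
    | mem x hx =>
      obtain ⟨f, rfl⟩ := hx
      induction hy' using Submodule.span_induction with
      | mem y hy =>
        obtain ⟨g, rfl⟩ := hy
        have e1 : mon K (fun j => if j < m + a.deg then f j else g j) a m = mon K f a m :=
          mon_congr K _ _ a m (fun j h1 h2 => if_pos h2)
        have e2 : mon K (fun j => if j < m + a.deg then f j else g j) b (m + a.deg) =
            mon K g b (m + a.deg) :=
          mon_congr K _ _ b (m + a.deg) (fun j h1 h2 => if_neg (by omega))
        refine Submodule.subset_span ⟨fun j => if j < m + a.deg then f j else g j, ?_⟩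
        simp only [mon]
        rw [e1, e2]
      | zero => simp
      | add p q _ _ ihp ihq =>
        simp only [SetLike.mem_coe] at ihp ihq ⊢
        have e : mon K f a m * (p + q) - (p + q) * mon K f a m =
          (mon K f a m * p - p * mon K f a m) + (mon K f a m * q - q * mon K f a m) := by
          rw [mul_add, add_mul]; abel
        rw [e]; exact add_mem ihp ihq
      | smul c p _ ihp =>
        simp only [SetLike.mem_coe] at ihp ⊢
        rw [mul_smul_comm, smul_mul_assoc, ← smul_sub]
        exact Submodule.smul_mem _ _ ihp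
    | zero => simp
    | add p q _ _ ihp ihq =>
      simp only [SetLike.mem_coe] at ihp ihq ⊢
      have e : (p + q) * y - y * (p + q) = (p * y - y * p) + (q * y - y * q) := by
        rw [mul_add, add_mul]; abel
      rw [e]; exact add_mem ihp ihq
    | smul c p _ ihp =>
      simp only [SetLike.mem_coe] at ihp ⊢
      rw [mul_smul_comm, smul_mul_assoc, ← smul_sub]
      exact Submodule.smul_mem _ _ ihp

/-- images of marked spaces -/
lemma step1 : ∀ s : Br, s ≠ leaf → ∀ x ∈ M K s, ph K x ∈ N (RF K) (sk s)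
  | leaf, h, _, _ => absurd rfl h
  | node leaf leaf, _, x, hx => by
    rw [M, W] at hx
    rw [sk]
    induction hx using Submodule.span_induction with
    | mem x hx =>
      obtain ⟨i, rfl⟩ := hx
      rw [ph_wd1]
      exact Submodule.smul_mem _ _ (Submodule.subset_span ⟨i, rfl⟩)
    | zero => rw [map_zero]; exact zero_mem _
    | add p q _ _ ihp ihq => rw [map_add]; exact add_mem ihp ihq
    | smul c p _ ihp =>
      rw [map_smul, ← algebraMap_smul (RF K) c (ph K p)]
      exact Submodule.smul_mem _ _ ihp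
  | node leaf (node a b), _, x, hx => by
    rw [M] at hx
    obtain ⟨y, hy, rfl⟩ := hx
    rw [ph_dl, sk]
    exact La_N K _ _ (step1 (node a b) (by simp) y hy)
  | node (node a b) leaf, _, x, hx => by
    rw [M] at hx
    obtain ⟨y, hy, rfl⟩ := hx
    rw [ph_dl, sk]
    exact La_N K _ _ (step1 (node a b) (by simp) y hy)
  | node (node a b) (node c d), _, x, hx => by
    rw [M, br] at hx
    rw [sk]
    induction hx using Submodule.span_induction with
    | mem x hx =>
      obtain ⟨y, hy, z, hz, rfl⟩ := hx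
      rw [map_sub, map_mul, map_mul]
      exact Submodule.subset_span ⟨_, step1 (node a b) (by simp) y hy, _,
        step1 (node c d) (by simp) z hz, rfl⟩
    | zero => rw [map_zero]; exact zero_mem _
    | add p q _ _ ihp ihq => rw [map_add]; exact add_mem ihp ihq
    | smul c p _ ihp =>
      rw [map_smul, ← algebraMap_smul (RF K) c (ph K p)]
      exact Submodule.smul_mem _ _ ihp

lemma step2 : ∀ t : Br, t ≠ leaf → ∀ m : ℕ, ∃ x ∈ M K t, ∃ c : RF K, c ≠ 0 ∧
    ph K x = c • mon K (fun j => j) (sk t) m
  | leaf, h, _ => absurd rfl h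
  | node leaf leaf, _, m => by
    refine ⟨wd K [(m, 1)], ?_, Xv K m, Xv_ne K m, ?_⟩
    · rw [M, W]
      exact Submodule.subset_span ⟨m, rfl⟩
    · rw [ph_wd1, pow_one, sk, mon]
  | node leaf (node a b), _, m => by
    obtain ⟨x, hx, c, hc, h⟩ := step2 (node a b) (by simp) m
    refine ⟨dl K x, ?_, c * ∑ i ∈ Finset.range (sk (node a b)).deg, Xv K (m + i),
      mul_ne_zero hc (sumX_ne K m _ (Skeleton.deg_pos _)), ?_⟩
    · rw [M]
      exact ⟨x, hx, rfl⟩
    · rw [ph_dl, h, map_smul, La_mon, smul_smul, sk]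
  | node (node a b) leaf, _, m => by
    obtain ⟨x, hx, c, hc, h⟩ := step2 (node a b) (by simp) m
    refine ⟨dl K x, ?_, c * ∑ i ∈ Finset.range (sk (node a b)).deg, Xv K (m + i),
      mul_ne_zero hc (sumX_ne K m _ (Skeleton.deg_pos _)), ?_⟩
    · rw [M]
      exact ⟨x, hx, rfl⟩
    · rw [ph_dl, h, map_smul, La_mon, smul_smul, sk]
  | node (node a b) (node c d), _, m => by
    obtain ⟨x, hx, p, hp, h⟩ := step2 (node a b) (by simp) m
    obtain ⟨y, hy, q, hq, h'⟩ := step2 (node c d) (by simp) (m + (sk (node a b)).deg)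
    refine ⟨x * y - y * x, ?_, p * q, mul_ne_zero hp hq, ?_⟩
    · rw [M, br]
      exact Submodule.subset_span ⟨x, hx, y, hy, rfl⟩
    · rw [map_sub, map_mul, map_mul, h, h', sk, mon]
      simp only [smul_mul_assoc, mul_smul_comm, smul_smul, smul_sub]
      rw [mul_comm q p]

lemma sub (s t : Br) (hs : s ≠ leaf) (ht : t ≠ leaf) (h : M K s = M K t) :
    N (RF K) (sk t) ≤ N (RF K) (sk s) := by
  obtain ⟨x, hx, c, hc, e⟩ := step2 K t ht 0
  have h1 : ph K x ∈ N (RF K) (sk s) := step1 K s hs x (h ▸ hx)
  have h2 : mon K (fun j => j) (sk t) 0 ∈ N (RF K) (sk s) := by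
    have h3 := Submodule.smul_mem (N (RF K) (sk s)) c⁻¹ h1
    rw [e, smul_smul, inv_mul_cancel₀ hc, one_smul] at h3
    exact h3
  refine (N_le K (sk t) 0).trans ?_
  rw [Submodule.span_le]
  rintro _ ⟨f, rfl⟩
  have h4 := rel_N K f (sk s) _ h2
  rw [rel_mon] at h4
  exact h4

end MSKaux

theorem MSK (K : Type u) [Field K] (hM : S_MUL K) (hD : S_DL K) (hB : S_BAS K) : S_MSK K :=
  fun s t hs ht h => le_antisymm (MSKaux.sub K t s ht hs h.symm) (MSKaux.sub K s t hs ht h)

end Pool.Agent.R325.BH
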