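import Pool.Agent.R325.BH.Base4

/-!
# MP_5ecbac_al, piece NEQ: equivalent identities have equal spaces `N`
-/

set_option linter.all false
universe u
namespace Pool.Agent.R325.BH

open Pool.Agent.Results.MP_5ecbac_al
open ThreeCherries ThreeCherries.Br Skeleton

attribute [local instance 100] LieRing.ofAssociativeRing

namespace NEQaux

open MEQaux

variable {K : Type u} [Field K]

lemma N_supp : ∀ s : Br, N K s ≤ Su (K := K) (fun w => w.length = s.deg ∧ wt w = 0)
  | leaf => by
    rw [N, W, Submodule.span_le]
    rintro _ ⟨i, rfl⟩ w hw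
    rw [cf_wd] at hw
    split_ifs at hw with h
    · subst h
      exact ⟨rfl, rfl⟩
    · exact absurd rfl hw
  | node a b => by
    have iha := N_supp a
    have ihb := N_supp b
    rw [N, br, Submodule.span_le]
    rintro _ ⟨x, hx, y, hy, rfl⟩
    apply sub_mem
    · exact mul_Su (fun w1 w2 h1 h2 => by
        rw [List.length_append, wt_append, h1.1, h2.1, h1.2, h2.2]
        exact ⟨rfl, rfl⟩) (iha hx) (ihb hy)
    · exact mul_Su (fun w1 w2 h1 h2 => by
        rw [List.length_append, wt_append, h1.1, h2.1, h1.2, h2.2]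
        exact ⟨add_comm _ _, rfl⟩) (ihb hy) (iha hx)

lemma N_Ge (s : Br) : N K s ≤ Su (K := K) (Ge s.deg s.deg) :=
  (N_supp s).trans (Su_mono (fun w h => Or.inr ⟨h.1, by omega⟩))

lemma N_le_V : ∀ s : Br, N K s ≤ V K (F K) s
  | leaf => le_top
  | node a b => by
    have iha := N_le_V a
    have ihb := N_le_V b
    rw [N, br, Submodule.span_le]
    rintro _ ⟨x, hx, y, hy, rfl⟩
    have := lie_mem_V K (iha hx) (ihb hy)
    rw [Ring.lie_def] at this
    exact this

lemma top_leaf : (⊤ : Submodule K (F K)) ≤
    (N K leaf ⊔ Su (K := K) (Gp 1 1)) ⊔ Submodule.span K {(1 : F K)} := by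
  refine top_le_span.trans ?_
  rw [Submodule.span_le]
  rintro _ ⟨w, rfl⟩
  by_cases h0 : w.length = 0
  · apply Submodule.mem_sup_right
    have hw := List.length_eq_zero_iff.1 h0
    subst hw
    exact Submodule.subset_span rfl
  · apply Submodule.mem_sup_left
    by_cases h : ∃ i : ℕ, w = [(i, 0)]
    · obtain ⟨i, rfl⟩ := h
      apply Submodule.mem_sup_left
      exact Submodule.subset_span ⟨i, rfl⟩
    · apply Submodule.mem_sup_right
      intro v hv
      rw [cf_wd] at hv
      split_ifs at hv with h1
      · subst h1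
        by_cases h2 : w.length = 1
        · right
          obtain ⟨⟨i, m⟩, rfl⟩ := List.length_eq_one_iff.1 h2
          refine ⟨rfl, ?_⟩
          have hm : m ≠ 0 := by
            rintro rfl
            exact h ⟨i, rfl⟩
          simp only [wt, List.map_cons, List.map_nil, List.sum_cons, List.sum_nil]
          omega
        · left
          omega
      · exact absurd rfl hv

lemma strong (a b : Br)
    (iha : V K (F K) a ≤ (N K a ⊔ Su (K := K) (Gp a.deg a.deg)) ⊔ Submodule.span K {(1 : F K)})
    (ihb : V K (F K) b ≤ (N K b ⊔ Su (K := K) (Gp b.deg b.deg)) ⊔ Submodule.span K {(1 : F K)}) :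
    V K (F K) (node a b) ≤
      N K (node a b) ⊔ Su (K := K) (Gp (node a b).deg (node a b).deg) := by
  rw [V, Submodule.span_le]
  rintro _ ⟨x, hx, y, hy, rfl⟩
  obtain ⟨x1, hx1, c1, hc1, rfl⟩ := Submodule.mem_sup.1 (iha hx)
  obtain ⟨y1, hy1, c2, hc2, rfl⟩ := Submodule.mem_sup.1 (ihb hy)
  obtain ⟨c, rfl⟩ := Submodule.mem_span_singleton.1 hc1
  obtain ⟨d, rfl⟩ := Submodule.mem_span_singleton.1 hc2
  obtain ⟨m, hm, g, hg, rfl⟩ := Submodule.mem_sup.1 hx1
  obtain ⟨m', hm', g', hg', rfl⟩ := Submodule.mem_sup.1 hy1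
  have hy5 : m' + g' ∈ Su (K := K) (Ge b.deg b.deg) :=
    add_mem (N_Ge b hm') (Su_mono (fun w h => Gp_Ge h) hg')
  have e : ⁅m + g + c • (1 : F K), m' + g' + d • (1 : F K)⁆ =
      (m * m' - m' * m) + ((g * (m' + g') - (m' + g') * g) + (m * g' - g' * m)) := by
    have hcd : d • c • (1 : F K) = c • d • (1 : F K) := smul_comm d c 1
    rw [Ring.lie_def]
    simp only [mul_add, add_mul, smul_mul_assoc, mul_smul_comm, one_mul, mul_one, smul_add, hcd]
    abel
  rw [e]
  refine add_mem (Submodule.mem_sup_left (Submodule.subset_span ⟨m, hm, m', hm', rfl⟩))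
    (Submodule.mem_sup_right (add_mem ?_ ?_))
  · exact comm_Gp _ _ _ _ hg hy5
  · exact comm_Gp' _ _ _ _ (N_Ge a hm) hg'

lemma weak : ∀ s : Br,
    V K (F K) s ≤ (N K s ⊔ Su (K := K) (Gp s.deg s.deg)) ⊔ Submodule.span K {(1 : F K)}
  | leaf => by
    rw [V]
    exact top_leaf
  | node a b => (strong a b (weak a) (weak b)).trans le_sup_left

lemma half {s t : Br} (hd : s.deg = t.deg) (hs : s ≠ leaf)
    (h : V K (F K) t ≤ V K (F K) s) : N K t ≤ N K s := by
  intro x hx
  cases s with
  | leaf => exact absurd rfl hs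
  | node a b =>
    have h1 := strong a b (weak a) (weak b) (h (N_le_V t hx))
    obtain ⟨m, hm, g, hg, e⟩ := Submodule.mem_sup.1 h1
    have h2 := N_supp t hx
    have h3 := N_supp (node a b) hm
    have hg0 : g = 0 := by
      apply cf_ext
      intro w
      rw [cf_zero]
      by_contra hw
      have h4 := hg w hw
      have e2 : g = x - m := by rw [← e]; abel
      have h5 : cf x w ≠ 0 ∨ cf m w ≠ 0 := by
        by_contra h6
        push Not at h6
        apply hw
        rw [e2, cf_sub, h6.1, h6.2, sub_zero]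
      rcases h5 with h5 | h5
      · have h7 := h2 w h5
        unfold Gp at h4
        rw [hd] at h4
        omega
      · have h7 := h3 w h5
        unfold Gp at h4
        omega
    rw [← e, hg0, add_zero]
    exact hm

end NEQaux

theorem NEQ (K : Type u) [Field K] (hV : S_VEQ.{u} K) (hM : S_MUL K) : S_NEQ K := by
  intro s t h
  have hd := deg_eq K s t h
  have hVV := hV s t h (F K)
  by_cases hs : s = leaf
  · subst hs
    have ht : t = leaf := by
      cases t with
      | leaf => rfl
      | node a b =>
        have h1 := Skeleton.deg_pos a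
        have h2 := Skeleton.deg_pos b
        simp only [deg] at hd
        omega
    rw [ht]
  · by_cases ht : t = leaf
    · subst ht
      exfalso
      cases s with
      | leaf => exact hs rfl
      | node a b =>
        have h1 := Skeleton.deg_pos a
        have h2 := Skeleton.deg_pos b
        simp only [deg] at hd
        omega
    · exact le_antisymm (NEQaux.half hd.symm ht hVV.le) (NEQaux.half hd hs hVV.ge)

end Pool.Agent.R325.BH
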