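import Pool.Agent.R325.BH.Base4
import Pool.Agent.R325.BH.VEQ

set_option linter.all false
universe u
namespace Pool.Agent.R325.BH

open Pool.Agent.Results.MP_5ecbac_al
open ThreeCherries ThreeCherries.Br Skeleton

attribute [local instance 100] LieRing.ofAssociativeRing

namespace NEQ2aux
open MEQaux

variable {K : Type u} [Field K]

lemma W_Su (β : ℕ) : W K β ≤ Su (K := K) (fun w => w.length = 1 ∧ wt w = β) := by
  rw [W, Submodule.span_le]
  rintro _ ⟨i, rfl⟩ w hw
  rw [cf_wd] at hw
  split_ifs at hw with h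
  · subst h; simp [wt]
  · exact absurd rfl hw

lemma N_Su : ∀ s : Br, N K s ≤ Su (K := K) (fun w => w.length = s.deg ∧ wt w = 0)
  | leaf => W_Su 0
  | node a b => by
    rw [N, br, Submodule.span_le]
    rintro _ ⟨x, hx, y, hy, rfl⟩
    apply sub_mem
    · exact mul_Su (fun w1 w2 h1 h2 => by
        rw [List.length_append, wt_append]; simp only [deg]; omega) (N_Su a hx) (N_Su b hy)
    · exact mul_Su (fun w1 w2 h1 h2 => by
        rw [List.length_append, wt_append]; simp only [deg]; omega) (N_Su b hy) (N_Su a hx)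

lemma N_le_V : ∀ s : Br, N K s ≤ V K (F K) s
  | leaf => le_top
  | node a b => by
    rw [N, br, Submodule.span_le]
    rintro _ ⟨x, hx, y, hy, rfl⟩
    have := lie_mem_V K (N_le_V a hx) (N_le_V b hy)
    rwa [Ring.lie_def] at this

/-- constants, `N` and higher terms -/
noncomputable def T (s : Br) : Submodule K (F K) := N K s ⊔ Su (K := K) (Gp s.deg s.deg)

lemma N_Ge (s : Br) : N K s ≤ Su (K := K) (Ge s.deg s.deg) :=
  (N_Su s).trans (Su_mono fun w h => Or.inr ⟨h.1, by omega⟩)

lemma comm_T (a b : Br) {x y : F K} (hx : x ∈ T (K := K) a) (hy : y ∈ T (K := K) b) :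
    x * y - y * x ∈ T (K := K) (node a b) := by
  obtain ⟨x1, hx1, x2, hx2, rfl⟩ := Submodule.mem_sup.1 hx
  obtain ⟨y1, hy1, y2, hy2, rfl⟩ := Submodule.mem_sup.1 hy
  have e : (x1 + x2) * (y1 + y2) - (y1 + y2) * (x1 + x2) =
      (x1 * y1 - y1 * x1) + ((x1 * y2 - y2 * x1) + (x2 * (y1 + y2) - (y1 + y2) * x2)) := by
    noncomm_ring
  rw [e]
  apply add_mem
  · exact Submodule.mem_sup_left (Submodule.subset_span ⟨x1, hx1, y1, hy1, rfl⟩)
  · apply Submodule.mem_sup_right
    apply add_mem
    · exact comm_Gp' _ _ _ _ (N_Ge a hx1) hy2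
    · exact comm_Gp _ _ _ _ hx2 (add_mem (N_Ge b hy1) (Su_mono (fun w h => Gp_Ge h) hy2))

lemma leaf_T (x : F K) : ∃ c : K, x - algebraMap K (F K) c ∈ T (K := K) leaf := by
  have h : (⊤ : Submodule K (F K)) ≤ Submodule.span K {(1 : F K)} ⊔ T (K := K) leaf := by
    refine top_le_span.trans ?_
    rw [Submodule.span_le]
    rintro _ ⟨w, rfl⟩
    match w with
    | [] => exact Submodule.mem_sup_left (Submodule.subset_span rfl)
    | [(i, 0)] =>
      exact Submodule.mem_sup_right (Submodule.mem_sup_left (Submodule.subset_span ⟨i, rfl⟩))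
    | [(i, m + 1)] =>
      refine Submodule.mem_sup_right (Submodule.mem_sup_right ?_)
      intro w hw
      rw [cf_wd] at hw
      split_ifs at hw with h
      · subst h
        right
        simp [wt, deg]
      · exact absurd rfl hw
    | a :: b :: w =>
      refine Submodule.mem_sup_right (Submodule.mem_sup_right ?_)
      intro w hw
      rw [cf_wd] at hw
      split_ifs at hw with h
      · subst h
        left
        simp [deg]
      · exact absurd rfl hw
  obtain ⟨y, hy, z, hz, rfl⟩ := Submodule.mem_sup.1 (h (Submodule.mem_top (x := x)))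
  obtain ⟨c, rfl⟩ := Submodule.mem_span_singleton.1 hy
  refine ⟨c, ?_⟩
  rw [Algebra.algebraMap_eq_smul_one]
  simpa using hz

lemma V_T : ∀ (s : Br), ∀ x ∈ V K (F K) s, ∃ c : K, x - algebraMap K (F K) c ∈ T (K := K) s
  | leaf => fun x _ => leaf_T x
  | node a b => by
    intro x hx
    refine ⟨0, ?_⟩
    rw [map_zero, sub_zero]
    rw [V] at hx
    refine (Submodule.span_le.2 ?_) hx
    rintro _ ⟨y, hy, z, hz, rfl⟩
    obtain ⟨c, hc⟩ := V_T a y hy
    obtain ⟨d, hd⟩ := V_T b z hz
    have h := comm_T a b hc hd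
    have e : (y - algebraMap K (F K) c) * (z - algebraMap K (F K) d) -
        (z - algebraMap K (F K) d) * (y - algebraMap K (F K) c) = ⁅y, z⁆ := by
      rw [Ring.lie_def, sub_mul, mul_sub, mul_sub, sub_mul, mul_sub, mul_sub,
        Algebra.commutes c z, ← Algebra.commutes d y, ← Algebra.commutes d (algebraMap K (F K) c)]
      abel
    rw [e] at h
    exact h

lemma half (s t : Br) (hd : s.deg = t.deg) (h : V K (F K) t ≤ V K (F K) s) : N K t ≤ N K s := by
  intro x hx
  obtain ⟨c, hc⟩ := V_T s x (h (N_le_V t hx))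
  obtain ⟨n, hn, g, hg, e⟩ := Submodule.mem_sup.1 hc
  have hxs := N_Su t hx
  have hns := N_Su s hn
  have hp := ThreeCherries.deg_pos s
  have hcf : ∀ w : Wd, w ≠ [] → cf (algebraMap K (F K) c) w = 0 := by
    intro w hw
    have e1 : algebraMap K (F K) c = c • wd K [] := by
      rw [Algebra.algebraMap_eq_smul_one]; rfl
    rw [e1, cf_smul, cf_wd, if_neg (Ne.symm hw), mul_zero]
  have hg0 : g = 0 := by
    apply cf_ext
    intro w
    rw [cf_zero]
    by_contra hgw
    have h1 := hg w hgw
    have h2 : w ≠ [] := by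
      rintro rfl
      rcases h1 with h1 | h1 <;> simp at h1 <;> omega
    have h3 : cf x w = 0 := by
      by_contra h3
      have := hxs w h3
      unfold Gp at h1
      omega
    have h4 : cf n w = 0 := by
      by_contra h4
      have := hns w h4
      unfold Gp at h1
      omega
    have h5 := congrArg (fun z => cf z w) e
    simp only [cf_add, cf_sub, hcf w h2, h3, h4] at h5
    apply hgw
    linear_combination h5
  rw [hg0, add_zero] at e
  have h6 : c = 0 := by
    have h3 : cf x [] = 0 := by
      by_contra h3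
      have := hxs _ h3
      simp at this
      omega
    have h4 : cf n [] = 0 := by
      by_contra h4
      have := hns _ h4
      simp at this
      omega
    have h5 := congrArg (fun z => cf z []) e
    have e1 : algebraMap K (F K) c = c • wd K [] := by
      rw [Algebra.algebraMap_eq_smul_one]; rfl
    simp only [e1, cf_sub, h3, h4, cf_smul, cf_wd, if_true] at h5
    linear_combination h5
  rw [h6, map_zero, sub_zero] at e
  rw [← e]
  exact hn

end NEQ2aux

theorem NEQ2 (K : Type u) [Field K] : S_NEQ K := by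
  intro s t h
  have hd := deg_eq K s t h
  have hv := VEQ.{u} K s t h (F K)
  exact le_antisymm (NEQ2aux.half t s hd.symm hv.le) (NEQ2aux.half s t hd hv.ge)

end Pool.Agent.R325.BH
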