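import Pool.Agent.R325.BH.Base4

/-!
Equal spaces `N` give equal marked spaces.
-/

set_option linter.all false
universe u
namespace Pool.Agent.R325.BH

open Pool.Agent.Results.MP_5ecbac_al
open ThreeCherries ThreeCherries.Br Skeleton

attribute [local instance 100] LieRing.ofAssociativeRing

namespace NMaux

variable {K : Type u} [Field K]

open MEQaux

lemma inc (hN : S_NV K) (hD : S_DL K) (hB : S_BAS K) (s t : Br) (hs : s ≠ leaf)
    (ht : t ≠ leaf) (h : N K t ≤ N K s) (x : F K) (hx : x ∈ M K t) :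
    x ∈ M K s ⊔ Su (K := K) (Gp (sk s).deg s.deg) := by
  have h1 := claim2 hD t ht x hx
  have h1' := hN hD s t h h1
  exact (claim1 hD hB s hs _ h1').2

lemma sk_le (hN : S_NV K) (hD : S_DL K) (hB : S_BAS K) (s t : Br) (hs : s ≠ leaf)
    (ht : t ≠ leaf) (h : N K t ≤ N K s) : (sk s).deg ≤ (sk t).deg := by
  obtain ⟨c1, ⟨x, hx, hx0⟩, -, -, -⟩ := hB t ht
  have h1 := part_len hB hs (inc hN hD hB s t hs ht h x hx)
  by_contra hlt
  apply hx0
  apply cf_ext
  intro w
  rw [cf_zero]
  by_contra hw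
  have h2 := h1 w hw
  have h3 : w.length = (sk t).deg := by
    by_contra hne
    exact hw (c1 hx w hne)
  unfold Ge at h2
  omega

lemma half2 (hN : S_NV K) (hD : S_DL K) (hB : S_BAS K) (s t : Br) (hs : s ≠ leaf)
    (ht : t ≠ leaf) (h : N K t ≤ N K s) (hd : s.deg = t.deg)
    (hsk : (sk s).deg = (sk t).deg) : M K t ≤ M K s := by
  intro x hx
  have h2 := inc hN hD hB s t hs ht h x hx
  obtain ⟨m, hm, g, hg, hx2⟩ := Submodule.mem_sup.1 h2
  have hg0 : g = 0 := by
    apply cf_ext
    intro w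
    rw [cf_zero]
    by_contra hw
    have h3 := hg w hw
    have h4 : cf x w = cf m w + cf g w := by rw [← hx2, cf_add]
    obtain ⟨b1, -, -, b2, -⟩ := hB s hs
    obtain ⟨c1, -, -, c2, -⟩ := hB t ht
    have h5 : cf m w = 0 := by
      rcases h3 with h3 | ⟨h3, h3'⟩
      · exact b1 hm w (by omega)
      · exact b2 m hm w (by omega)
    have h6 : cf x w = 0 := by
      rcases h3 with h3 | ⟨h3, h3'⟩
      · exact c1 hx w (by omega)
      · exact c2 x hx w (by omega)
    rw [h5, h6, zero_add] at h4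
    exact hw h4.symm
  rw [← hx2, hg0, add_zero]
  exact hm

end NMaux

theorem NM (K : Type u) [Field K] (hM : S_MUL K) (hD : S_DL K) (hB : S_BAS K) (hN : S_NV K) :
    S_NM K := by
  intro s t hs ht hd h
  have hsk : (sk s).deg = (sk t).deg := le_antisymm
    (NMaux.sk_le hN hD hB s t hs ht h.ge) (NMaux.sk_le hN hD hB t s ht hs h.le)
  exact ⟨hsk, le_antisymm (NMaux.half2 hN hD hB t s ht hs h.le hd.symm hsk.symm)
    (NMaux.half2 hN hD hB s t hs ht h.ge hd hsk)⟩

end Pool.Agent.R325.BH
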