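import Pool.Agent.R325.BH.Base4

set_option linter.all false
universe u
namespace Pool.Agent.R325.BH

open Pool.Agent.Results.MP_5ecbac_al
open ThreeCherries ThreeCherries.Br Skeleton

attribute [local instance 100] LieRing.ofAssociativeRing

namespace NVaux

variable {K : Type u} [Field K]

open MEQaux

/-- `(c, x) ↦ c • dl + (left multiplication by x)` -/
noncomputable def Th (hD : S_DL K) (z : E (der hD)) : Module.End K (F K) :=
  z.1 • dl K + LinearMap.mulLeft K z.2

lemma Th_apply (hD : S_DL K) (z : E (der hD)) (f : F K) :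
    Th hD z f = z.1 • dl K f + z.2 * f := rfl

lemma Th_add (hD : S_DL K) (z w : E (der hD)) : Th hD (z + w) = Th hD z + Th hD w := by
  apply LinearMap.ext
  intro f
  rw [LinearMap.add_apply, Th_apply, Th_apply, Th_apply, add1, add2, add_smul, add_mul]
  abel

lemma Th_smul (hD : S_DL K) (c : K) (z : E (der hD)) : Th hD (c • z) = c • Th hD z := by
  apply LinearMap.ext
  intro f
  rw [LinearMap.smul_apply, Th_apply, Th_apply, smul1, smul2, smul_add, mul_smul, smul_mul_assoc]

lemma Th_zero (hD : S_DL K) : Th hD (0 : E (der hD)) = 0 := by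
  have h := Th_smul hD (0 : K) (0 : E (der hD))
  rw [zero_smul, zero_smul] at h
  exact h

lemma Th_lie (hD : S_DL K) (z w : E (der hD)) :
    Th hD ⁅z, w⁆ = Th hD z * Th hD w - Th hD w * Th hD z := by
  apply LinearMap.ext
  intro f
  have e1 : (der hD).f = dl K := rfl
  rw [LinearMap.sub_apply, Module.End.mul_apply, Module.End.mul_apply]
  simp only [Th_apply]
  rw [br1, br2, Ring.lie_def, e1]
  simp only [map_add, map_smul, hD.1, zero_smul, zero_add, smul_add, mul_add, add_mul, sub_mul,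
    smul_mul_assoc, mul_smul_comm, mul_assoc]
  rw [smul_comm w.1 z.1 (dl K (dl K f))]
  abel

lemma dl_one (hD : S_DL K) : dl K (1 : F K) = 0 := by
  have h := hD.1 1 1
  rw [one_mul, mul_one, one_mul] at h
  exact left_eq_add.1 h

lemma Th_inj (hD : S_DL K) {z w : E (der hD)} (h : Th hD z = Th hD w) : z = w := by
  have h1 := congrArg (fun g : Module.End K (F K) => g 1) h
  simp only [Th_apply, dl_one hD, smul_zero, zero_add, mul_one] at h1
  have h2 := congrArg (fun g : Module.End K (F K) => g (wd K [(0, 0)])) h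
  simp only [Th_apply, h1] at h2
  have h3 := add_right_cancel h2
  rw [dl_wd1 hD] at h3
  have h4 := congrArg (fun g : F K => cf g [(0, 1)]) h3
  simp only [cf_smul, cf_wd, if_true, mul_one] at h4
  exact E_ext h4 h1

/-- the algebra homomorphism sending the letter `(i, m)` to `Θ (e i)` -/
noncomputable def ph (hD : S_DL K) (e : ℕ → E (der hD)) : F K →ₐ[K] Module.End K (F K) :=
  MonoidAlgebra.lift K (Module.End K (F K)) (FreeMonoid (ℕ × ℕ))
    (FreeMonoid.lift (fun a : ℕ × ℕ => Th hD (e a.1)))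

lemma ph_wd (hD : S_DL K) (e : ℕ → E (der hD)) (i m : ℕ) :
    ph hD e (wd K [(i, m)]) = Th hD (e i) := by
  rw [ph, wd, MonoidAlgebra.lift_single, one_smul]
  exact FreeMonoid.lift_eval_of _ _

lemma ph_N (hD : S_DL K) (e : ℕ → E (der hD)) : ∀ (s : Br), ∀ x ∈ N K s,
    ∃ z ∈ V K (E (der hD)) s, ph hD e x = Th hD z
  | leaf => by
    intro x hx
    have e1 : N K leaf = W K 0 := rfl
    rw [e1, W] at hx
    induction hx using Submodule.span_induction with
    | mem z hz =>
      obtain ⟨i, rfl⟩ := hz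
      exact ⟨e i, Submodule.mem_top, ph_wd hD e i 0⟩
    | zero => exact ⟨0, zero_mem _, by rw [map_zero, Th_zero]⟩
    | add a b _ _ ha hb =>
      obtain ⟨z, hz, h1⟩ := ha
      obtain ⟨w, hw, h2⟩ := hb
      exact ⟨z + w, add_mem hz hw, by rw [map_add, Th_add, h1, h2]⟩
    | smul c a _ ha =>
      obtain ⟨z, hz, h1⟩ := ha
      exact ⟨c • z, Submodule.smul_mem _ _ hz, by rw [map_smul, Th_smul, h1]⟩
  | node a b => by
    intro x hx
    have ih1 := ph_N hD e a
    have ih2 := ph_N hD e b
    have e1 : N K (node a b) = br K (N K a) (N K b) := rfl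
    rw [e1, br] at hx
    induction hx using Submodule.span_induction with
    | mem z hz =>
      obtain ⟨p, hp, q, hq, rfl⟩ := hz
      obtain ⟨z, hz, h1⟩ := ih1 p hp
      obtain ⟨w, hw, h2⟩ := ih2 q hq
      exact ⟨⁅z, w⁆, lie_mem_V K hz hw, by rw [map_sub, map_mul, map_mul, Th_lie, h1, h2]⟩
    | zero => exact ⟨0, zero_mem _, by rw [map_zero, Th_zero]⟩
    | add a b _ _ ha hb =>
      obtain ⟨z, hz, h1⟩ := ha
      obtain ⟨w, hw, h2⟩ := hb
      exact ⟨z + w, add_mem hz hw, by rw [map_add, Th_add, h1, h2]⟩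
    | smul c a _ ha =>
      obtain ⟨z, hz, h1⟩ := ha
      exact ⟨c • z, Submodule.smul_mem _ _ hz, by rw [map_smul, Th_smul, h1]⟩

lemma ph_ev (hD : S_DL K) (e : ℕ → E (der hD)) : ∀ (s : Br) (x : ℕ → E (der hD)) (y : ℕ → F K),
    (∀ i, ph hD e (y i) = Th hD (x i)) → ph hD e (ev s y) = Th hD (ev s x)
  | leaf => fun x y h => h 0
  | node a b => by
    intro x y h
    have h1 := ph_ev hD e a x y h
    have h2 := ph_ev hD e b (fun i => x (i + a.deg)) (fun i => y (i + a.deg)) (fun i => h _)
    have e1 : ev (node a b) y = ⁅ev a y, ev b (fun i => y (i + a.deg))⁆ := rfl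
    have e2 : ev (node a b) x = ⁅ev a x, ev b (fun i => x (i + a.deg))⁆ := rfl
    rw [e1, e2, Th_lie, Ring.lie_def, map_sub, map_mul, map_mul, h1, h2]

lemma ev_N : ∀ (s : Br) (y : ℕ → F K), (∀ i, y i ∈ W K 0) → ev s y ∈ N K s
  | leaf => fun y h => h 0
  | node a b => by
    intro y h
    have h1 := ev_N a y h
    have h2 := ev_N b (fun i => y (i + a.deg)) (fun i => h _)
    have e1 : ev (node a b) y = ⁅ev a y, ev b (fun i => y (i + a.deg))⁆ := rfl
    have e2 : N K (node a b) = br K (N K a) (N K b) := rfl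
    rw [e1, e2, Ring.lie_def]
    exact Submodule.subset_span ⟨_, h1, _, h2, rfl⟩

end NVaux

open NVaux in
/-- `N` controls the verbal subspaces of the extension -/
theorem NV' (K : Type u) [Field K] : S_NV K := by
  intro hD s t hN
  refine (V_le K t).trans ?_
  rw [Submodule.span_le]
  rintro _ ⟨e, rfl⟩
  have h1 : ev t (fun i => wd K [(i, 0)]) ∈ N K t :=
    ev_N t _ (fun i => Submodule.subset_span ⟨i, rfl⟩)
  have h2 := ph_ev hD e t e (fun i => wd K [(i, 0)]) (fun i => ph_wd hD e i 0)
  obtain ⟨z, hz, h3⟩ := ph_N hD e s _ (hN h1)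
  have h4 : ev t e = z := Th_inj hD (h2.symm.trans h3)
  show ev t e ∈ V K (E (MEQaux.der hD)) s
  rw [h4]
  exact hz

theorem NV (K : Type u) [Field K] (hM : S_MUL K) : S_NV K := NV' K

end Pool.Agent.R325.BH
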