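import Pool.Agent.R325.BH.Base3
import Pool.Agent.R325.BH.KEY
import Pool.Agent.R325.BH.CAN

/-! Piece PAIR of project BH (MP_5ecbac_al), helper188. -/

set_option linter.all false
universe u
namespace Pool.Agent.R325.BH
namespace PairAux

open Key101

variable (K : Type u) [Field K]

/-- apply `ψ` to the first `p` letters -/
noncomputable def Cp (p : ℕ) (ψ : F K →ₗ[K] K) : F K →ₗ[K] F K :=
  lin K (fun w => ψ (wd K (w.take p)) • wd K (w.drop p))

lemma Cp_mul {p : ℕ} (ψ : F K →ₗ[K] K) {x y : F K} (hx : x ∈ Hn K p) (hy : y ∈ Hn K p) :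
    Cp K p ψ (x * y) = ψ x • y := by
  have h := ind2 K hx hy (f := Cp K p ψ)
    (g := LinearMap.mk₂ K (fun x y => ψ x • y)
      (fun x x' y => by rw [map_add, add_smul])
      (fun c x y => by rw [map_smul, smul_assoc])
      (fun x y y' => by rw [smul_add])
      (fun c x y => by rw [smul_comm]))
    (fun a b ha hb => by
      rw [LinearMap.mk₂_apply, Cp, lin_wd, ← ha, List.take_left, List.drop_left])
  exact h

lemma mainX {p N : ℕ} (hp : 1 ≤ p) {P Q R S T : Submodule K (F K)} (hP : P ≤ Hn K p)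
    (hQ : Q ≤ Hn K p) (hR : R ≤ Hn K p) (hS : S ≤ Hn K p)
    (hQr : ∀ (r : ℕ → ℕ), ∀ x ∈ Q, rel K r x ∈ Q) (hTr : ∀ (r : ℕ → ℕ), ∀ x ∈ T, rel K r x ∈ T)
    {u : F K} (hu : u ∈ P) (ψ : F K →ₗ[K] K) (hψu : ψ u ≠ 0)
    (hψN : ∀ w : Wd, (∃ a ∈ w, N ≤ a.1) → ψ (wd K w) = 0)
    (hT : ∀ r ∈ R, ∀ s ∈ S, ψ r • s - ψ s • r ∈ T) (hle : br K P Q ≤ br K R S) : Q ≤ T := by
  intro v hv
  set v' : F K := rel K (fun i => i + N) v with hv'
  have hv'Q : v' ∈ Q := hQr _ v hv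
  have h1 : u * v' - v' * u ∈ br K R S := hle (Submodule.subset_span ⟨u, hu, v', hv'Q, rfl⟩)
  have h2 : br K R S ≤ T.comap (Cp K p ψ) := by
    refine Submodule.span_le.2 ?_
    rintro _ ⟨a, ha, b, hb, rfl⟩
    show Cp K p ψ (a * b - b * a) ∈ T
    rw [map_sub, Cp_mul K ψ (hR ha) (hS hb), Cp_mul K ψ (hS hb) (hR ha)]
    exact hT a ha b hb
  have h3 : Cp K p ψ (u * v' - v' * u) ∈ T := h2 h1
  rw [map_sub, Cp_mul K ψ (hP hu) (hQ hv'Q), Cp_mul K ψ (hQ hv'Q) (hP hu)] at h3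
  have h4 : ψ v' = 0 := by
    have := ind K (p := fun w => w.length = p) (x := v) (fun w hw => hQ hv w hw)
      (f := ψ ∘ₗ (rel K (fun i => i + N)).toLinearMap) (g := 0) (fun w hw => by
        show ψ (rel K (fun i => i + N) (wd K w)) = 0
        rw [CanAux.rel_wd]
        apply hψN
        cases w with
        | nil => simp at hw; omega
        | cons a w => exact ⟨(a.1 + N, a.2), by simp, by simp⟩)
    exact this
  rw [h4, zero_smul, sub_zero] at h3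
  have h5 : v' ∈ T := by
    have := T.smul_mem (ψ u)⁻¹ h3
    rwa [smul_smul, inv_mul_cancel₀ hψu, one_smul] at this
  have h6 : rel K (fun i => i - N) v' = v := by
    have := ind K (p := fun w => True) (x := v) (fun w hw => absurd trivial hw)
      (f := (rel K (fun i => i - N)).toLinearMap ∘ₗ (rel K (fun i => i + N)).toLinearMap)
      (g := LinearMap.id) (fun w _ => by
        show rel K (fun i => i - N) (rel K (fun i => i + N) (wd K w)) = wd K w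
        rw [CanAux.rel_wd, CanAux.rel_wd]
        congr 1
        rw [List.map_map]
        conv_rhs => rw [← List.map_id w]
        apply List.map_congr_left
        intro a _
        simp)
    exact this
  rw [← h6]
  exact hTr _ _ h5

open Classical in
/-- restriction to the words with all labels `< N` -/
noncomputable def rho (N : ℕ) : F K →ₗ[K] F K :=
  lin K (fun w => if ∀ a ∈ w, a.1 < N then wd K w else 0)

open Classical in
lemma cf_rho (N : ℕ) (x : F K) (w : Wd) :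
    cf (rho K N x) w = if ∀ a ∈ w, a.1 < N then cf x w else 0 := by
  by_cases h : ∀ a ∈ w, a.1 < N
  · rw [if_pos h]
    refine ind K (p := fun _ => True) (x := x) (fun w hw => absurd trivial hw)
      (f := cfL K w ∘ₗ rho K N) (g := cfL K w) (fun u _ => ?_)
    show cf (rho K N (wd K u)) w = cf (wd K u) w
    rw [rho, lin_wd]
    by_cases hu : ∀ a ∈ u, a.1 < N
    · rw [if_pos hu]
    · rw [if_neg hu, Key101.cf_zero, Key101.cf_wd, if_neg]
      rintro rfl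
      exact hu h
  · rw [if_neg h]
    refine ind K (p := fun _ => True) (x := x) (fun w hw => absurd trivial hw)
      (f := cfL K w ∘ₗ rho K N) (g := 0) (fun u _ => ?_)
    show cf (rho K N (wd K u)) w = 0
    rw [rho, lin_wd]
    by_cases hu : ∀ a ∈ u, a.1 < N
    · rw [if_pos hu, Key101.cf_wd, if_neg]
      rintro rfl
      exact h hu
    · rw [if_neg hu, Key101.cf_zero]

lemma rho_mem {R : Submodule K (F K)} (hRk : Kil K R) (N : ℕ) {x : F K} (hx : x ∈ R) :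
    rho K N x ∈ R := by
  classical
  obtain ⟨y, hy, h1, h2⟩ := hRk (fun i => i < N) x hx
  have : rho K N x = y := by
    refine ext_cf K fun w => ?_
    rw [cf_rho]
    by_cases h : ∀ a ∈ w, a.1 < N
    · rw [if_pos h, h1 w h]
    · rw [if_neg h, h2 w (by push Not at h; simpa using h)]
  rw [this]
  exact hy

lemma orR {p : ℕ} (hp : 1 ≤ p) {P Q R S : Submodule K (F K)} (hP : P ≤ Hn K p) (hQ : Q ≤ Hn K p)
    (hR : R ≤ Hn K p) (hS : S ≤ Hn K p)
    (hQr : ∀ (r : ℕ → ℕ), ∀ x ∈ Q, rel K r x ∈ Q) (hRr : ∀ (r : ℕ → ℕ), ∀ x ∈ R, rel K r x ∈ R)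
    (hRk : Kil K R) (hle : br K P Q ≤ br K R S) : P ≤ R ∨ Q ≤ R := by
  classical
  by_cases h : P ≤ R
  · exact Or.inl h
  right
  obtain ⟨u, hu, huR⟩ := SetLike.not_le_iff_exists.1 h
  obtain ⟨φ, hφu, hφR⟩ : ∃ φ : F K →ₗ[K] K, φ u ≠ 0 ∧ ∀ x ∈ R, φ x = 0 := by
    obtain ⟨φ, h1, h2⟩ := Submodule.exists_dual_map_eq_bot_of_notMem huR inferInstance
    refine ⟨φ, h1, fun x hx => ?_⟩
    have : φ x ∈ R.map φ := ⟨x, hx, rfl⟩
    rw [h2] at this
    exact this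
  obtain ⟨N, hN⟩ := CanAux.exists_fresh u
  have hru : rho K N u = u := by
    refine ext_cf K fun w => ?_
    rw [cf_rho]
    by_cases h : ∀ a ∈ w, a.1 < N
    · rw [if_pos h]
    · rw [if_neg h]
      by_contra hc
      exact h (hN w (Ne.symm hc))
  refine mainX K (N := N) hp hP hQ hR hS hQr hRr hu (φ ∘ₗ rho K N) ?_ ?_ ?_ hle
  · show φ (rho K N u) ≠ 0
    rw [hru]
    exact hφu
  · rintro w ⟨a, ha, haN⟩
    show φ (rho K N (wd K w)) = 0
    rw [rho, lin_wd, if_neg, map_zero]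
    intro hall
    exact absurd (hall a ha) (by omega)
  · intro r hr s hs
    have h1 : (φ ∘ₗ rho K N) r = 0 := hφR _ (rho_mem K hRk N hr)
    rw [h1, zero_smul, zero_sub]
    exact R.neg_mem (R.smul_mem _ hr)

lemma leSup {p : ℕ} (hp : 1 ≤ p) {P Q R S : Submodule K (F K)} (hP : P ≤ Hn K p) (hQ : Q ≤ Hn K p)
    (hR : R ≤ Hn K p) (hS : S ≤ Hn K p) (hP0 : ∃ x ∈ P, x ≠ 0)
    (hQr : ∀ (r : ℕ → ℕ), ∀ x ∈ Q, rel K r x ∈ Q) (hRr : ∀ (r : ℕ → ℕ), ∀ x ∈ R, rel K r x ∈ R)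
    (hSr : ∀ (r : ℕ → ℕ), ∀ x ∈ S, rel K r x ∈ S)
    (hle : br K P Q ≤ br K R S) : Q ≤ R ⊔ S := by
  classical
  obtain ⟨u, hu, hu0⟩ := hP0
  obtain ⟨a, ha⟩ : ∃ a : Wd, cf u a ≠ 0 := by
    by_contra hc
    push Not at hc
    apply hu0
    refine ext_cf K fun w => ?_
    rw [hc w, Key101.cf_zero]
  obtain ⟨N, hN⟩ := CanAux.exists_fresh u
  refine mainX K (N := N) (T := R ⊔ S) hp hP hQ hR hS hQr ?_ hu (cfL K a) ha ?_ ?_ hle
  · intro r x hx
    obtain ⟨y, hy, z, hz, rfl⟩ := Submodule.mem_sup.1 hx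
    rw [map_add]
    exact Submodule.add_mem_sup (hRr r y hy) (hSr r z hz)
  · rintro w ⟨b, hb, hbN⟩
    show cf (wd K w) a = 0
    rw [Key101.cf_wd, if_neg]
    rintro rfl
    exact absurd (hN w ha b hb) (by omega)
  · intro r hr s hs
    exact Submodule.sub_mem _ (Submodule.smul_mem _ _ (Submodule.mem_sup_right hs))
      (Submodule.smul_mem _ _ (Submodule.mem_sup_left hr))

lemma brc (P Q : Submodule K (F K)) : br K P Q = br K Q P := by
  have h : ∀ P Q : Submodule K (F K), br K P Q ≤ br K Q P := by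
    intro P Q
    refine Submodule.span_le.2 ?_
    rintro _ ⟨a, ha, b, hb, rfl⟩
    have := Submodule.neg_mem (br K Q P) (Submodule.subset_span ⟨b, hb, a, ha, rfl⟩)
    rwa [neg_sub] at this
  exact le_antisymm (h P Q) (h Q P)

lemma latt {α : Type*} [Lattice α] {P Q R S : α} (h1 : P ≤ R ∨ Q ≤ R) (h2 : P ≤ S ∨ Q ≤ S)
    (h3 : R ≤ P ∨ S ≤ P) (h4 : R ≤ Q ∨ S ≤ Q) (h5 : P ≤ R ⊔ S) (h6 : Q ≤ R ⊔ S)
    (h7 : R ≤ P ⊔ Q) (h8 : S ≤ P ⊔ Q) : (P = R ∧ Q = S) ∨ (P = S ∧ Q = R) := by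
  have k5 : ∀ T, R ≤ T → S ≤ T → P ≤ T := fun T a b => h5.trans (sup_le a b)
  have k6 : ∀ T, R ≤ T → S ≤ T → Q ≤ T := fun T a b => h6.trans (sup_le a b)
  have k7 : ∀ T, P ≤ T → Q ≤ T → R ≤ T := fun T a b => h7.trans (sup_le a b)
  have k8 : ∀ T, P ≤ T → Q ≤ T → S ≤ T := fun T a b => h8.trans (sup_le a b)
  have key : ∀ P Q R S : α, (∀ T, R ≤ T → S ≤ T → P ≤ T) → (∀ T, R ≤ T → S ≤ T → Q ≤ T) →
      (∀ T, P ≤ T → Q ≤ T → R ≤ T) → (∀ T, P ≤ T → Q ≤ T → S ≤ T) →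
      (R ≤ P ∨ S ≤ P) → (R ≤ Q ∨ S ≤ Q) → P ≤ R → (P ≤ S ∨ Q ≤ S) →
      (P = R ∧ Q = S) ∨ (P = S ∧ Q = R) := by
    intro P Q R S k5 k6 k7 k8 h3 h4 hPR h2
    rcases h2 with hPS | hQS
    · rcases h3 with hRP | hSP
      · -- R = P ≤ S
        have hQS : Q ≤ S := k6 S (hRP.trans hPS) le_rfl
        rcases h4 with hRQ | hSQ
        · exact Or.inl ⟨le_antisymm hPR hRP, le_antisymm hQS (k8 Q (hPR.trans hRQ) le_rfl)⟩
        · exact Or.inl ⟨le_antisymm hPR hRP, le_antisymm hQS hSQ⟩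
      · have hQR : Q ≤ R := k6 R le_rfl (hSP.trans hPR)
        rcases h4 with hRQ | hSQ
        · exact Or.inr ⟨le_antisymm hPS hSP, le_antisymm hQR hRQ⟩
        · exact Or.inr ⟨le_antisymm hPS hSP, le_antisymm hQR (k7 Q (hPS.trans hSQ) le_rfl)⟩
    · rcases h3 with hRP | hSP
      · rcases h4 with hRQ | hSQ
        · exact Or.inl ⟨le_antisymm hPR hRP, le_antisymm hQS (k8 Q (hPR.trans hRQ) le_rfl)⟩
        · exact Or.inl ⟨le_antisymm hPR hRP, le_antisymm hQS hSQ⟩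
      · have hRP : R ≤ P := k7 P le_rfl (hQS.trans hSP)
        rcases h4 with hRQ | hSQ
        · exact Or.inl ⟨le_antisymm hPR hRP, le_antisymm hQS (hSP.trans (hPR.trans hRQ))⟩
        · exact Or.inl ⟨le_antisymm hPR hRP, le_antisymm hQS hSQ⟩
  rcases h1 with hPR | hQR
  · exact key P Q R S k5 k6 k7 k8 h3 h4 hPR h2
  · have := key Q P R S k6 k5 (fun T a b => k7 T b a) (fun T a b => k8 T b a) h4 h3 hQR
      (h2.symm)
    rcases this with ⟨a, b⟩ | ⟨a, b⟩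
    · exact Or.inr ⟨b, a⟩
    · exact Or.inl ⟨b, a⟩

end PairAux

open PairAux in
theorem PAIR (K : Type u) [Field K] (hM : S_MUL K) : S_PAIR K := by
  intro p dP dQ dR dS P Q R S hp mP mQ mR mS kP kQ kR kS h
  have hle : br K P Q ≤ br K R S := h.le
  have hge : br K R S ≤ br K P Q := h.ge
  have hle2 : br K P Q ≤ br K S R := by rw [brc K S R]; exact hle
  have hge2 : br K R S ≤ br K Q P := by rw [brc K Q P]; exact hge
  have hle3 : br K Q P ≤ br K R S := by rw [brc K Q P]; exact hle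
  have hge3 : br K S R ≤ br K P Q := by rw [brc K S R]; exact hge
  refine latt ?_ ?_ ?_ ?_ ?_ ?_ ?_ ?_
  · exact orR K hp mP.hn mQ.hn mR.hn mS.hn mQ.hr mR.hr kR hle
  · exact orR K hp mP.hn mQ.hn mS.hn mR.hn mQ.hr mS.hr kS hle2
  · exact orR K hp mR.hn mS.hn mP.hn mQ.hn mS.hr mP.hr kP hge
  · exact orR K hp mR.hn mS.hn mQ.hn mP.hn mS.hr mQ.hr kQ hge2
  · exact leSup K hp mQ.hn mP.hn mR.hn mS.hn mQ.h0 mP.hr mR.hr mS.hr hle3
  · exact leSup K hp mP.hn mQ.hn mR.hn mS.hn mP.h0 mQ.hr mR.hr mS.hr hle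
  · exact leSup K hp mS.hn mR.hn mP.hn mQ.hn mS.h0 mR.hr mP.hr mQ.hr hge3
  · exact leSup K hp mR.hn mS.hn mP.hn mQ.hn mR.h0 mS.hr mP.hr mQ.hr hge

end Pool.Agent.R325.BH
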