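import Pool.Agent.R325.BH.Base2

/-!
BH-ROOT: the root lemma for two factors of different lengths.
-/

set_option linter.all false
universe u
namespace Pool.Agent.R325.BH

open Pool.Agent.Results.MP_5ecbac_al
open ThreeCherries ThreeCherries.Br Skeleton

attribute [local instance 100] LieRing.ofAssociativeRing

namespace RootAux

variable {K : Type u} [Field K]

lemma cf_ext (x y : F K) (h : ∀ w, cf x w = cf y w) : x = y := by
  apply MonoidAlgebra.ext
  ext w
  exact h w.toList

lemma cf_zero (w : Wd) : cf (0 : F K) w = 0 := by simp [cf]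

lemma cf_add (x y : F K) (w : Wd) : cf (x + y) w = cf x w + cf y w := by
  simp [cf]

lemma cf_sub (x y : F K) (w : Wd) : cf (x - y) w = cf x w - cf y w := by
  simp [cf]

lemma cf_smul (c : K) (x : F K) (w : Wd) : cf (c • x) w = c * cf x w := by
  simp [cf]

lemma exists_cf (x : F K) (hx : x ≠ 0) : ∃ w, cf x w ≠ 0 := by
  by_contra h
  push Not at h
  exact hx (cf_ext x 0 fun w => by rw [h w, cf_zero])

/-- relabel a letter -/
def fm (r : ℕ → ℕ) (a : ℕ × ℕ) : ℕ × ℕ := (r a.1, a.2)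

lemma fm_inj (r : ℕ → ℕ) (hr : Function.Injective r) : Function.Injective (fm r) := by
  rintro ⟨a, b⟩ ⟨c, d⟩ h
  simp only [fm, Prod.mk.injEq] at h
  rw [Prod.mk.injEq]
  exact ⟨hr h.1, h.2⟩

lemma cf_rel (r : ℕ → ℕ) (hr : Function.Injective r) (x : F K) (w : Wd) :
    cf (rel K r x) (w.map (fm r)) = cf x w := by
  have h1 : (rel K r x).coeff = Finsupp.mapDomain (FreeMonoid.map (fm r)) x.coeff := rfl
  unfold cf
  rw [h1]
  have h2 : FreeMonoid.ofList (w.map (fm r)) = FreeMonoid.map (fm r) (FreeMonoid.ofList w) := rfl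
  rw [h2]
  refine Finsupp.mapDomain_apply ?_ _ _
  intro a b hab
  have h3 : a.toList.map (fm r) = b.toList.map (fm r) := hab
  exact (List.map_injective_iff.2 (fm_inj r hr)) h3

lemma cf_rel_range (r : ℕ → ℕ) (x : F K) (w : Wd) (h : cf (rel K r x) w ≠ 0) :
    ∃ w' : Wd, w = w'.map (fm r) := by
  have h1 : (rel K r x).coeff = Finsupp.mapDomain (FreeMonoid.map (fm r)) x.coeff := rfl
  unfold cf at h
  rw [h1] at h
  by_contra hne
  apply h
  refine Finsupp.mapDomain_notin_range _ _ ?_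
  rintro ⟨v, hv⟩
  exact hne ⟨v.toList, congrArg FreeMonoid.toList hv.symm⟩

lemma labels (x : F K) : ∃ N : ℕ, ∀ w : Wd, cf x w ≠ 0 → ∀ a ∈ w, a.1 < N := by
  classical
  refine ⟨(∑ m ∈ x.coeff.support, ((FreeMonoid.toList m).map Prod.fst).sum) + 1, ?_⟩
  intro w hw a ha
  have h1 : FreeMonoid.ofList w ∈ x.coeff.support := Finsupp.mem_support_iff.2 hw
  have h2 : ((FreeMonoid.toList (FreeMonoid.ofList w)).map Prod.fst).sum ≤
      ∑ m ∈ x.coeff.support, ((FreeMonoid.toList m).map Prod.fst).sum :=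
    Finset.single_le_sum (f := fun m : FreeMonoid (ℕ × ℕ) => ((FreeMonoid.toList m).map Prod.fst).sum)
      (fun _ _ => Nat.zero_le _) h1
  have h3 : a.1 ≤ (w.map Prod.fst).sum :=
    List.single_le_sum (fun _ _ => Nat.zero_le _) _ (List.mem_map_of_mem ha)
  rw [FreeMonoid.toList_ofList] at h2
  omega

/-- fresh relabelled element -/
lemma fresh {Q : Submodule K (F K)} (hr : ∀ (r : ℕ → ℕ), ∀ x ∈ Q, rel K r x ∈ Q)
    (h0 : ∃ x ∈ Q, x ≠ 0) (N : ℕ) :
    ∃ v ∈ Q, (∃ b, cf v b ≠ 0) ∧ ∀ w : Wd, cf v w ≠ 0 → ∀ a ∈ w, N ≤ a.1 := by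
  obtain ⟨v, hv, hv0⟩ := h0
  have hinj : Function.Injective (fun i : ℕ => i + N) := fun a b h => by
    simp only at h; omega
  refine ⟨rel K (fun i => i + N) v, hr _ v hv, ?_, ?_⟩
  · obtain ⟨b, hb⟩ := exists_cf v hv0
    refine ⟨b.map (fm (fun i => i + N)), ?_⟩
    rw [cf_rel _ hinj]
    exact hb
  · intro w hw a ha
    obtain ⟨w', rfl⟩ := cf_rel_range _ v w hw
    obtain ⟨c, hc, rfl⟩ := List.mem_map.1 ha
    simp [fm]

/-- span of the products -/
noncomputable def T (R S : Submodule K (F K)) : Submodule K (F K) :=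
  Submodule.span K {z | ∃ x ∈ R, ∃ y ∈ S, z = x * y}

lemma mulap (hM : S_MUL K) {p : ℕ} {x y : F K} (hx : x ∈ Hn K p) {a : Wd} (ha : a.length = p)
    (b : Wd) : cf (x * y) (a ++ b) = cf x a * cf y b := by
  rw [hM p x y hx (a ++ b) (by simp [ha]), List.take_left' ha, List.drop_left' ha]

lemma rotmul (hM : S_MUL K) {p q : ℕ} {x y : F K} (hx : x ∈ Hn K p) (hy : y ∈ Hn K q) {w : Wd}
    (hw : w.length = p + q) : cf (y * x) w = cf (x * y) (w.drop q ++ w.take q) := by
  rw [mulap hM hx (by rw [List.length_drop]; omega), hM q y x hy w (by omega), mul_comm]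

lemma rep (hM : S_MUL K) {p q : ℕ} {R S : Submodule K (F K)} (hR : R ≤ Hn K p) (hS : S ≤ Hn K q)
    {z : F K} (hz : z ∈ br K R S) :
    ∃ X ∈ T R S, ∀ w : Wd, w.length = p + q →
      cf z w = cf X w - cf X (w.drop q ++ w.take q) := by
  unfold br at hz
  induction hz using Submodule.span_induction with
  | mem z hz =>
    obtain ⟨x, hx, y, hy, rfl⟩ := hz
    refine ⟨x * y, Submodule.subset_span ⟨x, hx, y, hy, rfl⟩, ?_⟩
    intro w hw
    rw [cf_sub, rotmul hM (hR hx) (hS hy) hw]
  | zero =>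
    refine ⟨0, Submodule.zero_mem _, ?_⟩
    intro w hw
    rw [cf_zero, cf_zero, sub_zero]
  | add a b _ _ ha hb =>
    obtain ⟨X, hX, h1⟩ := ha
    obtain ⟨Y, hY, h2⟩ := hb
    refine ⟨X + Y, Submodule.add_mem _ hX hY, ?_⟩
    intro w hw
    rw [cf_add, cf_add, cf_add, h1 w hw, h2 w hw]
    ring
  | smul c a _ ha =>
    obtain ⟨X, hX, h1⟩ := ha
    refine ⟨c • X, Submodule.smul_mem _ _ hX, ?_⟩
    intro w hw
    rw [cf_smul, cf_smul, cf_smul, h1 w hw]
    ring

lemma T_left (hM : S_MUL K) {p : ℕ} {R S : Submodule K (F K)} (hR : R ≤ Hn K p) {X : F K}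
    (hX : X ∈ T R S) (b : Wd) : ∃ r ∈ R, ∀ a : Wd, a.length = p → cf X (a ++ b) = cf r a := by
  unfold T at hX
  induction hX using Submodule.span_induction with
  | mem z hz =>
    obtain ⟨x, hx, y, hy, rfl⟩ := hz
    refine ⟨cf y b • x, Submodule.smul_mem _ _ hx, ?_⟩
    intro a ha
    rw [mulap hM (hR hx) ha, cf_smul, mul_comm]
  | zero => exact ⟨0, Submodule.zero_mem _, fun a ha => by rw [cf_zero, cf_zero]⟩
  | add x y _ _ hx hy =>
    obtain ⟨r, hr, h1⟩ := hx
    obtain ⟨s, hs, h2⟩ := hy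
    exact ⟨r + s, Submodule.add_mem _ hr hs, fun a ha => by
      rw [cf_add, cf_add, h1 a ha, h2 a ha]⟩
  | smul c x _ hx =>
    obtain ⟨r, hr, h1⟩ := hx
    exact ⟨c • r, Submodule.smul_mem _ _ hr, fun a ha => by rw [cf_smul, cf_smul, h1 a ha]⟩

lemma T_right (hM : S_MUL K) {p : ℕ} {R S : Submodule K (F K)} (hR : R ≤ Hn K p) {X : F K}
    (hX : X ∈ T R S) {a : Wd} (ha : a.length = p) :
    ∃ s ∈ S, ∀ b : Wd, cf X (a ++ b) = cf s b := by
  unfold T at hX
  induction hX using Submodule.span_induction with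
  | mem z hz =>
    obtain ⟨x, hx, y, hy, rfl⟩ := hz
    refine ⟨cf x a • y, Submodule.smul_mem _ _ hy, ?_⟩
    intro b
    rw [mulap hM (hR hx) ha, cf_smul]
  | zero => exact ⟨0, Submodule.zero_mem _, fun b => by rw [cf_zero, cf_zero]⟩
  | add x y _ _ hx hy =>
    obtain ⟨r, hr, h1⟩ := hx
    obtain ⟨s, hs, h2⟩ := hy
    exact ⟨r + s, Submodule.add_mem _ hr hs, fun b => by rw [cf_add, cf_add, h1 b, h2 b]⟩
  | smul c x _ hx =>
    obtain ⟨r, hr, h1⟩ := hx
    exact ⟨c • r, Submodule.smul_mem _ _ hr, fun b => by rw [cf_smul, cf_smul, h1 b]⟩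

/-- the rotation invariance -/
lemma inv (hM : S_MUL K) {p q : ℕ} {P Q R S : Submodule K (F K)} (hP : P ≤ Hn K p)
    (hQ : Q ≤ Hn K q) (hR : R ≤ Hn K p) (hS : S ≤ Hn K q) (hle : br K P Q ≤ br K R S)
    {u v : F K} (hu : u ∈ P) (hv : v ∈ Q) :
    ∃ X ∈ T R S, ∀ w : Wd, w.length = p + q →
      cf (u * v) w - cf X w =
        cf (u * v) (w.drop q ++ w.take q) - cf X (w.drop q ++ w.take q) := by
  have hz : u * v - v * u ∈ br K R S := hle (Submodule.subset_span ⟨u, hu, v, hv, rfl⟩)
  obtain ⟨X, hX, h⟩ := rep hM hR hS hz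
  refine ⟨X, hX, ?_⟩
  intro w hw
  have h1 := h w hw
  rw [cf_sub, rotmul hM (hP hu) (hQ hv) hw] at h1
  linear_combination h1

lemma stepA (hM : S_MUL K) {p q dP dQ dR dS : ℕ} {P Q R S : Submodule K (F K)} (hq : 1 ≤ q)
    (hqp : q < p) (mP : Mk K P p dP) (mQ : Mk K Q q dQ) (mR : Mk K R p dR) (mS : Mk K S q dS)
    (hle : br K P Q ≤ br K R S) (hne : dQ ≠ dS) :
    ∀ x ∈ P, ∀ w : Wd, wt (w.take q) ≠ dS → cf x w = 0 := by
  intro u hu w hw
  by_contra hcf
  have hwl : w.length = p := by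
    by_contra hc
    exact hcf (mP.hn hu w hc)
  obtain ⟨N, hN⟩ := labels u
  obtain ⟨v, hv, ⟨b, hb⟩, hfr⟩ := fresh mQ.hr mQ.h0 N
  have hbl : b.length = q := by
    by_contra hc
    exact hb (mQ.hn hv b hc)
  have hbw : wt b = dQ := by
    by_contra hc
    exact hb (mQ.hw v hv b hc)
  obtain ⟨X, hX, h⟩ := inv hM mP.hn mQ.hn mR.hn mS.hn hle hu hv
  have h1 := h (w ++ b) (by rw [List.length_append, hwl, hbl])
  have hd : (w ++ b).drop q = w.drop q ++ b := by
    rw [List.drop_append_of_le_length (by omega)]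
  have ht : (w ++ b).take q = w.take q := by
    rw [List.take_append_of_le_length (by omega)]
  rw [hd, ht, mulap hM (mP.hn hu) hwl b] at h1
  obtain ⟨s, hs, hs1⟩ := T_right hM mR.hn hX hwl
  rw [hs1 b, mS.hw s hs b (by rw [hbw]; exact hne), sub_zero,
    mulap hM (mP.hn hu) (a := w.drop q ++ b) (by rw [List.length_append, List.length_drop, hwl, hbl]; omega)] at h1
  have hv0 : cf v (w.take q) = 0 := by
    by_contra hc
    obtain ⟨c, hc'⟩ : ∃ c, c ∈ w.take q := by
      apply List.exists_mem_of_length_pos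
      rw [List.length_take]; omega
    have e1 := hfr _ hc c hc'
    have e2 := hN w hcf c (List.mem_of_mem_take hc')
    omega
  obtain ⟨s', hs', hs1'⟩ := T_right hM mR.hn hX (a := w.drop q ++ b)
    (by rw [List.length_append, List.length_drop, hwl, hbl]; omega)
  rw [hv0, mul_zero, hs1', mS.hw s' hs' _ hw, sub_zero] at h1
  exact (mul_ne_zero hcf hb) h1

lemma wt_append (a b : Wd) : wt (a ++ b) = wt a + wt b := by
  simp [wt]

/-- exponent function, periodically extended -/
def ex (w : Wd) (i : ℕ) : ℕ := (w.getD (i % w.length) (0, 0)).2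

lemma wt_take (w : Wd) (p : ℕ) : wt (w.take p) = ∑ i ∈ Finset.range p, (w.getD i (0, 0)).2 := by
  induction p generalizing w with
  | zero => simp [wt]
  | succ p ih =>
    cases w with
    | nil => simp [wt]
    | cons a w =>
      rw [Finset.sum_range_succ', List.take_succ_cons]
      have := ih w
      simp only [wt, List.map_cons, List.sum_cons, List.getD_cons_succ, List.getD_cons_zero] at this ⊢
      rw [this, add_comm]

lemma wt_rot (w : Wd) (hw : w ≠ []) (m q : ℕ) (hq : q ≤ w.length) :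
    wt ((w.rotate m).take q) = ∑ j ∈ Finset.range q, ex w (m + j) := by
  rw [wt_take]
  refine Finset.sum_congr rfl fun j hj => ?_
  have hj' := Finset.mem_range.1 hj
  have hlen : 0 < w.length := List.length_pos_of_ne_nil hw
  unfold ex
  rw [List.getD_eq_getElem _ _ (by rw [List.length_rotate]; omega), List.getElem_rotate,
    List.getD_eq_getElem _ _ (Nat.mod_lt _ hlen)]
  congr 2
  rw [add_comm]

lemma sum_ex (w : Wd) (hw : w ≠ []) (k : ℕ) :
    ∑ i ∈ Finset.range (k * w.length), ex w i = k * wt w := by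
  induction k with
  | zero => simp
  | succ k ih =>
    rw [Nat.succ_mul, Finset.sum_range_add, ih, Nat.succ_mul]
    congr 1
    have h := wt_take w w.length
    rw [List.take_length] at h
    rw [h]
    refine Finset.sum_congr rfl fun j hj => ?_
    have hj' := Finset.mem_range.1 hj
    unfold ex
    rw [Nat.mul_comm, Nat.mul_add_mod, Nat.mod_eq_of_lt hj']

lemma sum_win (f : ℕ → ℕ) (q d : ℕ) (k : ℕ) (h : ∀ i < k, ∑ j ∈ Finset.range q, f (i * q + j) = d) :
    ∑ i ∈ Finset.range (k * q), f i = k * d := by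
  induction k with
  | zero => simp
  | succ k ih =>
    rw [Nat.succ_mul, Finset.sum_range_add, ih (fun i hi => h i (by omega)), h k (by omega),
      Nat.succ_mul]

lemma stepB0 {p q dP dQ : ℕ} (hq : 1 ≤ q) (hqp : q < p) (Y : Wd → K)
    (hY : ∀ w : Wd, w.length = p + q → Y w = Y (w.drop q ++ w.take q))
    (h1 : ∀ w : Wd, w.length = p + q → Y w ≠ 0 → wt (w.drop p) = dQ)
    (h2 : ∀ w : Wd, w.length = p + q → Y w ≠ 0 → wt w = dP + dQ)
    (hne : dP * q ≠ dQ * p) (w : Wd) (hw : w.length = p + q) : Y w = 0 := by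
  by_contra hc
  have hw0 : w ≠ [] := by
    rintro rfl
    simp at hw
    omega
  have hrot : ∀ w : Wd, w.length = p + q → w.drop q ++ w.take q = w.rotate q := by
    intro w hw
    rw [List.rotate_eq_drop_append_take (by omega)]
  have key : ∀ i : ℕ, Y (w.rotate (i * q)) ≠ 0 := by
    intro i
    induction i with
    | zero => simpa using hc
    | succ i ih =>
      have hl : (w.rotate (i * q)).length = p + q := by rw [List.length_rotate, hw]
      rw [hY _ hl, hrot _ hl, List.rotate_rotate] at ih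
      rw [Nat.succ_mul]
      exact ih
  have hwin : ∀ i < p + q, ∑ j ∈ Finset.range q, ex w (i * q + j) = dQ := by
    intro i hi
    rw [← wt_rot w hw0 (i * q) q (by omega)]
    have hl : (w.rotate (i * q)).length = p + q := by rw [List.length_rotate, hw]
    have hl' : (w.rotate ((i + 1) * q)).length = p + q := by rw [List.length_rotate, hw]
    have e1 := h1 _ hl' (key (i + 1))
    have e2 : w.rotate ((i + 1) * q) = (w.rotate (i * q)).drop q ++ (w.rotate (i * q)).take q := by
      rw [hrot _ hl, List.rotate_rotate, Nat.succ_mul]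
    rw [e2, List.drop_left' (by rw [List.length_drop, hl]; omega)] at e1
    exact e1
  have s1 := sum_win (ex w) q dQ (p + q) hwin
  have s2 := sum_ex w hw0 q
  rw [hw, Nat.mul_comm q (p + q), s1, h2 w hw hc] at s2
  apply hne
  nlinarith [s2]

lemma stepB (hM : S_MUL K) {p q dP dQ dR dS : ℕ} {P Q R S : Submodule K (F K)} (hq : 1 ≤ q)
    (hqp : q < p) (mP : Mk K P p dP) (mQ : Mk K Q q dQ) (mR : Mk K R p dR) (mS : Mk K S q dS)
    (hle : br K P Q ≤ br K R S) (heq : dQ = dS) (hPR : dP = dR) (hne : dP * q ≠ dQ * p) :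
    P ≤ R ∧ Q ≤ S := by
  subst heq
  subst hPR
  have main : ∀ u ∈ P, ∀ v ∈ Q, ∃ X ∈ T R S, ∀ a b : Wd, a.length = p → b.length = q →
      cf u a * cf v b = cf X (a ++ b) := by
    intro u hu v hv
    obtain ⟨X, hX, h⟩ := inv hM mP.hn mQ.hn mR.hn mS.hn hle hu hv
    refine ⟨X, hX, ?_⟩
    have split : ∀ w : Wd, w.length = p + q → cf (u * v) w - cf X w ≠ 0 →
        wt (w.take p) = dP ∧ wt (w.drop p) = dQ := by
      intro w hw hne0
      have htl : (w.take p).length = p := by rw [List.length_take]; omega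
      have e0 : w = w.take p ++ w.drop p := (List.take_append_drop p w).symm
      rw [e0, mulap hM (mP.hn hu) htl] at hne0
      obtain ⟨r, hr, hr1⟩ := T_left hM mR.hn hX (w.drop p)
      obtain ⟨s, hs, hs1⟩ := T_right hM mR.hn hX htl
      constructor
      · by_contra hc
        apply hne0
        rw [mP.hw u hu _ hc, hr1 _ htl, mR.hw r hr _ hc]
        ring
      · by_contra hc
        apply hne0
        rw [mQ.hw v hv _ hc, hs1, mS.hw s hs _ hc]
        ring
    intro a b ha hb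
    have this : cf (u * v) (a ++ b) - cf X (a ++ b) = 0 := stepB0 (dP := dP) (dQ := dQ) hq hqp (fun w => cf (u * v) w - cf X w) h
      (fun w hw h0 => (split w hw h0).2) (fun w hw h0 => by
        have e0 : w = w.take p ++ w.drop p := (List.take_append_drop p w).symm
        rw [e0, wt_append, (split w hw h0).1, (split w hw h0).2]) hne (a ++ b)
        (by rw [List.length_append, ha, hb])
    rw [mulap hM (mP.hn hu) ha, sub_eq_zero] at this
    exact this
  constructor
  · intro u hu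
    obtain ⟨v, hv, hv0⟩ := mQ.h0
    obtain ⟨b, hb⟩ := exists_cf v hv0
    have hbl : b.length = q := by
      by_contra hc
      exact hb (mQ.hn hv b hc)
    obtain ⟨X, hX, hX1⟩ := main u hu v hv
    obtain ⟨r, hr, hr1⟩ := T_left hM mR.hn hX b
    have : u = (cf v b)⁻¹ • r := by
      apply cf_ext
      intro a
      rw [cf_smul]
      by_cases ha : a.length = p
      · rw [← hr1 a ha, ← hX1 a b ha hbl]
        field_simp
      · rw [mP.hn hu a ha, mR.hn hr a ha, mul_zero]
    rw [this]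
    exact Submodule.smul_mem _ _ hr
  · intro v hv
    obtain ⟨u, hu, hu0⟩ := mP.h0
    obtain ⟨a, ha⟩ := exists_cf u hu0
    have hal : a.length = p := by
      by_contra hc
      exact ha (mP.hn hu a hc)
    obtain ⟨X, hX, hX1⟩ := main u hu v hv
    obtain ⟨s, hs, hs1⟩ := T_right hM mR.hn hX hal
    have : v = (cf u a)⁻¹ • s := by
      apply cf_ext
      intro b
      rw [cf_smul]
      by_cases hb : b.length = q
      · rw [← hs1 b, ← hX1 a b hal hb]
        field_simp
      · rw [mQ.hn hv b hb, mS.hn hs b hb, mul_zero]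
    rw [this]
    exact Submodule.smul_mem _ _ hs

end RootAux

open RootAux in
theorem ROOT (K : Type u) [Field K] (hM : S_MUL K) : S_ROOT K := by
  intro p q dP dQ dR dS P Q R S hq hqp mP mQ mR mS hP hR heq hd hne
  have hQS : dQ = dS := by
    by_contra hc
    have e1 := hP dS (stepA hM hq hqp mP mQ mR mS heq.le hc)
    have e2 := hR dQ (stepA hM hq hqp mR mS mP mQ heq.ge (Ne.symm hc))
    apply hc
    have e3 : (dQ : ℤ) * p = q * dR := by exact_mod_cast e2
    have e4 : (dS : ℤ) * p = q * dP := by exact_mod_cast e1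
    have e5 : (dP : ℤ) + dQ = dR + dS := by exact_mod_cast hd
    have e6 : ((dQ : ℤ) - dS) * ((p : ℤ) - q) = 0 := by
      have : ((dQ : ℤ) - dS) * ((p : ℤ) - q) = dQ * p - dS * p - q * dQ + q * dS := by ring
      rw [this, e3, e4]
      linear_combination (-(q : ℤ)) * e5
    rcases mul_eq_zero.1 e6 with h | h
    · omega
    · omega
  have hPR : dP = dR := by omega
  obtain ⟨h1, h2⟩ := stepB hM hq hqp mP mQ mR mS heq.le hQS hPR hne
  obtain ⟨h3, h4⟩ := stepB hM hq hqp mR mS mP mQ heq.ge hQS.symm hPR.symm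
    (by rw [← hPR, ← hQS]; exact hne)
  exact ⟨le_antisymm h1 h3, le_antisymm h2 h4⟩

end Pool.Agent.R325.BH
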