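import Pool.Agent.R325.BH.Base2

set_option linter.all false
universe u
namespace Pool.Agent.R325.BH

open Pool.Agent.Results.MP_5ecbac_al
open ThreeCherries ThreeCherries.Br Skeleton

attribute [local instance 100] LieRing.ofAssociativeRing

namespace ROQaux

variable {K : Type u} [Field K]

theorem cf_ext {x y : F K} (h : ∀ w : Wd, cf x w = cf y w) : x = y := by
  apply MonoidAlgebra.ext
  apply Finsupp.ext
  intro m
  exact h (FreeMonoid.toList m)

theorem cf_sub (x y : F K) (w : Wd) : cf (x - y) w = cf x w - cf y w := by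
  simp [cf, MonoidAlgebra.coeff_sub]

theorem cf_add (x y : F K) (w : Wd) : cf (x + y) w = cf x w + cf y w := by
  simp [cf, MonoidAlgebra.coeff_add]

theorem cf_smul (c : K) (y : F K) (w : Wd) : cf (c • y) w = c * cf y w := by
  simp [cf, MonoidAlgebra.coeff_smul]

theorem cf_zero (w : Wd) : cf (0 : F K) w = 0 := by
  simp [cf]

theorem cf_mul (hM : S_MUL K) {p : ℕ} {x y : F K} (hx : x ∈ Hn K p) (a b : Wd) (ha : a.length = p) :
    cf (x * y) (a ++ b) = cf x a * cf y b := by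
  have h := hM p x y hx (a ++ b) (by simp [ha])
  rw [h]
  subst ha
  simp

/-- coefficient of a commutator -/
theorem cf_comm (hM : S_MUL K) {p : ℕ} {x y : F K} (hx : x ∈ Hn K p) (hy : y ∈ Hn K p)
    (a b : Wd) (ha : a.length = p) :
    cf (x * y - y * x) (a ++ b) = cf x a * cf y b - cf y a * cf x b := by
  rw [cf_sub, cf_mul hM hx a b ha, cf_mul hM hy a b ha]

theorem exR (hM : S_MUL K) {p dR dS : ℕ} {R S : Submodule K (F K)}
    (hR : Mk K R p dR) (hS : Mk K S p dS) (hne : dR ≠ dS) (b : Wd) :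
    ∀ z ∈ br K R S, ∃ r ∈ R, ∀ a : Wd, a.length = p → wt a = dR → cf z (a ++ b) = cf r a := by
  intro z hz
  unfold br at hz
  induction hz using Submodule.span_induction with
  | mem z hz =>
    obtain ⟨x, hx, y, hy, rfl⟩ := hz
    refine ⟨(cf y b) • x, R.smul_mem _ hx, ?_⟩
    intro a ha hwa
    rw [cf_comm hM (hR.hn hx) (hS.hn hy) a b ha, hS.hw y hy a (by rw [hwa]; exact hne), cf_smul]
    ring
  | zero =>
    refine ⟨0, R.zero_mem, ?_⟩
    intro a _ _
    rw [cf_zero, cf_zero]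
  | add z1 z2 _ _ h1 h2 =>
    obtain ⟨r1, hr1, e1⟩ := h1
    obtain ⟨r2, hr2, e2⟩ := h2
    refine ⟨r1 + r2, R.add_mem hr1 hr2, ?_⟩
    intro a ha hwa
    rw [cf_add, cf_add, e1 a ha hwa, e2 a ha hwa]
  | smul c z1 _ h1 =>
    obtain ⟨r1, hr1, e1⟩ := h1
    refine ⟨c • r1, R.smul_mem _ hr1, ?_⟩
    intro a ha hwa
    rw [cf_smul, cf_smul, e1 a ha hwa]

theorem exS (hM : S_MUL K) {p dR dS : ℕ} {R S : Submodule K (F K)}
    (hR : Mk K R p dR) (hS : Mk K S p dS) (hne : dR ≠ dS) (a : Wd) (ha : a.length = p)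
    (hwa : wt a = dR) :
    ∀ z ∈ br K R S, ∃ s ∈ S, ∀ b : Wd, cf z (a ++ b) = cf s b := by
  intro z hz
  unfold br at hz
  induction hz using Submodule.span_induction with
  | mem z hz =>
    obtain ⟨x, hx, y, hy, rfl⟩ := hz
    refine ⟨(cf x a) • y, S.smul_mem _ hy, ?_⟩
    intro b
    rw [cf_comm hM (hR.hn hx) (hS.hn hy) a b ha, hS.hw y hy a (by rw [hwa]; exact hne), cf_smul]
    ring
  | zero =>
    refine ⟨0, S.zero_mem, ?_⟩
    intro b
    rw [cf_zero, cf_zero]
  | add z1 z2 _ _ h1 h2 =>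
    obtain ⟨r1, hr1, e1⟩ := h1
    obtain ⟨r2, hr2, e2⟩ := h2
    refine ⟨r1 + r2, S.add_mem hr1 hr2, ?_⟩
    intro b
    rw [cf_add, cf_add, e1 b, e2 b]
  | smul c z1 _ h1 =>
    obtain ⟨r1, hr1, e1⟩ := h1
    refine ⟨c • r1, S.smul_mem _ hr1, ?_⟩
    intro b
    rw [cf_smul, cf_smul, e1 b]

theorem exw {p dP : ℕ} {P : Submodule K (F K)} (hP : Mk K P p dP) :
    ∃ x ∈ P, ∃ a : Wd, a.length = p ∧ wt a = dP ∧ cf x a ≠ 0 := by
  obtain ⟨x, hx, hx0⟩ := hP.h0
  have : ∃ a : Wd, cf x a ≠ 0 := by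
    by_contra hcon
    push Not at hcon
    exact hx0 (cf_ext (fun w => by rw [hcon w, cf_zero]))
  obtain ⟨a, ha⟩ := this
  refine ⟨x, hx, a, ?_, ?_, ha⟩
  · by_contra hl
    exact ha (hP.hn hx a hl)
  · by_contra hl
    exact ha (hP.hw x hx a hl)

theorem le_br {P Q : Submodule K (F K)} {x y : F K} (hx : x ∈ P) (hy : y ∈ Q) :
    x * y - y * x ∈ br K P Q :=
  Submodule.subset_span ⟨x, hx, y, hy, rfl⟩

/-- the inclusion lemma -/
theorem incl (hM : S_MUL K) {p d e : ℕ} {P Q R S : Submodule K (F K)}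
    (hP : Mk K P p d) (hQ : Mk K Q p e) (hR : Mk K R p d) (hS : Mk K S p e) (hne : d ≠ e)
    (hb : br K P Q ≤ br K R S) : P ≤ R ∧ Q ≤ S := by
  constructor
  · intro u hu
    obtain ⟨v, hv, b, hbl, hbw, hb0⟩ := exw hQ
    obtain ⟨r, hr, er⟩ := exR hM hR hS hne b (u * v - v * u) (hb (le_br hu hv))
    have key : u = (cf v b)⁻¹ • r := by
      apply cf_ext
      intro w
      rw [cf_smul]
      by_cases hl : w.length = p
      · by_cases hw : wt w = d
        · have h := er w hl hw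
          rw [cf_comm hM (hP.hn hu) (hQ.hn hv) w b hl, hQ.hw v hv w (by rw [hw]; exact hne)] at h
          rw [← h]
          field_simp
          ring
        · rw [hP.hw u hu w hw, hR.hw r hr w hw, mul_zero]
      · rw [hP.hn hu w hl, hR.hn hr w hl, mul_zero]
    rw [key]
    exact R.smul_mem _ hr
  · intro v hv
    obtain ⟨u, hu, a, hal, haw, ha0⟩ := exw hP
    obtain ⟨s, hs, es⟩ := exS hM hR hS hne a hal haw (u * v - v * u) (hb (le_br hu hv))
    have key : v = (cf u a)⁻¹ • s := by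
      apply cf_ext
      intro w
      rw [cf_smul, ← es w, cf_comm hM (hP.hn hu) (hQ.hn hv) a w hal,
        hQ.hw v hv a (by rw [haw]; exact hne)]
      field_simp
      ring
    rw [key]
    exact S.smul_mem _ hs

theorem br_comm (P Q : Submodule K (F K)) : br K P Q ≤ br K Q P := by
  unfold br
  apply Submodule.span_le.mpr
  rintro z ⟨x, hx, y, hy, rfl⟩
  have h : x * y - y * x = -(y * x - x * y) := by abel
  rw [h]
  exact Submodule.neg_mem _ (Submodule.subset_span ⟨y, hy, x, hx, rfl⟩)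

/-- prefix weights of `br R S` -/
theorem pre (hM : S_MUL K) {p dR dS : ℕ} {R S : Submodule K (F K)}
    (hR : Mk K R p dR) (hS : Mk K S p dS) :
    ∀ z ∈ br K R S, ∀ a b : Wd, a.length = p → wt a ≠ dR → wt a ≠ dS → cf z (a ++ b) = 0 := by
  intro z hz a b ha h1 h2
  unfold br at hz
  induction hz using Submodule.span_induction with
  | mem z hz =>
    obtain ⟨x, hx, y, hy, rfl⟩ := hz
    rw [cf_comm hM (hR.hn hx) (hS.hn hy) a b ha, hR.hw x hx a h1, hS.hw y hy a h2]
    ring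
  | zero => rw [cf_zero]
  | add z1 z2 _ _ h1 h2 => rw [cf_add, h1, h2, add_zero]
  | smul c z1 _ h1 => rw [cf_smul, h1, mul_zero]

/-- the weight of `P` occurs as a prefix weight -/
theorem occ (hM : S_MUL K) {p dP dQ dR dS : ℕ} {P Q R S : Submodule K (F K)}
    (hP : Mk K P p dP) (hQ : Mk K Q p dQ) (hR : Mk K R p dR) (hS : Mk K S p dS) (hne : dP ≠ dQ)
    (hb : br K P Q ≤ br K R S) : dP = dR ∨ dP = dS := by
  obtain ⟨u, hu, a, hal, haw, ha0⟩ := exw hP
  obtain ⟨v, hv, b, hbl, hbw, hb0⟩ := exw hQ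
  by_contra hcon
  push Not at hcon
  have h := pre hM hR hS (u * v - v * u) (hb (le_br hu hv)) a b hal (by rw [haw]; exact hcon.1)
    (by rw [haw]; exact hcon.2)
  rw [cf_comm hM (hP.hn hu) (hQ.hn hv) a b hal, hQ.hw v hv a (by rw [haw]; exact hne)] at h
  have : cf u a * cf v b = 0 := by linear_combination h
  rcases mul_eq_zero.mp this with h | h
  · exact ha0 h
  · exact hb0 h

end ROQaux

open ROQaux in
theorem ROQ (K : Type u) [Field K] (hM : S_MUL K) : S_ROQ K := by
  intro p dP dQ dR dS P Q R S hp hP hQ hR hS hb hd hne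
  have h1 : dP = dR ∨ dP = dS := occ hM hP hQ hR hS hne hb.le
  have h2 : dQ = dR ∨ dQ = dS :=
    occ hM hQ hP hR hS hne.symm ((br_comm Q P).trans hb.le)
  rcases h1 with h1 | h1
  · have h3 : dQ = dS := by
      rcases h2 with h2 | h2
      · exact absurd (h1.trans h2.symm) hne
      · exact h2
    subst h1; subst h3
    left
    have a1 := incl hM hP hQ hR hS hne hb.le
    have a2 := incl hM hR hS hP hQ hne hb.ge
    exact ⟨le_antisymm a1.1 a2.1, le_antisymm a1.2 a2.2⟩
  · have h3 : dQ = dR := by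
      rcases h2 with h2 | h2
      · exact h2
      · exact absurd (h1.trans h2.symm) hne
    subst h1; subst h3
    right
    have a1 := incl hM hP hQ hS hR hne (hb.le.trans (br_comm R S))
    have a2 := incl hM hS hR hP hQ hne ((br_comm S R).trans hb.ge)
    exact ⟨le_antisymm a1.1 a2.1, le_antisymm a1.2 a2.2⟩

end Pool.Agent.R325.BH
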