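import Pool.Agent.R325.BH.Base2
import Pool.Agent.R325.BH.FST

set_option linter.all false
universe u
namespace Pool.Agent.R325.BH

open Pool.Agent.Results.MP_5ecbac_al
open ThreeCherries ThreeCherries.Br Skeleton

attribute [local instance 100] LieRing.ofAssociativeRing

namespace SLPaux

open FSTaux

variable {K : Type u} [Field K]

theorem wt_map (f : ℕ × ℕ → ℕ × ℕ) (hf : ∀ a, (f a).2 = a.2) (w : Wd) : wt (w.map f) = wt w := by
  unfold wt
  rw [List.map_map]
  congr 1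
  apply List.map_congr_left
  intro a _
  exact hf a

theorem wt_append (a b : Wd) : wt (a ++ b) = wt a + wt b := by
  unfold wt
  rw [List.map_append, List.sum_append]

/-- the prefix weight of a product of words of `P` and `Q` -/
theorem pre (hM : S_MUL K) (γ p q t : ℕ) (P Q : Submodule K (F K)) (hp : 1 ≤ p)
    (hq : 1 ≤ q) (hP : P ≤ Hn K p) (hQ : Q ≤ Hn K q) (hrP : ∀ (r : ℕ → ℕ), ∀ x ∈ P, rel K r x ∈ P)
    (hrQ : ∀ (r : ℕ → ℕ), ∀ x ∈ Q, rel K r x ∈ Q)
    (h : ∀ x ∈ br K P Q, ∀ w : Wd, wt (w.take t) ≠ γ → cf x w = 0)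
    (u v : F K) (hu : u ∈ P) (hv : v ∈ Q) (a b : Wd) (ha : cf u a ≠ 0) (hb : cf v b ≠ 0) :
    wt ((a ++ b).take t) = γ := by
  by_contra hne
  have hlen : a.length = p := by
    by_contra hcon
    exact ha (hP hu _ hcon)
  have i0 : Function.Injective (fun i : ℕ => 2 * i) := fun x y hxy => by
    simp only at hxy; omega
  have i1 : Function.Injective (fun i : ℕ => 2 * i + 1) := fun x y hxy => by
    simp only at hxy; omega
  have hu' := hrP (fun i => 2 * i) u hu
  have hv' := hrQ (fun i => 2 * i + 1) v hv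
  have hz : rel K (fun i => 2 * i) u * rel K (fun i => 2 * i + 1) v -
      rel K (fun i => 2 * i + 1) v * rel K (fun i => 2 * i) u ∈ br K P Q :=
    Submodule.subset_span ⟨_, hu', _, hv', rfl⟩
  have h1 := h _ hz
    (a.map (fun a : ℕ × ℕ => (2 * a.1, a.2)) ++ b.map (fun a : ℕ × ℕ => (2 * a.1 + 1, a.2))) (by
      have e : wt ((a.map (fun a : ℕ × ℕ => (2 * a.1, a.2)) ++
          b.map (fun a : ℕ × ℕ => (2 * a.1 + 1, a.2))).take t) = wt ((a ++ b).take t) := by
        rw [List.take_append, List.take_append, wt_append, wt_append, List.length_map,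
          ← List.map_take, ← List.map_take,
          wt_map (fun a : ℕ × ℕ => (2 * a.1, a.2)) (fun _ => rfl),
          wt_map (fun a : ℕ × ℕ => (2 * a.1 + 1, a.2)) (fun _ => rfl)]
      rw [e]
      exact hne)
  rw [cf_sub] at h1
  have h2 : cf (rel K (fun i => 2 * i) u * rel K (fun i => 2 * i + 1) v)
      ((a.map (fun a : ℕ × ℕ => (2 * a.1, a.2))) ++
        b.map (fun a : ℕ × ℕ => (2 * a.1 + 1, a.2))) = cf u a * cf v b := by
    have hl : (a.map (fun a : ℕ × ℕ => (2 * a.1, a.2))).length = p := by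
      rw [List.length_map, hlen]
    rw [hM p _ _ (hP hu') _ (by rw [List.length_append, hl]; omega)]
    rw [List.take_left' hl, List.drop_left' hl]
    rw [cf_rel_map _ i0, cf_rel_map _ i1]
  have h3 : cf (rel K (fun i => 2 * i + 1) v * rel K (fun i => 2 * i) u)
      ((a.map (fun a : ℕ × ℕ => (2 * a.1, a.2))) ++
        b.map (fun a : ℕ × ℕ => (2 * a.1 + 1, a.2))) = 0 := by
    by_contra hcon
    obtain ⟨s1, s2, hs, hs1, hs2⟩ := cf_mul_ne _ _ _ hcon
    have hl1 : s1.length = q := by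
      by_contra hc
      exact hs1 (hQ hv' _ hc)
    have hl2 : s2.length = p := by
      by_contra hc
      exact hs2 (hP hu' _ hc)
    obtain ⟨w', rfl⟩ := cf_rel_ne _ _ _ hs1
    cases w' with
    | nil => simp at hl1; omega
    | cons c w' =>
      cases a with
      | nil => simp at hlen; omega
      | cons d a =>
        simp only [List.map_cons, List.cons_append, List.cons.injEq, Prod.mk.injEq] at hs
        omega
  rw [h2, h3, sub_zero] at h1
  exact (mul_ne_zero ha hb) h1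

/-- one side of the slope relation for a node -/
theorem half (hM : S_MUL K) (γ p q t D E : ℕ) (P Q : Submodule K (F K)) (hp : 1 ≤ p)
    (hq : 1 ≤ q) (hP : P ≤ Hn K p) (hQ : Q ≤ Hn K q) (hrP : ∀ (r : ℕ → ℕ), ∀ x ∈ P, rel K r x ∈ P)
    (hrQ : ∀ (r : ℕ → ℕ), ∀ x ∈ Q, rel K r x ∈ Q)
    (hPne : ∃ x ∈ P, x ≠ 0) (hQne : ∃ x ∈ Q, x ≠ 0)
    (hPw : ∀ x ∈ P, ∀ w : Wd, wt w ≠ D → cf x w = 0)
    (IP : ∀ q' γ' : ℕ, 1 ≤ q' → q' < p →
      (∀ x ∈ P, ∀ w : Wd, wt (w.take q') ≠ γ' → cf x w = 0) → γ' * p = q' * D)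
    (IQ : ∀ q' γ' : ℕ, 1 ≤ q' → q' < q →
      (∀ x ∈ Q, ∀ w : Wd, wt (w.take q') ≠ γ' → cf x w = 0) → γ' * q = q' * E)
    (ht1 : 1 ≤ t) (ht2 : t < p + q)
    (h : ∀ x ∈ br K P Q, ∀ w : Wd, wt (w.take t) ≠ γ → cf x w = 0) :
    (t ≤ p ∧ γ * p = t * D) ∨ (p < t ∧ D ≤ γ ∧ (γ - D) * q = (t - p) * E) := by
  obtain ⟨u0, hu0, hu0'⟩ := hPne
  obtain ⟨a0, ha0⟩ := exists_cf hu0'
  obtain ⟨v0, hv0, hv0'⟩ := hQne
  obtain ⟨b0, hb0⟩ := exists_cf hv0'
  have key := pre hM γ p q t P Q hp hq hP hQ hrP hrQ h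
  have hla : ∀ u ∈ P, ∀ a : Wd, cf u a ≠ 0 → a.length = p := by
    intro u hu a ha
    by_contra hcon
    exact ha (hP hu _ hcon)
  rcases lt_trichotomy t p with htp | htp | htp
  · left
    refine ⟨htp.le, IP t γ ht1 htp ?_⟩
    intro x hx w hw
    by_contra hne
    apply hw
    have h1 := key x v0 hx hv0 w b0 hne hb0
    rwa [List.take_append_of_le_length (by rw [hla x hx w hne]; omega)] at h1
  · left
    refine ⟨htp.le, ?_⟩
    have h1 := key u0 v0 hu0 hv0 a0 b0 ha0 hb0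
    rw [List.take_append_of_le_length (by rw [hla u0 hu0 a0 ha0]; omega), List.take_of_length_le
      (by rw [hla u0 hu0 a0 ha0]; omega)] at h1
    have h2 : wt a0 = D := by
      by_contra hcon
      exact ha0 (hPw u0 hu0 a0 hcon)
    rw [← h1, h2, htp, mul_comm]
  · right
    have h2 : wt a0 = D := by
      by_contra hcon
      exact ha0 (hPw u0 hu0 a0 hcon)
    have h3 : ∀ x ∈ Q, ∀ w : Wd, cf x w ≠ 0 → D + wt (w.take (t - p)) = γ := by
      intro x hx w hw
      have h1 := key u0 x hu0 hx a0 w ha0 hw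
      rw [List.take_append, wt_append, List.take_of_length_le
        (by rw [hla u0 hu0 a0 ha0]; omega), h2, hla u0 hu0 a0 ha0] at h1
      exact h1
    refine ⟨htp, ?_, IQ (t - p) (γ - D) (by omega) (by omega) ?_⟩
    · have := h3 v0 hv0 b0 hb0
      omega
    · intro x hx w hw
      by_contra hne
      have := h3 x hx w hne
      omega

theorem arith (n1 n2 D1 D2 q g : ℕ) (h1 : 1 ≤ n1) (h2 : 1 ≤ n2)
    (hA : (q ≤ n1 ∧ g * n1 = q * D1) ∨ (n1 < q ∧ D1 ≤ g ∧ (g - D1) * n2 = (q - n1) * D2))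
    (hB : (q ≤ n2 ∧ g * n2 = q * D2) ∨ (n2 < q ∧ D2 ≤ g ∧ (g - D2) * n1 = (q - n2) * D1)) :
    g * (n1 + n2) = q * (D1 + D2) := by
  rcases hA with ⟨a1, a2⟩ | ⟨a1, a2, a3⟩ <;> rcases hB with ⟨b1, b2⟩ | ⟨b1, b2, b3⟩
  · rw [mul_add, mul_add, a2, b2]
  · zify [b2, b1.le] at b3 a2 ⊢
    have e : (D2 : ℤ) * n1 = n2 * D1 := by linarith
    have e2 : (n1 : ℤ) * (g * n2) = n1 * (q * D2) := by
      have : (n1 : ℤ) * (g * n2) = (g * n1) * n2 := by ring
      rw [this, a2]
      have : (n1 : ℤ) * (q * D2) = q * (D2 * n1) := by ring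
      rw [this, e]
      ring
    have hn : (n1 : ℤ) ≠ 0 := by
      have : n1 ≠ 0 := by omega
      exact_mod_cast this
    have e3 := mul_left_cancel₀ hn e2
    linarith
  · zify [a2, a1.le] at a3 b2 ⊢
    have e : (D1 : ℤ) * n2 = n1 * D2 := by linarith
    have e2 : (n2 : ℤ) * (g * n1) = n2 * (q * D1) := by
      have : (n2 : ℤ) * (g * n1) = (g * n2) * n1 := by ring
      rw [this, b2]
      have : (n2 : ℤ) * (q * D1) = q * (D1 * n2) := by ring
      rw [this, e]
      ring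
    have hn : (n2 : ℤ) ≠ 0 := by
      have : n2 ≠ 0 := by omega
      exact_mod_cast this
    have e3 := mul_left_cancel₀ hn e2
    linarith
  · zify [a2, a1.le, b2, b1.le] at a3 b3 ⊢
    linarith

/-- the slope relation for a node -/
theorem nodeS (hM : S_MUL K) (γ p q t D E : ℕ) (P Q : Submodule K (F K)) (hp : 1 ≤ p)
    (hq : 1 ≤ q) (hP : P ≤ Hn K p) (hQ : Q ≤ Hn K q) (hrP : ∀ (r : ℕ → ℕ), ∀ x ∈ P, rel K r x ∈ P)
    (hrQ : ∀ (r : ℕ → ℕ), ∀ x ∈ Q, rel K r x ∈ Q)
    (hPne : ∃ x ∈ P, x ≠ 0) (hQne : ∃ x ∈ Q, x ≠ 0)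
    (hPw : ∀ x ∈ P, ∀ w : Wd, wt w ≠ D → cf x w = 0)
    (hQw : ∀ x ∈ Q, ∀ w : Wd, wt w ≠ E → cf x w = 0)
    (IP : ∀ q' γ' : ℕ, 1 ≤ q' → q' < p →
      (∀ x ∈ P, ∀ w : Wd, wt (w.take q') ≠ γ' → cf x w = 0) → γ' * p = q' * D)
    (IQ : ∀ q' γ' : ℕ, 1 ≤ q' → q' < q →
      (∀ x ∈ Q, ∀ w : Wd, wt (w.take q') ≠ γ' → cf x w = 0) → γ' * q = q' * E)
    (ht1 : 1 ≤ t) (ht2 : t < p + q)
    (h : ∀ x ∈ br K P Q, ∀ w : Wd, wt (w.take t) ≠ γ → cf x w = 0) :
    γ * (p + q) = t * (D + E) := by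
  have hA := half hM γ p q t D E P Q hp hq hP hQ hrP hrQ hPne hQne hPw IP IQ ht1 ht2 h
  have hB := half hM γ q p t E D Q P hq hp hQ hP hrQ hrP hQne hPne hQw IQ IP ht1 (by omega)
    (fun x hx => h x (br_comm P Q hx))
  exact arith p q D E t γ hp hq hA hB

end SLPaux

open SLPaux FSTaux in
/-- slope lemma -/
theorem SLP (K : Type u) [Field K] (hM : S_MUL K) (hD : S_DL K) (hB : S_BAS K) (hL : S_LD K) :
    S_SLP K := by
  have pend : ∀ A : Br, A ≠ leaf → ∀ q γ : ℕ, 1 ≤ q → q < (sk A).deg →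
      (∀ x ∈ (M K A).map (dl K), ∀ w : Wd, wt (w.take q) ≠ γ → cf x w = 0) → False := by
    intro A hA q γ hq1 hq2 h
    obtain ⟨b1, ⟨x, hx, hx0⟩, b3, b4, b5⟩ := hB A hA
    obtain ⟨w1, w2, h1, h2, h3⟩ := hL.1 q (sk A).deg x hq1 hq2 (b1 hx) hx0
    have hmem : dl K x ∈ (M K A).map (dl K) := Submodule.mem_map_of_mem hx
    have e1 : wt (w1.take q) = γ := by
      by_contra hcon
      exact h1 (h _ hmem w1 hcon)
    have e2 : wt (w2.take q) = γ := by
      by_contra hcon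
      exact h2 (h _ hmem w2 hcon)
    exact h3 (e1.trans e2.symm)
  have wgt : ∀ A : Br, A ≠ leaf → (sk A).deg ≤ A.deg ∧
      ∀ x ∈ M K A, ∀ w : Wd, wt w ≠ A.deg - (sk A).deg → cf x w = 0 := by
    intro A hA
    obtain ⟨b1, ⟨x, hx, hx0⟩, b3, b4, b5⟩ := hB A hA
    obtain ⟨w, hw⟩ := exists_cf hx0
    have h1 : wt w + (sk A).deg = A.deg := by
      by_contra hcon
      exact hw (b4 x hx w hcon)
    refine ⟨by omega, fun y hy w' hw' => b4 y hy w' (by omega)⟩
  have main : ∀ s : Br, s ≠ leaf → ∀ q γ : ℕ, 1 ≤ q → q < (sk s).deg →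
      (∀ x ∈ M K s, ∀ w : Wd, wt (w.take q) ≠ γ → cf x w = 0) →
      γ * (sk s).deg = q * (s.deg - (sk s).deg) := by
    intro s
    induction s with
    | leaf => intro h; exact absurd rfl h
    | node l r hl hr =>
      intro _ q γ hq1 hq2 h
      cases l with
      | leaf =>
        cases r with
        | leaf =>
          simp only [sk, deg] at hq2
          omega
        | node a b =>
          exact (pend (node a b) (by simp) q γ hq1 hq2 h).elim
      | node a b =>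
        cases r with
        | leaf => exact (pend (node a b) (by simp) q γ hq1 hq2 h).elim
        | node c d =>
          obtain ⟨b1, b2, b3, b4, b5⟩ := hB (node a b) (by simp)
          obtain ⟨c1, c2, c3, c4, c5⟩ := hB (node c d) (by simp)
          obtain ⟨w1, w2⟩ := wgt (node a b) (by simp)
          obtain ⟨w3, w4⟩ := wgt (node c d) (by simp)
          have e1 : (sk (node (node a b) (node c d))).deg =
            (sk (node a b)).deg + (sk (node c d)).deg := rfl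
          have e2 : (node (node a b) (node c d)).deg = (node a b).deg + (node c d).deg := rfl
          rw [e1] at hq2
          have := nodeS hM γ (sk (node a b)).deg (sk (node c d)).deg q
            ((node a b).deg - (sk (node a b)).deg) ((node c d).deg - (sk (node c d)).deg)
            (M K (node a b)) (M K (node c d)) (Skeleton.deg_pos _) (Skeleton.deg_pos _) b1 c1 b3 c3 b2 c2 w2 w4
            (hl (by simp)) (hr (by simp)) hq1 hq2 h
          rw [e1, e2, this]
          congr 1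
          omega
  exact main

end Pool.Agent.R325.BH
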