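import Pool.Agent.R325.BH.Base

set_option linter.all false
universe u
namespace Pool.Agent.R325.BH

open Pool.Agent.Results.MP_5ecbac_al
open ThreeCherries ThreeCherries.Br Skeleton

attribute [local instance 100] LieRing.ofAssociativeRing

lemma inv_aux {s t : Br} (h : CEq s t) : (s = leaf ∧ t = leaf) ∨
    ∃ a b c d, s = node a b ∧ t = node c d ∧ ((CEq a c ∧ CEq b d) ∨ (CEq a d ∧ CEq b c)) := by
  induction h with
  | refl s =>
    cases s with
    | leaf => exact Or.inl ⟨rfl, rfl⟩
    | node a b => exact Or.inr ⟨a, b, a, b, rfl, rfl, Or.inl ⟨CEq.refl _, CEq.refl _⟩⟩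
  | symm _ ih =>
    rcases ih with ⟨h1, h2⟩ | ⟨a, b, c, d, rfl, rfl, h⟩
    · exact Or.inl ⟨h2, h1⟩
    · refine Or.inr ⟨c, d, a, b, rfl, rfl, ?_⟩
      rcases h with ⟨h1, h2⟩ | ⟨h1, h2⟩
      · exact Or.inl ⟨h1.symm, h2.symm⟩
      · exact Or.inr ⟨h2.symm, h1.symm⟩
  | trans _ _ ih1 ih2 =>
    rcases ih1 with ⟨h1, h2⟩ | ⟨a, b, c, d, rfl, rfl, h⟩
    · rcases ih2 with ⟨h3, h4⟩ | ⟨a, b, c, d, h3, _, _⟩
      · exact Or.inl ⟨h1, h4⟩
      · rw [h2] at h3; exact absurd h3 (by simp)
    · rcases ih2 with ⟨h3, h4⟩ | ⟨a', b', c', d', h3, rfl, h'⟩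
      · exact absurd h3 (by simp)
      · injection h3 with e1 e2
        subst e1 e2
        refine Or.inr ⟨a, b, c', d', rfl, rfl, ?_⟩
        rcases h with ⟨h1, h2⟩ | ⟨h1, h2⟩ <;> rcases h' with ⟨h3, h4⟩ | ⟨h3, h4⟩
        · exact Or.inl ⟨h1.trans h3, h2.trans h4⟩
        · exact Or.inr ⟨h1.trans h3, h2.trans h4⟩
        · exact Or.inr ⟨h1.trans h4, h2.trans h3⟩
        · exact Or.inl ⟨h1.trans h4, h2.trans h3⟩
  | comm s t => exact Or.inr ⟨s, t, t, s, rfl, rfl, Or.inr ⟨CEq.refl _, CEq.refl _⟩⟩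
  | congr h1 h2 _ _ => exact Or.inr ⟨_, _, _, _, rfl, rfl, Or.inl ⟨h1, h2⟩⟩

lemma inv_node {a b c d : Br} (h : CEq (node a b) (node c d)) :
    (CEq a c ∧ CEq b d) ∨ (CEq a d ∧ CEq b c) := by
  rcases inv_aux h with ⟨h1, _⟩ | ⟨a', b', c', d', h1, h2, h3⟩
  · exact absurd h1 (by simp)
  · injection h1 with e1 e2
    injection h2 with e3 e4
    subst e1 e2 e3 e4
    exact h3

lemma inv_leaf {t : Br} (h : CEq leaf t) : t = leaf := by
  rcases inv_aux h with ⟨_, h2⟩ | ⟨a', b', c', d', h1, _, _⟩
  · exact h2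
  · exact absurd h1 (by simp)

lemma deg_sk_eq : ∀ s : Br, s ≠ leaf → (sk s).deg = s.cherries
  | leaf, h => absurd rfl h
  | node leaf leaf, _ => rfl
  | node leaf (node a b), _ => by
    rw [sk_lnode (node a b) nofun, deg_sk_eq (node a b) nofun,
      cherries_node leaf (node a b) (fun h => nomatch h.2)]
    show _ = 0 + _
    rw [zero_add]
  | node (node a b) leaf, _ => by
    rw [sk_noder (node a b) nofun, deg_sk_eq (node a b) nofun,
      cherries_node (node a b) leaf (fun h => nomatch h.1)]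
    rfl
  | node (node a b) (node c d), _ => by
    rw [sk_node (node a b) (node c d) nofun nofun,
      cherries_node (node a b) (node c d) (fun h => nomatch h.1), deg,
      deg_sk_eq (node a b) nofun, deg_sk_eq (node c d) nofun]

lemma deg_one {s : Br} (h : s.deg = 1) : s = leaf := by
  cases s with
  | leaf => rfl
  | node a b => have := ThreeCherries.deg_pos a; have := ThreeCherries.deg_pos b; simp only [deg] at h; omega

lemma deg_two_of {s : Br} (h : s ≠ leaf) : 2 ≤ s.deg := by
  cases s with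
  | leaf => exact absurd rfl h
  | node a b => have := ThreeCherries.deg_pos a; have := ThreeCherries.deg_pos b; simp only [deg]; omega

lemma cher_ne {s : Br} (h : s.cherries = 1) : s ≠ leaf := by
  rintro rfl; simp [cherries] at h

lemma sk_of_one {s : Br} (h : s.cherries = 1) : sk s = leaf :=
  deg_one (by rw [deg_sk_eq s (cher_ne h), h])

lemma one_of_sk {s : Br} (hs : s ≠ leaf) (h : sk s = leaf) : s.cherries = 1 := by
  rw [← deg_sk_eq s hs, h]; rfl

lemma ceq_one {s t : Br} (hs : s.cherries = 1) (ht : t.cherries = 1) (h : s.deg = t.deg) :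
    CEq s t := by
  obtain ⟨m, hm⟩ := cherries_one hs
  obtain ⟨n, hn⟩ := cherries_one ht
  have e1 := hm.deg_eq
  have e2 := hn.deg_eq
  rw [deg_cat] at e1 e2
  obtain rfl : m = n := by omega
  exact hm.trans hn.symm

lemma sk_comm (A B : Br) : CEq (sk (node A B)) (sk (node B A)) := by
  cases A with
  | leaf =>
    cases B with
    | leaf => exact CEq.refl _
    | node c d => rw [sk_lnode _ (by simp), sk_noder _ (by simp)]; exact CEq.refl _
  | node a b =>
    cases B with
    | leaf => rw [sk_lnode _ (by simp), sk_noder _ (by simp)]; exact CEq.refl _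
    | node c d =>
      rw [sk_node (node a b) (node c d) nofun nofun, sk_node (node c d) (node a b) nofun nofun]
      exact CEq.comm _ _

lemma unif_node {β : ℕ} {l r : Br} : Unif β (node l r) ↔
    ((node l r).cherries = 1 ∧ (node l r).deg = β + 1) ∨
      (l ≠ leaf ∧ r ≠ leaf ∧ Unif β l ∧ Unif β r) := Iff.rfl

lemma unif_ceq (β : ℕ) : ∀ s t : Br, Unif β s → Unif β t → CEq (sk s) (sk t) → CEq s t
  | leaf, _, h, _, _ => h.elim
  | node l r, leaf, _, h, _ => h.elim
  | node l r, node l' r', h, h', hs => by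
    rw [unif_node] at h h'
    rcases h with ⟨h1, h2⟩ | ⟨h1, h2, h3, h4⟩
    · rw [sk_of_one h1] at hs
      have h5 := one_of_sk (by simp) (inv_leaf hs)
      rcases h' with ⟨h6, h7⟩ | ⟨h6, h7, _, _⟩
      · exact ceq_one h1 h6 (by rw [h2, h7])
      · exfalso
        have := inv_leaf hs
        rw [sk_node _ _ h6 h7] at this
        exact absurd this (by simp)
    · rw [sk_node _ _ h1 h2] at hs
      rcases h' with ⟨h6, h7⟩ | ⟨h6, h7, h8, h9⟩
      · exfalso
        rw [sk_of_one h6] at hs
        exact absurd (inv_leaf hs.symm) (by simp)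
      · rw [sk_node _ _ h6 h7] at hs
        rcases inv_node hs with ⟨h10, h11⟩ | ⟨h10, h11⟩
        · exact CEq.congr (unif_ceq β l l' h3 h8 h10) (unif_ceq β r r' h4 h9 h11)
        · exact (CEq.congr (unif_ceq β l r' h3 h9 h10) (unif_ceq β r l' h4 h8 h11)).trans
            (CEq.comm _ _)

section main
variable (K : Type u) [Field K]

/-- the statement for one tree -/
def PT (s : Br) : Prop := ∀ t : Br, t ≠ leaf → s.deg = t.deg →
  CEq (sk s) (sk t) → M K s = M K t → CEq s t

lemma M_pr (A : Br) (hA : A ≠ leaf) : M K (node A leaf) = (M K A).map (dl K) := by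
  cases A with
  | leaf => exact absurd rfl hA
  | node a b => rfl

lemma M_pl (A : Br) (hA : A ≠ leaf) : M K (node leaf A) = (M K A).map (dl K) := by
  cases A with
  | leaf => exact absurd rfl hA
  | node a b => rfl

lemma M_br (A B : Br) (hA : A ≠ leaf) (hB : B ≠ leaf) :
    M K (node A B) = br K (M K A) (M K B) := by
  cases A with
  | leaf => exact absurd rfl hA
  | node a b =>
    cases B with
    | leaf => exact absurd rfl hB
    | node c d => rfl

variable {K} in
lemma exists_cf {x : F K} (hx : x ≠ 0) : ∃ w : Wd, cf x w ≠ 0 := by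
  by_contra h
  push Not at h
  apply hx
  apply MonoidAlgebra.coeff_injective
  ext w
  exact h w.toList

lemma map_inj (hL : S_LD K) {n : ℕ} (hn : 1 ≤ n) {P Q : Submodule K (F K)} (hP : P ≤ Hn K n)
    (hQ : Q ≤ Hn K n) (h : P.map (dl K) = Q.map (dl K)) : P = Q := by
  have key : ∀ P Q : Submodule K (F K), P ≤ Hn K n → Q ≤ Hn K n →
      P.map (dl K) = Q.map (dl K) → P ≤ Q := by
    intro P Q hP hQ h x hx
    have h1 : dl K x ∈ Q.map (dl K) := h ▸ Submodule.mem_map_of_mem hx
    obtain ⟨y, hy, hxy⟩ := h1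
    have h2 : x - y = 0 := hL.2 n (x - y) hn (sub_mem (hP hx) (hQ hy)) (by rw [map_sub, hxy, sub_self])
    rw [sub_eq_zero.1 h2]; exact hy
  exact le_antisymm (key P Q hP hQ h) (key Q P hQ hP h.symm)

lemma not_im (hB : S_BAS K) (hI : S_IM K) (A C D : Br) (hA : A ≠ leaf) (hC : C ≠ leaf)
    (hD : D ≠ leaf) (h : CEq (sk A) (sk (node C D)) ∨ CEq (sk (node C D)) (sk A)) :
    M K (node C D) ≠ (M K A).map (dl K) := by
  have hd : (sk A).deg = (sk C).deg + (sk D).deg := by
    have e : (sk (node C D)).deg = (sk C).deg + (sk D).deg := by rw [sk_node _ _ hC hD, deg]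
    rcases h with h | h
    · rw [h.deg_eq, e]
    · rw [← h.deg_eq, e]
  obtain ⟨b1, b2, b3, b4, _⟩ := hB C hC
  obtain ⟨d1, d2, d3, d4, _⟩ := hB D hD
  obtain ⟨a1, _⟩ := hB A hA
  rw [M_br K C D hC hD]
  refine hI (sk C).deg (sk D).deg (M K C) (M K D) (C.deg - (sk C).deg)
    (ThreeCherries.deg_pos _) (ThreeCherries.deg_pos _) b1 d1 b3 d3 b2 d2 ?_ (M K A) (hd ▸ a1)
  intro x hx w hw
  exact b4 x hx w (by omega)

lemma wt_const {γ : ℕ} : ∀ w : Wd, (∀ a ∈ w, a.2 = γ) → wt w = w.length * γ
  | [], _ => by simp [wt]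
  | a :: w, h => by
    have h1 := wt_const w (fun b hb => h b (List.mem_cons_of_mem _ hb))
    have h2 := h a List.mem_cons_self
    simp only [wt, List.map_cons, List.sum_cons, List.length_cons] at *
    rw [h1, h2]; ring

lemma deg_of_Eb (hB : S_BAS K) (A : Br) (hA : A ≠ leaf) (γ : ℕ) (h : M K A ≤ Eb K γ) :
    A.deg = (sk A).deg * γ + (sk A).deg := by
  obtain ⟨b1, ⟨x, hx, hx0⟩, _, b4, _⟩ := hB A hA
  obtain ⟨w, hw⟩ := exists_cf hx0
  have h1 : w.length = (sk A).deg := by
    by_contra hne; exact hw (b1 hx w hne)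
  have h2 : ∀ a ∈ w, a.2 = γ := by
    intro a ha
    by_contra hne
    exact hw (h hx w ⟨a, ha, hne⟩)
  have h3 : wt w + (sk A).deg = A.deg := by
    by_contra hne; exact hw (b4 x hx w hne)
  rw [wt_const w h2, h1] at h3
  exact h3.symm

lemma core (hB : S_BAS K) (hU : S_UNI K) (hC : S_CAN K) (hF : S_FST K) (hR : S_RT K)
    (A B C D : Br) (hA : A ≠ leaf) (hCl : C ≠ leaf) (hb : B.cherries = 1) (hd : D.cherries = 1)
    (hPT : PT K A) (hs : CEq (sk A) (sk C)) (hdeg : A.deg + B.deg = C.deg + D.deg)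
    (hM : br K (M K A) (M K B) = br K (M K C) (M K D)) : CEq (node A B) (node C D) := by
  obtain ⟨a1, a2, a3, a4, a5⟩ := hB A hA
  obtain ⟨c1, c2, c3, c4, c5⟩ := hB C hCl
  have hB2 := deg_two_of (cher_ne hb)
  have hD2 := deg_two_of (cher_ne hd)
  have hMB := (hB B (cher_ne hb)).2.2.2.2 hb
  have hMD := (hB D (cher_ne hd)).2.2.2.2 hd
  rw [hMB, hMD] at hM
  have hp := hs.deg_eq
  have hp1 := ThreeCherries.deg_pos (sk A)
  obtain ⟨β, hβ⟩ : ∃ β, B.deg = β + 1 := ⟨B.deg - 1, by omega⟩
  obtain ⟨γ, hγ⟩ : ∃ γ, D.deg = γ + 1 := ⟨D.deg - 1, by omega⟩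
  rw [hβ, hγ, Nat.add_sub_cancel, Nat.add_sub_cancel] at hM
  by_cases hβγ : β = γ
  · subst hβγ
    have hAC : CEq A C := by
      have no : ∀ S : Br, S ≠ leaf → ¬ Unif β S → ∀ x ∈ M K S, x ∈ Eb K β → x = 0 := by
        intro S hS hnu x hx hxE
        by_contra hx0
        exact hnu ((hU β S hS).1 ⟨x, hx, hx0, hxE⟩)
      by_cases uA : Unif β A <;> by_cases uC : Unif β C
      · exact unif_ceq β A C uA uC hs
      · exfalso
        have h1 : M K A ≤ M K C := hC β (sk C).deg (M K C) (M K A) (ThreeCherries.deg_pos _) c1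
          (hp ▸ a1) c3 (no C hCl uC) (le_of_eq hM)
        obtain ⟨x, hx, hx0⟩ := a2
        exact uC ((hU β C hCl).1 ⟨x, h1 hx, hx0, (hU β A hA).2 uA hx⟩)
      · exfalso
        have h1 : M K C ≤ M K A := hC β (sk A).deg (M K A) (M K C) (ThreeCherries.deg_pos _) a1
          (hp ▸ c1) a3 (no A hA uA) (le_of_eq hM.symm)
        obtain ⟨x, hx, hx0⟩ := c2
        exact uA ((hU β A hA).1 ⟨x, h1 hx, hx0, (hU β C hCl).2 uC hx⟩)
      · have h1 : M K A ≤ M K C := hC β (sk C).deg (M K C) (M K A) (ThreeCherries.deg_pos _) c1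
          (hp ▸ a1) c3 (no C hCl uC) (le_of_eq hM)
        have h2 : M K C ≤ M K A := hC β (sk A).deg (M K A) (M K C) (ThreeCherries.deg_pos _) a1
          (hp ▸ c1) a3 (no A hA uA) (le_of_eq hM.symm)
        exact hPT C hCl (by omega) hs (le_antisymm h1 h2)
    exact CEq.congr hAC (ceq_one hb hd (by omega))
  · have h1 := hF γ A hA (hR β γ (sk A).deg (M K A) (M K C) hp1 hβγ a1 (hp ▸ c1) (le_of_eq hM))
    have h2 := hF β C hCl (hR γ β (sk A).deg (M K C) (M K A) hp1 (Ne.symm hβγ) (hp ▸ c1) a1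
      (le_of_eq hM.symm))
    have e1 := deg_of_Eb K hB A hA γ h1
    have e2 := deg_of_Eb K hB C hCl β h2
    rw [← hp] at e2
    rcases Nat.lt_or_ge 1 (sk A).deg with hlt | hge
    · exfalso
      obtain ⟨k, hk⟩ : ∃ k, (sk A).deg = k + 2 := ⟨(sk A).deg - 2, by omega⟩
      rw [hk] at e1 e2
      have e3 : (k + 1) * γ = (k + 1) * β := by nlinarith
      exact hβγ (Nat.eq_of_mul_eq_mul_left (by omega) e3).symm
    · have hA1 : (sk A).deg = 1 := by omega
      rw [hA1] at e1 e2
      have cA : A.cherries = 1 := one_of_sk hA (deg_one hA1)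
      have cC : C.cherries = 1 := one_of_sk hCl (deg_one (by omega))
      exact (CEq.congr (ceq_one cA hd (by omega)) (ceq_one hb cC (by omega))).trans (CEq.comm _ _)

theorem TREE (hB : S_BAS K) (hS : S_SYM K) (hL : S_LD K) (hU : S_UNI K) (hC : S_CAN K)
    (hF : S_FST K) (hR : S_RT K) (hI : S_IM K) : S_TREE K := by
  have main : ∀ s : Br, Cls s → PT K s := by
    intro s hs
    induction hs with
    | dbl κ =>
      intro t ht hd hsk _
      rw [sk_dbl] at hsk
      rw [deg_dbl] at hd
      have h1 := hsk.deg_eq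
      rw [(deg_sk t ht).2 (by omega)]
      exact CEq_dbl hsk
    | @pend A _ hA ih =>
      intro t ht hd hsk hM
      have hA2 := deg_two_of hA
      rw [M_pr K A hA] at hM
      rw [sk_noder A hA] at hsk
      match t, ht with
      | node leaf leaf, _ => simp only [deg] at hd; omega
      | node leaf (node c d), _ =>
        rw [M_pl K (node c d) nofun] at hM
        rw [sk_lnode (node c d) nofun] at hsk
        have h1 := map_inj K hL (ThreeCherries.deg_pos _) (hB A hA).1
          (hsk.deg_eq ▸ (hB (node c d) nofun).1) hM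
        have h2 := ih (node c d) nofun (by simp only [deg] at hd ⊢; omega) hsk h1
        exact (CEq.congr h2 (CEq.refl leaf)).trans (CEq.comm _ _)
      | node (node c d) leaf, _ =>
        rw [M_pr K (node c d) nofun] at hM
        rw [sk_noder (node c d) nofun] at hsk
        have h1 := map_inj K hL (ThreeCherries.deg_pos _) (hB A hA).1
          (hsk.deg_eq ▸ (hB (node c d) nofun).1) hM
        have h2 := ih (node c d) nofun (by simp only [deg] at hd ⊢; omega) hsk h1
        exact CEq.congr h2 (CEq.refl leaf)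
      | node (node c d) (node e f), _ =>
        exact absurd hM.symm (not_im K hB hI A (node c d) (node e f) hA nofun nofun (Or.inl hsk))
    | @cat A B _ hA hb ih =>
      intro t ht hd hsk hM
      have hA2 := deg_two_of hA
      have hBl := cher_ne hb
      have hB2 := deg_two_of hBl
      match t, ht with
      | node leaf leaf, _ => simp only [deg] at hd; omega
      | node leaf (node c d), _ =>
        rw [M_pl K (node c d) nofun] at hM
        rw [sk_lnode (node c d) nofun] at hsk
        exact absurd hM (not_im K hB hI (node c d) A B nofun hA hBl (Or.inr hsk))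
      | node (node c d) leaf, _ =>
        rw [M_pr K (node c d) nofun] at hM
        rw [sk_noder (node c d) nofun] at hsk
        exact absurd hM (not_im K hB hI (node c d) A B nofun hA hBl (Or.inr hsk))
      | node (node c d) (node e f), _ =>
        have hd' : A.deg + B.deg = (node c d).deg + (node e f).deg := hd
        rw [sk_node A B hA hBl, sk_node (node c d) (node e f) nofun nofun] at hsk
        rcases inv_node hsk with ⟨h1, h2⟩ | ⟨h1, h2⟩
        · rw [sk_of_one hb] at h2
          have hdd := one_of_sk (s := node e f) nofun (inv_leaf h2)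
          rw [M_br K A B hA hBl, M_br K (node c d) (node e f) nofun nofun] at hM
          exact core K hB hU hC hF hR A B (node c d) (node e f) hA nofun hb hdd ih h1 hd' hM
        · rw [sk_of_one hb] at h2
          have hdd := one_of_sk (s := node c d) nofun (inv_leaf h2)
          rw [hS (node c d) (node e f), M_br K A B hA hBl, M_br K (node e f) (node c d) nofun nofun] at hM
          exact (core K hB hU hC hF hR A B (node e f) (node c d) hA nofun hb hdd ih h1 (by omega) hM).trans
            (CEq.comm _ _)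
    | @comm A B _ ih =>
      intro t ht hd hsk hM
      exact (CEq.comm B A).trans (ih t ht (by simp only [deg] at hd ⊢; omega)
        ((sk_comm A B).trans hsk) ((hS A B).trans hM))
  intro s hs _ t ht hd hsk hM
  exact main s hs t ht hd hsk hM

end main

end Pool.Agent.R325.BH
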