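import Pool.Agent.R325.BH.TREE
import Pool.Agent.R325.BH.Base2

set_option linter.all false
universe u
namespace Pool.Agent.R325.BH

open Pool.Agent.Results.MP_5ecbac_al
open ThreeCherries ThreeCherries.Br Skeleton

attribute [local instance 100] LieRing.ofAssociativeRing

/-- the class of bracket structures that are handled at the marked level (extended) -/
inductive Cls2 : Br → Prop
  | dbl (κ : Br) : Cls2 (dbl κ)
  | pend {A : Br} : Cls2 A → A ≠ leaf → Cls2 (node A leaf)
  | cat {A B : Br} : Cls2 A → A ≠ leaf → B.cherries = 1 → Cls2 (node A B)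
  | comm {A B : Br} : Cls2 (node A B) → Cls2 (node B A)
  | slope {A B : Br} : Cls2 A → Cls2 B → A ≠ leaf → B ≠ leaf → B.cherries < A.cherries →
      A.deg * B.cherries ≠ B.deg * A.cherries → Cls2 (node A B)
  | eqsk {A B : Br} : Cls2 A → Cls2 B → A ≠ leaf → B ≠ leaf → CEq (sk A) (sk B) →
      A.deg ≠ B.deg → Cls2 (node A B)

section main
variable (K : Type u) [Field K]

lemma mk (hB : S_BAS K) (A : Br) (hA : A ≠ leaf) : Mk K (M K A) (sk A).deg (A.deg - (sk A).deg) := by
  obtain ⟨a1, a2, a3, a4, _⟩ := hB A hA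
  exact ⟨a1, a3, fun x hx w hw => a4 x hx w (by omega), a2⟩

lemma deg_ge (A : Br) (hA : A ≠ leaf) : (sk A).deg ≤ A.deg := by
  have := (deg_sk A hA).1
  have := ThreeCherries.deg_pos (sk A)
  omega

lemma deg_of_eq (hB : S_BAS K) (A C : Br) (hA : A ≠ leaf) (hC : C ≠ leaf)
    (hs : CEq (sk A) (sk C)) (h : M K A = M K C) : A.deg = C.deg := by
  obtain ⟨_, ⟨x, hx, hx0⟩, _, a4, _⟩ := hB A hA
  obtain ⟨_, _, _, c4, _⟩ := hB C hC
  obtain ⟨w, hw⟩ := exists_cf hx0
  have e1 : wt w + (sk A).deg = A.deg := by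
    by_contra hne; exact hw (a4 x hx w hne)
  have e2 : wt w + (sk C).deg = C.deg := by
    by_contra hne; exact hw (c4 x (h ▸ hx) w hne)
  have := hs.deg_eq
  omega

lemma arith {p q a b : ℕ} (hp : p ≤ a) (hq : q ≤ b) (h : a * q ≠ b * p) :
    (a - p) * q ≠ (b - q) * p := by
  intro h1
  apply h
  zify [hp, hq] at h1 ⊢
  linear_combination h1

lemma core_slope (hB : S_BAS K) (hRo : S_ROOT K) (hSl : S_SLP K)
    (A B C D : Br) (hA : A ≠ leaf) (hBl : B ≠ leaf) (hC : C ≠ leaf) (hD : D ≠ leaf)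
    (hlt : B.cherries < A.cherries) (hne : A.deg * B.cherries ≠ B.deg * A.cherries)
    (hPA : PT K A) (hPB : PT K B) (hs1 : CEq (sk A) (sk C)) (hs2 : CEq (sk B) (sk D))
    (hdeg : A.deg + B.deg = C.deg + D.deg)
    (hM : br K (M K A) (M K B) = br K (M K C) (M K D)) : CEq (node A B) (node C D) := by
  have e1 := hs1.deg_eq
  have e2 := hs2.deg_eq
  have kA := deg_sk_eq A hA
  have kB := deg_sk_eq B hBl
  have gA := deg_ge A hA
  have gB := deg_ge B hBl
  have gC := deg_ge C hC
  have gD := deg_ge D hD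
  have mC := mk K hB C hC
  have mD := mk K hB D hD
  rw [← e1] at mC
  rw [← e2] at mD
  obtain ⟨h1, h2⟩ := hRo (sk A).deg (sk B).deg _ _ _ _ (M K A) (M K B) (M K C) (M K D)
    (ThreeCherries.deg_pos _) (by omega) (mk K hB A hA) (mk K hB B hBl) mC mD
    (fun γ h => hSl A hA _ γ (ThreeCherries.deg_pos _) (by omega) h)
    (fun γ h => by
      have := hSl C hC (sk B).deg γ (ThreeCherries.deg_pos _) (by omega) h
      rw [← e1] at this; exact this) hM (by omega)
    (arith gA gB (by rw [kA, kB]; exact hne))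
  exact CEq.congr (hPA C hC (deg_of_eq K hB A C hA hC hs1 h1) hs1 h1)
    (hPB D hD (deg_of_eq K hB B D hBl hD hs2 h2) hs2 h2)

lemma core_eq (hB : S_BAS K) (hRq : S_ROQ K)
    (A B C D : Br) (hA : A ≠ leaf) (hBl : B ≠ leaf) (hC : C ≠ leaf) (hD : D ≠ leaf)
    (hAB : CEq (sk A) (sk B)) (hne : A.deg ≠ B.deg)
    (hPA : PT K A) (hPB : PT K B) (hs1 : CEq (sk A) (sk C)) (hs2 : CEq (sk B) (sk D))
    (hdeg : A.deg + B.deg = C.deg + D.deg)
    (hM : br K (M K A) (M K B) = br K (M K C) (M K D)) : CEq (node A B) (node C D) := by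
  have e1 := hs1.deg_eq
  have e2 := hs2.deg_eq
  have e3 := hAB.deg_eq
  have gA := deg_ge A hA
  have gB := deg_ge B hBl
  have gC := deg_ge C hC
  have gD := deg_ge D hD
  have mB := mk K hB B hBl
  have mC := mk K hB C hC
  have mD := mk K hB D hD
  rw [← e3] at mB
  rw [← e1] at mC
  rw [← e2, ← e3] at mD
  rcases hRq (sk A).deg _ _ _ _ (M K A) (M K B) (M K C) (M K D)
    (ThreeCherries.deg_pos _) (mk K hB A hA) mB mC mD hM (by omega) (by omega) with ⟨h1, h2⟩ | ⟨h1, h2⟩
  · exact CEq.congr (hPA C hC (deg_of_eq K hB A C hA hC hs1 h1) hs1 h1)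
      (hPB D hD (deg_of_eq K hB B D hBl hD hs2 h2) hs2 h2)
  · have s1 : CEq (sk A) (sk D) := hAB.trans hs2
    have s2 : CEq (sk B) (sk C) := hAB.symm.trans hs1
    exact (CEq.congr (hPA D hD (deg_of_eq K hB A D hA hD s1 h1) s1 h1)
      (hPB C hC (deg_of_eq K hB B C hBl hC s2 h2) s2 h2)).trans (CEq.comm _ _)

/-- reduction of a node with two nonleaf children to `node C D` -/
lemma node_case (hB : S_BAS K) (hS : S_SYM K) (hI : S_IM K) (A B : Br) (hA : A ≠ leaf)
    (hBl : B ≠ leaf)
    (H : ∀ C D : Br, C ≠ leaf → D ≠ leaf → A.deg + B.deg = C.deg + D.deg →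
      CEq (sk A) (sk C) → CEq (sk B) (sk D) →
      br K (M K A) (M K B) = br K (M K C) (M K D) → CEq (node A B) (node C D)) :
    PT K (node A B) := by
  intro t ht hd hsk hM
  have hA2 := deg_two_of hA
  have hB2 := deg_two_of hBl
  match t, ht with
  | node leaf leaf, _ => simp only [deg] at hd; omega
  | node leaf (node c d), _ =>
    rw [M_pl K (node c d) nofun] at hM
    rw [sk_lnode (node c d) nofun] at hsk
    exact absurd hM (not_im K hB hI (node c d) A B nofun hA hBl (Or.inr hsk))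
  | node (node c d) leaf, _ =>
    rw [M_pr K (node c d) nofun] at hM
    rw [sk_noder (node c d) nofun] at hsk
    exact absurd hM (not_im K hB hI (node c d) A B nofun hA hBl (Or.inr hsk))
  | node (node c d) (node e f), _ =>
    have hd' : A.deg + B.deg = (node c d).deg + (node e f).deg := hd
    rw [sk_node A B hA hBl, sk_node (node c d) (node e f) nofun nofun] at hsk
    rcases inv_node hsk with ⟨h1, h2⟩ | ⟨h1, h2⟩
    · rw [M_br K A B hA hBl, M_br K (node c d) (node e f) nofun nofun] at hM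
      exact H (node c d) (node e f) nofun nofun hd' h1 h2 hM
    · rw [hS (node c d) (node e f), M_br K A B hA hBl, M_br K (node e f) (node c d) nofun nofun] at hM
      exact (H (node e f) (node c d) nofun nofun (by omega) h1 h2 hM).trans (CEq.comm _ _)

theorem TREE2 (hB : S_BAS K) (hS : S_SYM K) (hL : S_LD K) (hU : S_UNI K) (hC : S_CAN K)
    (hF : S_FST K) (hR : S_RT K) (hI : S_IM K) (hRo : S_ROOT K) (hSl : S_SLP K)
    (hRq : S_ROQ K) : ∀ s : Br, Cls2 s → PT K s := by
  intro s hs
  induction hs with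
  | dbl κ =>
    intro t ht hd hsk _
    rw [sk_dbl] at hsk
    rw [deg_dbl] at hd
    have h1 := hsk.deg_eq
    rw [(deg_sk t ht).2 (by omega)]
    exact CEq_dbl hsk
  | @pend A _ hA ih =>
    intro t ht hd hsk hM
    have hA2 := deg_two_of hA
    rw [M_pr K A hA] at hM
    rw [sk_noder A hA] at hsk
    match t, ht with
    | node leaf leaf, _ => simp only [deg] at hd; omega
    | node leaf (node c d), _ =>
      rw [M_pl K (node c d) nofun] at hM
      rw [sk_lnode (node c d) nofun] at hsk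
      have h1 := map_inj K hL (ThreeCherries.deg_pos _) (hB A hA).1
        (hsk.deg_eq ▸ (hB (node c d) nofun).1) hM
      have h2 := ih (node c d) nofun (by simp only [deg] at hd ⊢; omega) hsk h1
      exact (CEq.congr h2 (CEq.refl leaf)).trans (CEq.comm _ _)
    | node (node c d) leaf, _ =>
      rw [M_pr K (node c d) nofun] at hM
      rw [sk_noder (node c d) nofun] at hsk
      have h1 := map_inj K hL (ThreeCherries.deg_pos _) (hB A hA).1
        (hsk.deg_eq ▸ (hB (node c d) nofun).1) hM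
      have h2 := ih (node c d) nofun (by simp only [deg] at hd ⊢; omega) hsk h1
      exact CEq.congr h2 (CEq.refl leaf)
    | node (node c d) (node e f), _ =>
      exact absurd hM.symm (not_im K hB hI A (node c d) (node e f) hA nofun nofun (Or.inl hsk))
  | @cat A B _ hA hb ih =>
    refine node_case K hB hS hI A B hA (cher_ne hb) ?_
    intro C D hCl hDl hd h1 h2 hM
    rw [sk_of_one hb] at h2
    exact core K hB hU hC hF hR A B C D hA hCl hb (one_of_sk hDl (inv_leaf h2)) ih h1 hd hM
  | @comm A B _ ih =>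
    intro t ht hd hsk hM
    exact (CEq.comm B A).trans (ih t ht (by simp only [deg] at hd ⊢; omega)
      ((sk_comm A B).trans hsk) ((hS A B).trans hM))
  | @slope A B _ _ hA hBl hlt hne ihA ihB =>
    exact node_case K hB hS hI A B hA hBl fun C D hCl hDl hd h1 h2 hM =>
      core_slope K hB hRo hSl A B C D hA hBl hCl hDl hlt hne ihA ihB h1 h2 hd hM
  | @eqsk A B _ _ hA hBl hAB hne ihA ihB =>
    exact node_case K hB hS hI A B hA hBl fun C D hCl hDl hd h1 h2 hM =>
      core_eq K hB hRq A B C D hA hBl hCl hDl hAB hne ihA ihB h1 h2 hd hM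

end main

end Pool.Agent.R325.BH
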