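import Pool.Agent.R325.BH.FIN
import Pool.Agent.R325.BH.Base4

set_option linter.all false
universe u
namespace Pool.Agent.R325.BH

open Pool.Agent.Results.MP_5ecbac_al
open ThreeCherries ThreeCherries.Br Skeleton

attribute [local instance 100] LieRing.ofAssociativeRing

/-- the condition on a node with two nonleaf children -/
def NC (P Q : Br) : Prop := P.cherries = 1 ∨ Q.cherries = 1 ∨ P.cherries = Q.cherries ∨
  P.deg * Q.cherries ≠ Q.deg * P.cherries ∨ (P.deg = 2 * P.cherries ∧ Q.deg = 2 * Q.cherries)

/-- all nodes satisfy the condition -/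
def Ok : Br → Prop
  | leaf => True
  | node P Q => Ok P ∧ Ok Q ∧ (P = leaf ∨ Q = leaf ∨ NC P Q)

/-- all iterated skeletons satisfy the condition -/
def Rg (s : Br) : Prop := ∀ j : ℕ, Ok (sk^[j] s)

lemma ok_iter_leaf : ∀ j : ℕ, Ok (sk^[j] leaf)
  | 0 => trivial
  | j + 1 => by
    rw [Function.iterate_succ_apply]
    exact ok_iter_leaf j

lemma ok_child : ∀ (j : ℕ) (A B : Br), Ok (sk^[j] (node A B)) → Ok (sk^[j] A) ∧ Ok (sk^[j] B)
  | 0, A, B, h => ⟨h.1, h.2.1⟩
  | j + 1, A, B, h => by
    by_cases hA : A = leaf
    · subst hA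
      refine ⟨ok_iter_leaf _, ?_⟩
      by_cases hB : B = leaf
      · subst hB; exact ok_iter_leaf _
      · rw [Function.iterate_succ_apply, sk_lnode B hB] at h
        rw [Function.iterate_succ_apply]; exact h
    · by_cases hB : B = leaf
      · subst hB
        refine ⟨?_, ok_iter_leaf _⟩
        rw [Function.iterate_succ_apply, sk_noder A hA] at h
        rw [Function.iterate_succ_apply]; exact h
      · rw [Function.iterate_succ_apply, sk_node A B hA hB] at h
        rw [Function.iterate_succ_apply, Function.iterate_succ_apply]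
        exact ok_child j (sk A) (sk B) h

lemma rg_child {A B : Br} (h : Rg (node A B)) : Rg A ∧ Rg B :=
  ⟨fun j => (ok_child j A B (h j)).1, fun j => (ok_child j A B (h j)).2⟩

lemma rg_sk {s : Br} (h : Rg s) : Rg (sk s) := fun j => by
  have := h (j + 1)
  rw [Function.iterate_succ_apply] at this
  exact this

/-- determination by the spaces `N` over all fields -/
def GN (s : Br) : Prop := ∀ (L : Type u) [Field L] (t : Br), s.deg = t.deg →
  N L s = N L t → CEq s t

lemma PT_dbl (K : Type u) [Field K] (s : Br) (hs : s ≠ leaf) (h : s.deg = 2 * s.cherries) :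
    PT K s := by
  intro t ht hd hsk _
  have e1 := deg_sk_eq s hs
  have h1 := hsk.deg_eq
  have e2 := (deg_sk s hs).2 (by omega)
  have e3 := (deg_sk t ht).2 (by omega)
  rw [e2, e3]
  exact CEq_dbl hsk

lemma PT_pend (K : Type u) [Field K] (hB : S_BAS K) (hL : S_LD K) (hI : S_IM K) (A : Br)
    (hA : A ≠ leaf) (ih : PT K A) : PT K (node A leaf) := by
  intro t ht hd hsk hM
  have hA2 := deg_two_of hA
  rw [M_pr K A hA] at hM
  rw [sk_noder A hA] at hsk
  match t, ht with
  | node leaf leaf, _ => simp only [deg] at hd; omega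
  | node leaf (node c d), _ =>
    rw [M_pl K (node c d) nofun] at hM
    rw [sk_lnode (node c d) nofun] at hsk
    have h1 := map_inj K hL (ThreeCherries.deg_pos _) (hB A hA).1
      (hsk.deg_eq ▸ (hB (node c d) nofun).1) hM
    have h2 := ih (node c d) nofun (by simp only [deg] at hd ⊢; omega) hsk h1
    exact (CEq.congr h2 (CEq.refl leaf)).trans (CEq.comm _ _)
  | node (node c d) leaf, _ =>
    rw [M_pr K (node c d) nofun] at hM
    rw [sk_noder (node c d) nofun] at hsk
    have h1 := map_inj K hL (ThreeCherries.deg_pos _) (hB A hA).1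
      (hsk.deg_eq ▸ (hB (node c d) nofun).1) hM
    have h2 := ih (node c d) nofun (by simp only [deg] at hd ⊢; omega) hsk h1
    exact CEq.congr h2 (CEq.refl leaf)
  | node (node c d) (node e f), _ =>
    exact absurd hM.symm (not_im K hB hI A (node c d) (node e f) hA nofun nofun (Or.inl hsk))

lemma PT_comm (K : Type u) [Field K] (hS : S_SYM K) (A B : Br) (ih : PT K (node A B)) :
    PT K (node B A) := by
  intro t ht hd hsk hM
  exact (CEq.comm B A).trans (ih t ht (by simp only [deg] at hd ⊢; omega)
    ((sk_comm A B).trans hsk) ((hS A B).trans hM))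

lemma core_pair (K : Type u) [Field K] (hB : S_BAS K) (hP : S_PAIR K) (hKi : S_KIL K)
    (hMS : S_MSK K) (A B C D : Br) (hA : A ≠ leaf) (hBl : B ≠ leaf) (hC : C ≠ leaf)
    (hD : D ≠ leaf) (hAB : A.cherries = B.cherries)
    (hPA : PT K A) (hPB : PT K B) (gA : GN.{u} (sk A)) (gB : GN.{u} (sk B))
    (hs1 : CEq (sk A) (sk C)) (hs2 : CEq (sk B) (sk D))
    (hM : br K (M K A) (M K B) = br K (M K C) (M K D)) : CEq (node A B) (node C D) := by
  have e1 := hs1.deg_eq
  have e2 := hs2.deg_eq
  have kA := deg_sk_eq A hA
  have kB := deg_sk_eq B hBl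
  have e3 : (sk A).deg = (sk B).deg := by omega
  have mB := mk K hB B hBl
  have mC := mk K hB C hC
  have mD := mk K hB D hD
  rw [← e3] at mB
  rw [← e1] at mC
  rw [← e2, ← e3] at mD
  rcases hP (sk A).deg _ _ _ _ (M K A) (M K B) (M K C) (M K D)
    (ThreeCherries.deg_pos _) (mk K hB A hA) mB mC mD (hKi A hA) (hKi B hBl) (hKi C hC) (hKi D hD)
    hM with ⟨h1, h2⟩ | ⟨h1, h2⟩
  · exact CEq.congr (hPA C hC (deg_of_eq K hB A C hA hC hs1 h1) hs1 h1)
      (hPB D hD (deg_of_eq K hB B D hBl hD hs2 h2) hs2 h2)
  · have s1 : CEq (sk A) (sk D) := gA _ (sk D) (by omega) (hMS A D hA hD h1)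
    have s2 : CEq (sk B) (sk C) := gB _ (sk C) (by omega) (hMS B C hBl hC h2)
    exact (CEq.congr (hPA D hD (deg_of_eq K hB A D hA hD s1 h1) s1 h1)
      (hPB C hC (deg_of_eq K hB B C hBl hC s2 h2) s2 h2)).trans (CEq.comm _ _)

lemma sk_lt {s : Br} (hs : s ≠ leaf) : (sk s).deg < s.deg := by
  have := (deg_sk s hs).1
  have := ThreeCherries.deg_pos (sk s)
  omega

/-- hypotheses still to be supplied -/
def Hyp : Prop := ∀ (L : Type u) [Field L], S_PAIR L ∧ S_KIL L ∧ S_ROOT L ∧ S_SLP L ∧ S_NM L ∧ S_MSK L

theorem main3 (H : Hyp.{u}) : ∀ (n : ℕ) (s : Br), s.deg ≤ n → Rg s →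
    (s ≠ leaf → ∀ (L : Type u) [Field L], PT L s) ∧ GN.{u} s := by
  intro n
  induction n with
  | zero => intro s hn _; have := ThreeCherries.deg_pos s; omega
  | succ n ih =>
    intro s hn hR
    have hPT : s ≠ leaf → ∀ (L : Type u) [Field L], PT L s := by
      intro hs L _
      obtain ⟨hPa, hKi, hRo, hSl, hNM, hMS⟩ := H L
      have hM := MUL L
      have hD := DL L
      have hL := LD L hD
      have hB := BAS L hM hD hL
      have hS := SYM L
      have hU := UNI L hM hD hB hS hL (KEY L hM)
      have hC := CAN L hM hD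
      have hF := FST L hM hD hB hL
      have hRt : S_RT L := RT L hM
      have hI := IM L hM hD hL
      by_cases hdb : s.deg = 2 * s.cherries
      · exact PT_dbl L s hs hdb
      cases s with
      | leaf => exact absurd rfl hs
      | node A B =>
        obtain ⟨rA, rB⟩ := rg_child hR
        have hdA := ThreeCherries.deg_pos A
        have hdB := ThreeCherries.deg_pos B
        have hn' : A.deg + B.deg ≤ n + 1 := hn
        obtain ⟨pA, gA⟩ := ih A (by omega) rA
        obtain ⟨pB, gB⟩ := ih B (by omega) rB
        by_cases hAl : A = leaf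
        · subst hAl
          by_cases hBl : B = leaf
          · subst hBl; exact absurd rfl hdb
          · exact PT_comm L hS B leaf (PT_pend L hB hL hI B hBl (pB hBl L))
        · by_cases hBl : B = leaf
          · subst hBl; exact PT_pend L hB hL hI A hAl (pA hAl L)
          · have hA2 := sk_lt hAl
            have hB2 := sk_lt hBl
            obtain ⟨_, gA'⟩ := ih (sk A) (by omega) (rg_sk rA)
            obtain ⟨_, gB'⟩ := ih (sk B) (by omega) (rg_sk rB)
            have hnc : NC A B := by
              rcases (hR 0).2.2 with h | h | h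
              · exact absurd h hAl
              · exact absurd h hBl
              · exact h
            have cat : ∀ P Q : Br, P ≠ leaf → PT L P → Q.cherries = 1 → PT L (node P Q) := by
              intro P Q hP hPT hQ
              refine node_case L hB hS hI P Q hP (cher_ne hQ) ?_
              intro C D hCl hDl hd h1 h2 hM
              rw [sk_of_one hQ] at h2
              exact core L hB hU hC hF hRt P Q C D hP hCl hQ (one_of_sk hDl (inv_leaf h2)) hPT h1 hd hM
            have slo : ∀ P Q : Br, P ≠ leaf → Q ≠ leaf → PT L P → PT L Q →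
                Q.cherries < P.cherries → P.deg * Q.cherries ≠ Q.deg * P.cherries →
                PT L (node P Q) := by
              intro P Q hP hQ p1 p2 hlt hne
              exact node_case L hB hS hI P Q hP hQ fun C D hCl hDl hd h1 h2 hM =>
                core_slope L hB hRo hSl P Q C D hP hQ hCl hDl hlt hne p1 p2 h1 h2 hd hM
            rcases hnc with h | h | h | h | ⟨h, h'⟩
            · exact PT_comm L hS B A (cat B A hBl (pB hBl L) h)
            · exact cat A B hAl (pA hAl L) h
            · exact node_case L hB hS hI A B hAl hBl fun C D hCl hDl hd h1 h2 hM =>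
                core_pair L hB hPa hKi hMS A B C D hAl hBl hCl hDl h (pA hAl L) (pB hBl L) gA' gB'
                  h1 h2 hM
            · rcases Nat.lt_trichotomy B.cherries A.cherries with hlt | heq | hgt
              · exact slo A B hAl hBl (pA hAl L) (pB hBl L) hlt h
              · exact node_case L hB hS hI A B hAl hBl fun C D hCl hDl hd h1 h2 hM =>
                  core_pair L hB hPa hKi hMS A B C D hAl hBl hCl hDl heq.symm (pA hAl L) (pB hBl L)
                    gA' gB' h1 h2 hM
              · exact PT_comm L hS B A (slo B A hBl hAl (pB hBl L) (pA hAl L) hgt (Ne.symm h))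
            · exfalso
              apply hdb
              rw [cherries_node A B (fun hh => hAl hh.1)]
              simp only [deg]
              omega
    refine ⟨hPT, ?_⟩
    intro L _ t hd hN
    by_cases hs : s = leaf
    · subst hs
      rw [deg_one (s := t) (by rw [← hd]; rfl)]
      exact CEq.refl _
    · obtain ⟨hPa, hKi, hRo, hSl, hNM, hMS⟩ := H L
      have h2 := deg_two_of hs
      have ht : t ≠ leaf := by
        rintro rfl
        simp only [deg] at hd
        omega
      obtain ⟨e1, e2⟩ := hNM s t hs ht hd hN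
      have hlt := sk_lt hs
      obtain ⟨_, g⟩ := ih (sk s) (by omega) (rg_sk hR)
      exact hPT hs L t ht hd (g _ (sk t) e1 (hMS s t hs ht e2)) e2

end Pool.Agent.R325.BH
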